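import Pool.Agent.Lib.MP_b50536_gt.QT.L0

/-! A point of an arc that avoids the big branch points at all scales. -/

namespace QT
open Set Metric Filter Topology
open scoped NNReal

namespace Avo

variable {T : Type*} [MetricSpace T] [SemilatticeInf T] [OrderBot T] {D : T → T → ℝ} {K : ℝ}

theorem up (h : TA T D K) {b x s : T} (hb : b ≤ x) (hs : D x s < D b x) :
    b ≤ x ⊓ s ∧ ¬ x ⊓ s ≤ b := by
  have n : ¬ x ⊓ s ≤ b := fun e =>
    absurd (h.mono x s b x e (Or.inl hb) inf_le_left (Or.inl le_rfl)) hs.not_ge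
  exact ⟨(h.chain _ _ x hb inf_le_left).resolve_right n, n⟩

theorem inf_eq (h : TA T D K) {b x y s s' : T} (e : x ⊓ y = b) (h1 : b ≤ x ⊓ s)
    (n1 : ¬ x ⊓ s ≤ b) (h2 : b ≤ y ⊓ s') (n2 : ¬ y ⊓ s' ≤ b) : s ⊓ s' = b := by
  refine le_antisymm ?_ (le_inf (h1.trans inf_le_right) (h2.trans inf_le_right))
  have k1 : ¬ x ⊓ s ≤ y ⊓ s' := fun k => n1 (e ▸ le_inf inf_le_left (k.trans inf_le_left))
  have k2 : ¬ y ⊓ s' ≤ x ⊓ s := fun k => n2 (e ▸ le_inf (k.trans inf_le_left) inf_le_left)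
  rcases h.chain (s ⊓ s') (x ⊓ s) s inf_le_left inf_le_right with a | a <;>
    rcases h.chain (s ⊓ s') (y ⊓ s') s' inf_le_right inf_le_right with a' | a'
  · exact e ▸ le_inf (a.trans inf_le_left) (a'.trans inf_le_left)
  · exact absurd (a'.trans a) k2
  · exact absurd (a.trans a') k1
  · exact ((h.chain _ _ _ a a').elim k1 k2).elim

/-- There are few big branch points near a point. -/
theorem few (h : TA T D K) : ∃ N : ℕ, ∀ (a : T) (r : ℝ), 0 < r →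
    ∃ B : Finset T, B.card ≤ N ∧ ∀ b, Big D r b → D a b ≤ 2 * r → b ∈ B := by
  classical
  obtain ⟨N, hN⟩ := h.cover 3
  refine ⟨N * N, fun a r hr => ?_⟩
  obtain ⟨S, hS, hc⟩ := hN a r hr
  refine ⟨Finset.image₂ (· ⊓ ·) S S, (Finset.card_image₂_le _ _ _).trans (Nat.mul_le_mul hS hS),
    ?_⟩
  rintro b ⟨x, y, e, hx, hy⟩ hb
  obtain ⟨x', x1, x2, x3⟩ := h.ivt b x r (e ▸ inf_le_left) hr.le hx
  obtain ⟨y', y1, y2, y3⟩ := h.ivt b y r (e ▸ inf_le_right) hr.le hy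
  obtain ⟨s, s1, s2⟩ := hc x' (by have := h.tri a b x'; linarith)
  obtain ⟨s', s1', s2'⟩ := hc y' (by have := h.tri a b y'; linarith)
  obtain ⟨u1, u2⟩ := up h x1 (x3 ▸ s2)
  obtain ⟨u1', u2'⟩ := up h y1 (y3 ▸ s2')
  exact Finset.mem_image₂.2 ⟨s, s1, s', s1', inf_eq h
    (le_antisymm (e ▸ inf_le_inf x2 y2) (le_inf x1 y1)) u1 u2 u1' u2'⟩

/-- One scale. -/
theorem one (h : TA T D K) : ∃ g : ℝ, 0 < g ∧ g ≤ 1 ∧ ∀ r : ℝ, 0 < r → ∀ a c : T, a ≤ c →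
    r ≤ D a c → ∃ a' c', a ≤ a' ∧ a' ≤ c' ∧ c' ≤ c ∧ g * r ≤ D a' c' ∧
      ∀ z, a' ≤ z → z ≤ c' → ∀ b, Big D r b → g * r ≤ D z b := by
  obtain ⟨N, hN⟩ := few h
  have hQ : (0 : ℝ) < 4 * (N + 1) := by positivity
  have hQ1 : (1 : ℝ) ≤ 4 * (N + 1) := by
    have : (0 : ℝ) ≤ N := Nat.cast_nonneg _
    linarith
  refine ⟨1 / (4 * (N + 1)), by positivity, (div_le_one hQ).2 hQ1, fun r hr a c hac hD => ?_⟩
  set ε : ℝ := 1 / (4 * (N + 1)) * r with hε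
  have ε0 : 0 < ε := by positivity
  have εr : 4 * (N + 1) * ε = r := by rw [hε]; field_simp
  have εr' : ε ≤ r := by nlinarith
  have he : ∀ i : ℕ, ∃ e, a ≤ e ∧ e ≤ c ∧ (i ≤ 2 * (N + 1) → D a e = i * (2 * ε)) := fun i => by
    by_cases hi : i ≤ 2 * (N + 1)
    · have : (i : ℝ) ≤ 2 * (N + 1) := by exact_mod_cast hi
      obtain ⟨e, e1, e2, e3⟩ := h.ivt a c (i * (2 * ε)) hac (by positivity) (by nlinarith)
      exact ⟨e, e1, e2, fun _ => e3⟩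
    · exact ⟨a, le_rfl, hac, fun k => absurd k hi⟩
  choose e e1 e2 e3 using he
  have inc : ∀ i j : ℕ, i < j → j ≤ 2 * (N + 1) → e i ≤ e j ∧ 2 * ε ≤ D (e i) (e j) :=
    fun i j hij hj => by
      have k1 := e3 i (by omega)
      have k2 := e3 j hj
      have k3 : (i : ℝ) + 1 ≤ j := by exact_mod_cast hij
      refine ⟨(h.chain _ _ c (e2 i) (e2 j)).resolve_right fun k => ?_, ?_⟩
      · have := h.mono' le_rfl (e1 j) k
        nlinarith
      · have := h.tri a (e i) (e j)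
        nlinarith
  by_contra hc
  have bad : ∀ i : ℕ, ∃ z b, i < N + 1 →
      e (2 * i) ≤ z ∧ z ≤ e (2 * i + 1) ∧ Big D r b ∧ D z b < ε := fun i => by
    by_cases hi : i < N + 1
    · obtain ⟨k1, k2⟩ := inc (2 * i) (2 * i + 1) (by omega) (by omega)
      by_contra hn
      refine hc ⟨e (2 * i), e (2 * i + 1), e1 _, k1, e2 _, by linarith, fun z z1 z2 b hb => ?_⟩
      by_contra hl
      exact hn ⟨z, b, fun _ => ⟨z1, z2, hb, not_le.1 hl⟩⟩
    · exact ⟨a, a, fun k => absurd k hi⟩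
  choose z b hz using bad
  obtain ⟨B, hB, hm⟩ := hN a r hr
  have far : ∀ i j, i < j → j < N + 1 → b i ≠ b j := fun i j hij hj eq => by
    obtain ⟨-, p2, -, p4⟩ := hz i (by omega)
    obtain ⟨q1, -, -, q4⟩ := hz j hj
    obtain ⟨k1, k2⟩ := inc (2 * i + 1) (2 * j) (by omega) (by omega)
    have k3 := h.mono' p2 k1 q1
    have k4 := h.tri (z i) (b i) (z j)
    rw [h.symm (b i), eq] at k4
    rw [eq] at p4
    linarith
  obtain ⟨i, hi, j, hj, ne, eq⟩ := Finset.exists_ne_map_eq_of_card_lt_of_maps_to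
    (s := Finset.range (N + 1)) (t := B) (f := b) (by rw [Finset.card_range]; omega) fun i hi => by
      have hi' : i < N + 1 := Finset.mem_range.1 hi
      obtain ⟨p1, p2, p3, p4⟩ := hz i hi'
      have k1 := h.mono' le_rfl ((e1 _).trans p1) p2
      have k2 := e3 (2 * i + 1) (by omega)
      have k3 : ((2 * i + 1 : ℕ) : ℝ) ≤ 2 * (N + 1) := by exact_mod_cast (by omega)
      have k4 := h.tri a (z i) (b i)
      exact hm _ p3 (by nlinarith)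
  rcases lt_or_gt_of_ne ne with l | l
  · exact far i j l (Finset.mem_range.1 hj) eq
  · exact far j i l (Finset.mem_range.1 hi) eq.symm

end Avo

theorem avo {T : Type*} [MetricSpace T] [CompactSpace T] [SemilatticeInf T] [OrderBot T]
    {D : T → T → ℝ} {K : ℝ} (h : TA T D K) :
    ∃ g : ℝ, 0 < g ∧ g ≤ 1 ∧ ∀ d : ℝ, 0 < d → d ≤ g → ∀ r : ℝ, 0 < r → ∀ a c : T, a ≤ c →
      r ≤ D a c → ∃ z, a ≤ z ∧ z ≤ c ∧
        ∀ (m : ℕ) (b : T), Big D (r * d ^ m) b → g * (r * d ^ m) ≤ D z b := by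
  obtain ⟨g, g0, g1, hg⟩ := Avo.one h
  refine ⟨g, g0, g1, fun d hd hdg r hr a c hac hD => ?_⟩
  have step : ∀ (m : ℕ) (p : T × T), ∃ p' : T × T, p.1 ≤ p.2 → r * d ^ m ≤ D p.1 p.2 →
      p.1 ≤ p'.1 ∧ p'.1 ≤ p'.2 ∧ p'.2 ≤ p.2 ∧ r * d ^ (m + 1) ≤ D p'.1 p'.2 ∧
        ∀ z, p'.1 ≤ z → z ≤ p'.2 → ∀ b, Big D (r * d ^ m) b → g * (r * d ^ m) ≤ D z b :=
    fun m p => by
      by_cases hp : p.1 ≤ p.2 ∧ r * d ^ m ≤ D p.1 p.2
      · have h0 : 0 < r * d ^ m := by positivity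
        obtain ⟨a', c', k1, k2, k3, k4, k5⟩ := hg _ h0 p.1 p.2 hp.1 hp.2
        refine ⟨(a', c'), fun _ _ => ⟨k1, k2, k3, le_trans ?_ k4, k5⟩⟩
        rw [pow_succ, ← mul_assoc, mul_comm]
        exact mul_le_mul_of_nonneg_right hdg h0.le
      · exact ⟨p, fun k1 k2 => absurd ⟨k1, k2⟩ hp⟩
  choose f hf using step
  let s : ℕ → T × T := fun m => Nat.rec (a, c) f m
  have inv : ∀ m, (s m).1 ≤ (s m).2 ∧ r * d ^ m ≤ D (s m).1 (s m).2 := fun m => by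
    induction m with
    | zero => exact ⟨hac, by simpa [s] using hD⟩
    | succ m ih => exact ⟨(hf m _ ih.1 ih.2).2.1, (hf m _ ih.1 ih.2).2.2.2.1⟩
  obtain ⟨z, hz⟩ := IsCompact.nonempty_iInter_of_sequence_nonempty_isCompact_isClosed
    (fun m => Icc (s m).1 (s m).2)
    (fun m => Icc_subset_Icc (hf m _ (inv m).1 (inv m).2).1 (hf m _ (inv m).1 (inv m).2).2.2.1)
    (fun m => nonempty_Icc.2 (inv m).1) (h.closed _ _).isCompact fun m => h.closed _ _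
  rw [mem_iInter] at hz
  exact ⟨z, (hz 0).1, (hz 0).2, fun m =>
    (hf m _ (inv m).1 (inv m).2).2.2.2.2 z (hz (m + 1)).1 (hz (m + 1)).2⟩

end QT
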