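import Pool.Agent.Lib.MP_b50536_gt.QT.St

/-! Small shared lemmas: order, constants, the kite. -/

namespace QT
open Set Metric

section ta
variable {T : Type*} [MetricSpace T] [SemilatticeInf T] [OrderBot T] {D : T → T → ℝ} {K : ℝ}

theorem TA.nonneg (h : TA T D K) (x y : T) : 0 ≤ D x y := dist_nonneg.trans (h.lo x y)
theorem TA.self (h : TA T D K) (x : T) : D x x = 0 :=
  le_antisymm (by simpa using h.hi x x) (h.nonneg x x)
theorem TA.dpos (h : TA T D K) {x y : T} (hxy : x ≠ y) : 0 < D x y :=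
  (dist_pos.2 hxy).trans_le (h.lo x y)
/-- Monotonicity along a chain. -/
theorem TA.mono' (h : TA T D K) {a a' b' b : T} (h1 : a ≤ a') (h2 : a' ≤ b') (h3 : b' ≤ b) :
    D a' b' ≤ D a b :=
  h.mono a b a' b' (inf_le_left.trans h1) (Or.inr (h2.trans h3))
    (inf_le_left.trans (h1.trans h2)) (Or.inr h3)
end ta

section vs
variable {T : Type*} [SemilatticeInf T] [OrderBot T] {D : T → T → ℝ} {g d D0 : ℝ} {N M : ℕ}

theorem VS.ne_bot (S : VS T D g d D0 N M) {n : ℕ} {u : T} (hu : u ∈ S.V n) : u ≠ ⊥ :=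
  fun h => S.nb n (h ▸ hu)
theorem VS.mono_le (S : VS T D g d D0 N M) {n m : ℕ} (h : n ≤ m) : S.V n ⊆ S.V m := by
  induction h with
  | refl => exact subset_rfl
  | step _ ih => exact ih.trans (S.mono _)
theorem VS.p_bot (S : VS T D g d D0 N M) (n : ℕ) : S.p n ⊥ = ⊥ := le_bot_iff.1 (S.p_le n ⊥)
theorem VS.p_zero (S : VS T D g d D0 N M) (x : T) : S.p 0 x = ⊥ :=
  (S.p_mem 0 x).resolve_right (by simp [S.v0])
theorem VS.p_max' (S : VS T D g d D0 N M) {n : ℕ} {x u : T} (hu : u = ⊥ ∨ u ∈ S.V n)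
    (h : u ≤ x) : u ≤ S.p n x := by
  rcases hu with rfl | hu
  · exact bot_le
  · exact S.p_max n x u hu h
theorem VS.pv_max' (S : VS T D g d D0 N M) {n : ℕ} {w u : T} (hu : u = ⊥ ∨ u ∈ S.V n)
    (h : u < w) : u ≤ S.pv n w := by
  rcases hu with rfl | hu
  · exact bot_le
  · exact S.pv_max n w u hu h
theorem VS.p_self (S : VS T D g d D0 N M) {n : ℕ} {u : T} (hu : u = ⊥ ∨ u ∈ S.V n) :
    S.p n u = u := le_antisymm (S.p_le n u) (S.p_max' hu le_rfl)
theorem VS.p_mono (S : VS T D g d D0 N M) (n : ℕ) {x y : T} (h : x ≤ y) : S.p n x ≤ S.p n y :=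
  S.p_max' (S.p_mem n x) ((S.p_le n x).trans h)
theorem VS.up (S : VS T D g d D0 N M) {n : ℕ} {u : T} (hu : u = ⊥ ∨ u ∈ S.V n) :
    u = ⊥ ∨ u ∈ S.V (n + 1) := hu.imp id fun h => S.mono n h
theorem VS.p_le_p (S : VS T D g d D0 N M) (n : ℕ) (x : T) : S.p n x ≤ S.p (n + 1) x :=
  S.p_max' (S.up (S.p_mem n x)) (S.p_le n x)
theorem VS.pp (S : VS T D g d D0 N M) (n : ℕ) (x : T) : S.p n (S.p (n + 1) x) = S.p n x :=
  le_antisymm (S.p_mono n (S.p_le _ x)) (S.p_max' (S.p_mem n x) (S.p_le_p n x))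
/-- On `[pv n w, w)` the tile is the one of `pv n w`. -/
theorem VS.p_eq_pv (S : VS T D g d D0 N M) {n : ℕ} {w z : T} (h1 : S.pv n w ≤ z) (h2 : z < w) :
    S.p n z = S.pv n w :=
  le_antisymm (S.pv_max' (S.p_mem n z) ((S.p_le n z).trans_lt h2)) (S.p_max' (S.pv_mem n w) h1)
end vs

section geo
variable {N : ℕ}

theorem th_pos (hN : 1 ≤ N) : 0 < th N := by
  have : (0 : ℝ) < N := by exact_mod_cast hN
  unfold th; positivity
theorem th_le (hN : 1 ≤ N) : th N ≤ 1 / 200 := by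
  have : (1 : ℝ) ≤ N := by exact_mod_cast hN
  unfold th
  exact one_div_le_one_div_of_le (by norm_num) (by linarith)
theorem N_th (hN : 1 ≤ N) : (N : ℝ) * th N = 1 / 200 := by
  have : (0 : ℝ) < N := by exact_mod_cast hN
  unfold th; field_simp
theorem et_pos (hN : 1 ≤ N) : 0 < et N := by have := th_pos hN; unfold et; positivity
theorem ss_pos (hN : 1 ≤ N) : 0 < ss N := by have := th_pos hN; unfold ss; positivity
theorem ss_le (hN : 1 ≤ N) : ss N ≤ 1 / 80000 := by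
  have := th_pos hN; have := th_le hN; unfold ss; nlinarith
theorem j_et (hN : 1 ≤ N) {j : ℕ} (hj : j ≤ N) : (j : ℝ) * et N ≤ th N / 4 := by
  have h1 : (j : ℝ) ≤ N := by exact_mod_cast hj
  have h2 := N_th hN
  have h3 := th_pos hN
  calc (j : ℝ) * et N ≤ N * et N := mul_le_mul_of_nonneg_right h1 (et_pos hN).le
    _ = 50 * th N * (N * th N) := by unfold et; ring
    _ = th N / 4 := by rw [h2]; ring
theorem j_et0 (hN : 1 ≤ N) (j : ℕ) : 0 ≤ (j : ℝ) * et N := by have := et_pos hN; positivity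
@[simp] theorem PP_re (N j : ℕ) : (PP N j).re = j * et N := rfl
@[simp] theorem PP_im (N j : ℕ) : (PP N j).im = 1 := rfl
theorem PP_zero (N : ℕ) : PP N 0 = Complex.I := by apply Complex.ext <;> simp
theorem norm_le_add (z : ℂ) : ‖z‖ ≤ |z.re| + |z.im| := Complex.norm_le_abs_re_add_abs_im z
theorem PP_norm (hN : 1 ≤ N) {j : ℕ} (hj : j ≤ N) : ‖PP N j‖ ≤ 2 := by
  have := norm_le_add (PP N j)
  have h1 := j_et hN hj
  have h2 := j_et0 hN j
  have h3 := th_le hN
  rw [PP_re, PP_im, abs_of_nonneg h2, abs_one] at this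
  linarith
theorem KK_im0 (hN : 1 ≤ N) {z : ℂ} (hz : z ∈ KK N) : 0 ≤ z.im :=
  (mul_nonneg_iff_of_pos_left (th_pos hN)).1 ((abs_nonneg _).trans hz.1)
theorem KK_top (hN : 1 ≤ N) {z : ℂ} (hz : z ∈ KK N) : z.im - 1 ≤ |z.re| / 4 := by
  simpa using hz.2 0 hN
theorem KK_im (hN : 1 ≤ N) {z : ℂ} (hz : z ∈ KK N) : z.im ≤ 1 + th N / 3 := by
  have h1 := KK_top hN hz
  have h2 := hz.1
  have h3 := th_pos hN
  have h4 := th_le hN
  have h5 := KK_im0 hN hz
  have h6 : z.im ≤ 4 / 3 := by nlinarith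
  nlinarith
theorem KK_norm (hN : 1 ≤ N) {z : ℂ} (hz : z ∈ KK N) : ‖z‖ ≤ 2 := by
  have := norm_le_add z
  have h1 := KK_im hN hz
  have h2 := hz.1
  have h3 := th_pos hN
  have h4 := th_le hN
  have h5 := KK_im0 hN hz
  rw [abs_of_nonneg h5] at this
  nlinarith
theorem zero_KK (N : ℕ) : (0 : ℂ) ∈ KK N := by
  refine ⟨by simp, fun j _ => ?_⟩
  have := abs_nonneg ((0 : ℂ).re - j * et N)
  simp only [Complex.zero_im] at *
  linarith
theorem isClosed_KK (N : ℕ) : IsClosed (KK N) := by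
  have e : KK N = {z : ℂ | |z.re| ≤ th N * z.im} ∩
      ⋂ j, ⋂ (_ : j < N), {z : ℂ | z.im - 1 ≤ |z.re - j * et N| / 4} := by
    ext z; simp [KK]
  rw [e]
  refine IsClosed.inter (isClosed_le (by fun_prop) (by fun_prop)) ?_
  exact isClosed_iInter fun j => isClosed_iInter fun _ => isClosed_le (by fun_prop) (by fun_prop)

/-- The upward cone of aperture `1/4`. -/
def UU (e : ℂ) : Prop := |e.re| ≤ e.im / 4

theorem UU.add {e f : ℂ} (he : UU e) (hf : UU f) : UU (e + f) := by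
  unfold UU at *
  have := abs_add_le e.re f.re
  simp only [Complex.add_re, Complex.add_im]
  linarith
theorem UU.im0 {e : ℂ} (he : UU e) : 0 ≤ e.im := by
  unfold UU at he; have := abs_nonneg e.re; linarith
theorem UU_zero : UU 0 := by simp [UU]
theorem Sect.re0 {b : ℂ} (hb : Sect b) : 0 ≤ b.re := by
  unfold Sect at hb; have := abs_nonneg b.im; linarith
theorem Sect.norm_le {b : ℂ} (hb : Sect b) : ‖b‖ ≤ 6 / 5 * b.re := by
  have := norm_le_add b
  rw [abs_of_nonneg hb.re0] at this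
  unfold Sect at hb; linarith
theorem sect_real {r : ℝ} (hr : 0 ≤ r) : Sect (r : ℂ) := by
  simp only [Sect, Complex.ofReal_im, Complex.ofReal_re, abs_zero]; positivity
theorem Sect.smul {b : ℂ} (hb : Sect b) {r : ℝ} (hr : 0 ≤ r) : Sect ((r : ℂ) * b) := by
  unfold Sect at *
  simp only [Complex.mul_im, Complex.mul_re, Complex.ofReal_re, Complex.ofReal_im, zero_mul,
    add_zero, sub_zero, abs_mul, abs_of_nonneg hr]
  nlinarith
theorem Sect.inv {b : ℂ} (hb : Sect b) : Sect b⁻¹ := by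
  unfold Sect at *
  rw [Complex.inv_im, Complex.inv_re, abs_div, abs_neg, abs_of_nonneg (Complex.normSq_nonneg b),
    div_right_comm]
  exact div_le_div_of_nonneg_right hb (Complex.normSq_nonneg b)
/-- A sector element times a point of a cone of aperture `a`. -/
theorem Sect.mul_cone {b z : ℂ} (hb : Sect b) {a a' : ℝ} (ha : 0 ≤ a) (hz : |z.re| ≤ a * z.im)
    (hz0 : 0 ≤ z.im) (ha' : 0 ≤ a') (h : a + 1 / 5 ≤ a' * (1 - a / 5)) :
    |(b * z).re| ≤ a' * (b * z).im := by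
  have h0 := hb.re0
  unfold Sect at hb
  simp only [Complex.mul_re, Complex.mul_im]
  have h1 : |b.re * z.re - b.im * z.im| ≤ b.re * z.im * (a + 1 / 5) := by
    refine (abs_sub _ _).trans ?_
    rw [abs_mul, abs_mul, abs_of_nonneg h0, abs_of_nonneg hz0]
    nlinarith [mul_le_mul_of_nonneg_left hz h0, mul_le_mul_of_nonneg_right hb hz0]
  have h2 : |b.im * z.re| ≤ b.re / 5 * (a * z.im) := by
    rw [abs_mul]; exact mul_le_mul hb hz (abs_nonneg _) (by linarith)
  have h3 := neg_abs_le (b.im * z.re)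
  have h4 : b.re * z.im * (1 - a / 5) ≤ b.re * z.im + b.im * z.re := by nlinarith
  calc _ ≤ b.re * z.im * (a + 1 / 5) := h1
    _ ≤ b.re * z.im * (a' * (1 - a / 5)) := mul_le_mul_of_nonneg_left h (mul_nonneg h0 hz0)
    _ = a' * (b.re * z.im * (1 - a / 5)) := by ring
    _ ≤ _ := mul_le_mul_of_nonneg_left h4 ha'
theorem Sect.mul_KK (hN : 1 ≤ N) {b z : ℂ} (hb : Sect b) (hz : z ∈ KK N) : UU (b * z) := by
  have h3 := th_pos hN
  have h4 := th_le hN
  have := hb.mul_cone (a' := 1 / 4) h3.le hz.1 (KK_im0 hN hz) (by norm_num) (by linarith)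
  unfold UU; linarith
theorem Sect.mul_PP (hN : 1 ≤ N) {b : ℂ} (hb : Sect b) {j : ℕ} (hj : j ≤ N) :
    UU (b * PP N j) ∧ ‖b‖ / 2 ≤ (b * PP N j).im := by
  have h3 := th_pos hN
  have h4 := th_le hN
  have h1 := j_et hN hj
  have h2 := j_et0 hN j
  constructor
  · have := hb.mul_cone (z := PP N j) (a' := 1 / 4) h3.le
      (by rw [PP_re, PP_im, abs_of_nonneg h2]; linarith) (by simp) (by norm_num) (by linarith)
    unfold UU; linarith
  · have h5 := hb.norm_le
    have h0 := hb.re0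
    unfold Sect at hb
    simp only [Complex.mul_im, PP_re, PP_im, mul_one]
    have := neg_abs_le b.im
    nlinarith [mul_le_mul_of_nonneg_right hb h2, mul_le_mul_of_nonneg_left h1 h0]
/-- A sector element times a point of `UU` lies in the cone of aperture `1/2`. -/
theorem Sect.mul_UU {b e : ℂ} (hb : Sect b) (he : UU e) : |(b * e).re| ≤ (b * e).im / 2 := by
  have := hb.mul_cone (z := e) (a := 1 / 4) (a' := 1 / 2) (by norm_num)
    (by unfold UU at he; linarith) he.im0 (by norm_num) (by norm_num)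
  linarith
/-- Cone separation. -/
theorem cs {a e : ℂ} (ha : a.im ≤ |a.re| / 4) (he : |e.re| ≤ e.im / 2) :
    ‖e‖ / 6 ≤ ‖a - e‖ ∧ ‖a‖ / 7 ≤ ‖a - e‖ := by
  have h0 : 0 ≤ e.im := by have := abs_nonneg e.re; linarith
  have h1 := norm_le_add e
  rw [abs_of_nonneg h0] at h1
  have h2 := Complex.abs_re_le_norm (a - e)
  have h3 := Complex.abs_im_le_norm (a - e)
  simp only [Complex.sub_re, Complex.sub_im] at h2 h3
  have h4 : |a.re| ≤ |a.re - e.re| + |e.re| := by
    have := abs_add_le (a.re - e.re) e.re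
    rwa [sub_add_cancel] at this
  have h5 := neg_abs_le (a.im - e.im)
  have h6 : ‖e‖ / 6 ≤ ‖a - e‖ := by linarith
  refine ⟨h6, ?_⟩
  have h7 : ‖a‖ ≤ ‖a - e‖ + ‖e‖ := by
    have := norm_add_le (a - e) e
    rwa [sub_add_cancel] at this
  linarith
/-- A point of the kite seen from a port. -/
theorem KK_port {z : ℂ} (hz : z ∈ KK N) {j : ℕ} (hj : j < N) :
    (z - PP N j).im ≤ |(z - PP N j).re| / 4 := by
  simpa using hz.2 j hj
end geo

end QT
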