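import Pool.Agent.Lib.MP_b50536_gt.QT.Bas

/-! The limit map and the two-sided estimate. -/

namespace QT
open Set Metric Filter Topology
open scoped NNReal

namespace EstA

section lay
variable {T : Type*} [SemilatticeInf T] [OrderBot T] {D : T → T → ℝ} {g d D0 c : ℝ} {N M : ℕ}
  {S : VS T D g d D0 N M} {idx : ℕ → T → ℕ} {a b : ℕ → T → ℂ} {Len : ℕ → T → T → ℝ}

theorem BB_succ (S : VS T D g d D0 N M) (b : ℕ → T → ℂ) (n : ℕ) (x : T) :
    BB S.p b (n + 1) (S.p (n + 1) x) = BB S.p b n (S.p n x) * b n (S.p (n + 1) x) := by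
  rw [BB, S.pp]

theorem AA_succ (S : VS T D g d D0 N M) (a b : ℕ → T → ℂ) (n : ℕ) (x : T) :
    AA S.p a b (n + 1) (S.p (n + 1) x) =
      AA S.p a b n (S.p n x) + BB S.p b n (S.p n x) * a n (S.p (n + 1) x) := by
  rw [AA, S.pp]

theorem ratio (G : GLay S c idx a b Len) (n : ℕ) (x : T) :
    c * ‖BB S.p b n (S.p n x)‖ ≤ ‖BB S.p b (n + 1) (S.p (n + 1) x)‖ ∧
      ‖BB S.p b (n + 1) (S.p (n + 1) x)‖ ≤ ‖BB S.p b n (S.p n x)‖ / 2 := by
  rw [BB_succ, norm_mul]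
  have h0 := norm_nonneg (BB S.p b n (S.p n x))
  have h1 := mul_le_mul_of_nonneg_left (G.lo n _ (S.p_mem (n + 1) x)) h0
  have h2 := mul_le_mul_of_nonneg_left (G.hi n _ (S.p_mem (n + 1) x)) h0
  constructor <;> linarith

theorem BB_bd (hc : 0 < c) (G : GLay S c idx a b Len) (x : T) (n : ℕ) :
    0 < ‖BB S.p b n (S.p n x)‖ ∧ ‖BB S.p b n (S.p n x)‖ ≤ (1 / 2) ^ n := by
  induction n with
  | zero => simp [BB]
  | succ n ih =>
    have h := ratio G n x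
    refine ⟨(mul_pos hc ih.1).trans_le h.1, ?_⟩
    rw [pow_succ]
    linarith [h.2, ih.2]

theorem lim (hN : 1 ≤ N) (hc : 0 < c) (G : GLay S c idx a b Len) (x : T) :
    ∃ q, Tendsto (fun n => AA S.p a b n (S.p n x)) atTop (𝓝 q) := by
  refine cauchySeq_tendsto_of_complete
    (cauchySeq_of_le_geometric (1 / 2) 2 (by norm_num) fun n => ?_)
  rw [AA_succ, dist_self_add_right, norm_mul, mul_comm]
  have h := G.sub n _ (S.p_mem (n + 1) x) 0 (zero_KK N)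
  rw [mul_zero, add_zero] at h
  exact mul_le_mul (KK_norm hN h) (BB_bd hc G x n).2 (norm_nonneg _) (by norm_num)

theorem nest (G : GLay S c idx a b Len) (x : T) (n m : ℕ) : ∀ z ∈ KK N, ∃ k ∈ KK N,
    AA S.p a b (n + m) (S.p (n + m) x) + BB S.p b (n + m) (S.p (n + m) x) * z =
      AA S.p a b n (S.p n x) + BB S.p b n (S.p n x) * k := by
  induction m with
  | zero => exact fun z hz => ⟨z, hz, rfl⟩
  | succ m ih =>
    intro z hz
    obtain ⟨k, hk, e⟩ := ih _ (G.sub (n + m) _ (S.p_mem (n + m + 1) x) z hz)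
    refine ⟨k, hk, ?_⟩
    rw [← e, ← add_assoc, AA_succ, BB_succ]
    ring

theorem kite (hc : 0 < c) (G : GLay S c idx a b Len) {x : T} {q : ℂ}
    (hq : Tendsto (fun n => AA S.p a b n (S.p n x)) atTop (𝓝 q)) (n : ℕ) :
    ∃ k ∈ KK N, q = AA S.p a b n (S.p n x) + BB S.p b n (S.p n x) * k := by
  have h0 : BB S.p b n (S.p n x) ≠ 0 := norm_pos_iff.1 (BB_bd hc G x n).1
  refine ⟨(q - AA S.p a b n (S.p n x)) / BB S.p b n (S.p n x), ?_, by field_simp; ring⟩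
  have h1 : Tendsto (fun m => AA S.p a b (n + m) (S.p (n + m) x)) atTop (𝓝 q) := by
    simpa only [add_comm n] using (tendsto_add_atTop_iff_nat n).2 hq
  refine (isClosed_KK N).mem_of_tendsto ((h1.sub_const _).div_const _)
    (Eventually.of_forall fun m => ?_)
  obtain ⟨k, hk, e⟩ := nest G x n m 0 (zero_KK N)
  rw [mul_zero, add_zero] at e
  rwa [e, add_sub_cancel_left, mul_div_cancel_left₀ _ h0]

theorem kite' (hc : 0 < c) (G : GLay S c idx a b Len) {x : T} {q : ℂ}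
    (hq : Tendsto (fun n => AA S.p a b n (S.p n x)) atTop (𝓝 q)) (n : ℕ) :
    ∃ z ∈ KK N, q = AA S.p a b n (S.p n x) +
      BB S.p b n (S.p n x) * (a n (S.p (n + 1) x) + b n (S.p (n + 1) x) * z) := by
  obtain ⟨z, hz, e⟩ := kite hc G hq (n + 1)
  refine ⟨z, hz, ?_⟩
  rw [e, AA_succ, BB_succ]
  ring

theorem c_le (G : GLay S c idx a b Len) : c ≤ 1 / 2 :=
  (G.lo 0 ⊥ (Or.inl rfl)).trans (G.hi 0 ⊥ (Or.inl rfl))

theorem same (hN : 1 ≤ N) (hc : 0 < c) (G : GLay S c idx a b Len) {x y : T} {q r : ℂ}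
    (hq : Tendsto (fun n => AA S.p a b n (S.p n x)) atTop (𝓝 q))
    (hr : Tendsto (fun n => AA S.p a b n (S.p n y)) atTop (𝓝 r)) {n : ℕ} (e : S.p n x = S.p n y)
    (h1 : S.p (n + 1) x ≠ S.p (n + 1) y) (h2 : ¬ Adj S (n + 1) (S.p (n + 1) x) (S.p (n + 1) y)) :
    c ^ 2 / 7 * ‖BB S.p b n (S.p n x)‖ ≤ ‖q - r‖ ∧
      ‖q - r‖ ≤ (4 + 4 / c) * ‖BB S.p b n (S.p n x)‖ := by
  obtain ⟨z, hz, e1⟩ := kite' hc G hq n
  obtain ⟨z', hz', e2⟩ := kite' hc G hr n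
  have k1 := G.sep n _ _ (S.p_mem (n + 1) x) (S.p_mem (n + 1) y) (by rw [S.pp, S.pp, e]) h1 h2
    z hz z' hz'
  have k2 := KK_norm hN (G.sub n _ (S.p_mem (n + 1) x) z hz)
  have k3 := KK_norm hN (G.sub n _ (S.p_mem (n + 1) y) z' hz')
  have k4 := norm_sub_le (a n (S.p (n + 1) x) + b n (S.p (n + 1) x) * z)
    (a n (S.p (n + 1) y) + b n (S.p (n + 1) y) * z')
  have k5 := c_le G
  have k6 : 0 < 4 / c := by positivity
  rw [e1, e2, ← e, add_sub_add_left_eq_sub, ← mul_sub, norm_mul, mul_comm ‖BB _ _ _ _‖]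
  exact ⟨mul_le_mul_of_nonneg_right (by nlinarith) (norm_nonneg _),
    mul_le_mul_of_nonneg_right (by linarith) (norm_nonneg _)⟩

theorem adj (hN : 1 ≤ N) (hc : 0 < c) (G : GLay S c idx a b Len) (hA : AdjInv S c idx a b)
    {x y : T} {q r : ℂ} (hq : Tendsto (fun n => AA S.p a b n (S.p n x)) atTop (𝓝 q))
    (hr : Tendsto (fun n => AA S.p a b n (S.p n y)) atTop (𝓝 r)) {n : ℕ} (hw : S.p n y ∈ S.V n)
    (e : S.pv n (S.p n y) = S.p n x) (h2 : ¬ Adj S (n + 1) (S.p (n + 1) x) (S.p (n + 1) y)) :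
    (c ^ 2 / 7 * ‖BB S.p b n (S.p n x)‖ ≤ ‖q - r‖ ∧
      ‖q - r‖ ≤ (4 + 4 / c) * ‖BB S.p b n (S.p n x)‖) ∧
    (c ^ 2 / 7 * ‖BB S.p b n (S.p n y)‖ ≤ ‖q - r‖ ∧
      ‖q - r‖ ≤ (4 + 4 / c) * ‖BB S.p b n (S.p n y)‖) := by
  obtain ⟨z, hz, e1⟩ := kite' hc G hq n
  obtain ⟨z', hz', e2⟩ := kite' hc G hr n
  obtain ⟨a1, a2, a3, a4⟩ := hA n _ hw
  rw [e] at a1 a2 a3 a4
  have hk := G.sub n _ (S.p_mem (n + 1) x) z hz
  have hk' := G.sub n _ (S.p_mem (n + 1) y) z' hz'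
  have far : c ≤ ‖a n (S.p (n + 1) x) + b n (S.p (n + 1) x) * z - PP N (idx n (S.p n y))‖ ∨
      c ≤ ‖a n (S.p (n + 1) y) + b n (S.p (n + 1) y) * z'‖ := by
    by_cases h : S.p (n + 1) x = S.pv (n + 1) (S.p n y)
    · have h3 : S.p (n + 1) y ∈ S.V (n + 1) := (S.p_mem (n + 1) y).resolve_left fun h0 =>
        S.ne_bot hw (le_bot_iff.1 (h0 ▸ S.p_le_p n y))
      refine Or.inr (G.far0 n _ hw _ h3 (S.pp n y) (fun h4 => h2 (Or.inl ⟨h3, ?_⟩)) z' hz')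
      rw [h4, h]
    · exact Or.inl (G.farO n _ hw _ (S.p_mem (n + 1) x) (by rw [S.pp, e]) h z hz)
  generalize a n (S.p (n + 1) x) + b n (S.p (n + 1) x) * z = k at e1 hk far
  generalize a n (S.p (n + 1) y) + b n (S.p (n + 1) y) * z' = k' at e2 hk' far
  have hi := G.idx_lt n _ hw
  have b0 := (BB_bd hc G x n).1
  have hP := PP_norm hN hi.le
  have hp := KK_port hk hi
  generalize PP N (idx n (S.p n y)) = P at a1 far hP hp
  generalize BB S.p b n (S.p n x) = β at e1 a1 a2 a3 a4 b0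
  generalize BB S.p b n (S.p n y) = β' at e2 a2 a3 a4
  have h0 : β ≠ 0 := norm_pos_iff.1 b0
  have hu := a2.mul_KK hN hk'
  obtain ⟨c1, c2⟩ := cs (e := β' / β * k') hp (by have := hu.im0; unfold UU at hu; linarith)
  have e3 : q - r = β * (k - P - β' / β * k') := by
    rw [e1, e2, a1]
    field_simp
    ring
  have e4 : ‖q - r‖ = ‖β‖ * ‖k - P - β' / β * k'‖ := by rw [e3, norm_mul]
  have e5 : ‖β‖ * ‖β' / β * k'‖ = ‖β'‖ * ‖k'‖ := by
    rw [← norm_mul, ← norm_mul, ← mul_assoc, mul_div_cancel₀ _ h0]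
  have k1 := KK_norm hN hk
  have k2 := KK_norm hN hk'
  have k5 := c_le G
  have b1 := norm_nonneg β'
  have up : ‖q - r‖ ≤ 4 * ‖β‖ + 2 * ‖β'‖ := by
    have t1 := norm_sub_le (k - P) (β' / β * k')
    have t2 := norm_sub_le k P
    have t3 : ‖k - P - β' / β * k'‖ ≤ 4 + ‖β' / β * k'‖ := by linarith
    have t4 := mul_le_mul_of_nonneg_left t3 b0.le
    have t5 := mul_le_mul_of_nonneg_left k2 b1
    linarith
  have u1 : ‖β'‖ ≤ 1 / c * ‖β‖ := by
    rw [one_div, le_inv_mul_iff₀ hc]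
    exact a4
  have u2 : ‖β‖ ≤ 1 / c * ‖β'‖ := by
    rw [one_div, le_inv_mul_iff₀ hc]
    exact a3
  have u3 : 0 ≤ 1 / c * ‖β‖ := by positivity
  have u4 : 4 / c = 4 * (1 / c) := by ring
  have v1 := mul_le_mul_of_nonneg_left a3 hc.le
  have v2 := mul_le_mul_of_nonneg_left a4 hc.le
  have v3 : c * (c * ‖β‖) ≤ c * ‖β‖ := mul_le_of_le_one_left (by positivity) (by linarith)
  have v4 : c * (c * ‖β'‖) ≤ c * ‖β'‖ := mul_le_of_le_one_left (by positivity) (by linarith)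
  have v5 : 0 ≤ c * ‖β'‖ := by positivity
  have lo : c * ‖β‖ / 7 ≤ ‖q - r‖ ∨ c * ‖β'‖ / 7 ≤ ‖q - r‖ := by
    rcases far with f | f
    · have t1 := mul_le_mul_of_nonneg_left c2 b0.le
      have t2 := mul_le_mul_of_nonneg_left f b0.le
      exact Or.inl (by linarith)
    · have t1 := mul_le_mul_of_nonneg_left c1 b0.le
      have t2 := mul_le_mul_of_nonneg_left f b1
      exact Or.inr (by linarith)
  rw [u4]
  rcases lo with t | t <;> exact ⟨⟨by linarith, by linarith⟩, by linarith, by linarith⟩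

theorem adj_symm {n : ℕ} {u v : T} (h : Adj S n u v) : Adj S n v u := Or.symm h

end lay

section met
variable {T : Type*} [MetricSpace T] [SemilatticeInf T] [OrderBot T] {D : T → T → ℝ}
  {K g d D0 : ℝ} {N M : ℕ}

theorem near (h : TA T D K) (S : VS T D g d D0 N M) {n : ℕ} {x y : T}
    (H : S.p n x = S.p n y ∨ Adj S n (S.p n x) (S.p n y)) : D x y ≤ 12 * (D0 * d ^ n) := by
  have h1 := S.size n x
  have h2 := S.size n y
  have h3 := h.tri x (S.p n x) y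
  have h4 := h.tri (S.p n x) (S.p n y) y
  have h5 := h.symm x (S.p n x)
  have h6 := h.nonneg (S.p n x) x
  rcases H with e | ⟨hw, e⟩ | ⟨hw, e⟩
  · rw [← e] at h2
    linarith
  · have := S.sizev n _ (S.ne_bot hw)
    rw [e] at this
    linarith
  · have := S.sizev n _ (S.ne_bot hw)
    rw [e, h.symm] at this
    linarith

theorem far1 (h : TA T D K) (S : VS T D g d D0 N M) {n : ℕ} {x y : T}
    (h2 : ¬ Adj S n (S.p n x) (S.p n y)) (hx : S.p n x ≤ x ⊓ y) (hy : ¬ S.p n y ≤ x ⊓ y) :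
    g * (D0 * d ^ n) ≤ D x y := by
  have m1 : x ⊓ y ≤ S.p n y := (h.chain _ _ y inf_le_right (S.p_le n y)).resolve_right hy
  have n0 : S.p n y ≠ ⊥ := fun e => hy (e ▸ bot_le)
  have hw : S.p n y ∈ S.V n := (S.p_mem n y).resolve_left n0
  have l1 := S.pv_lt n _ n0
  have l2 : S.p n x ≤ S.pv n (S.p n y) :=
    S.pv_max' (S.p_mem n x) (lt_of_le_of_ne (hx.trans m1) fun e => hy (e ▸ hx))
  have l3 : ¬ S.pv n (S.p n y) ≤ x ⊓ y := fun e =>
    h2 (Or.inl ⟨hw, le_antisymm (S.p_max' (S.pv_mem n _) (e.trans inf_le_left)) l2⟩)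
  have l4 : S.pv n (S.p n y) ≤ y := l1.le.trans (S.p_le n y)
  have m2 : x ⊓ y ≤ S.pv n (S.p n y) := (h.chain _ _ y inf_le_right l4).resolve_right l3
  have hv : S.pv n (S.p n y) ∈ S.V n := (S.pv_mem n _).resolve_left fun e => l3 (e ▸ bot_le)
  exact (S.sep n _ hv _ hw l1.ne).trans (h.mono x y _ _ m2 (Or.inr l4) m1 (Or.inr (S.p_le n y)))

theorem far (h : TA T D K) (S : VS T D g d D0 N M) {n : ℕ} {x y : T} (h1 : S.p n x ≠ S.p n y)
    (h2 : ¬ Adj S n (S.p n x) (S.p n y)) : g * (D0 * d ^ n) ≤ D x y := by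
  by_cases hx : S.p n x ≤ x ⊓ y <;> by_cases hy : S.p n y ≤ x ⊓ y
  · exact absurd (le_antisymm (S.p_max' (S.p_mem n x) (hx.trans inf_le_right))
      (S.p_max' (S.p_mem n y) (hy.trans inf_le_left))) h1
  · exact far1 h S h2 hx hy
  · rw [h.symm]
    rw [inf_comm] at hx hy
    exact far1 h S (fun e => h2 (adj_symm e)) hy hx
  · exact (S.sep n _ ((S.p_mem n x).resolve_left fun e => hx (e ▸ bot_le)) _
      ((S.p_mem n y).resolve_left fun e => hy (e ▸ bot_le)) h1).trans (h.mono x y _ _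
        ((h.chain _ _ x inf_le_left (S.p_le n x)).resolve_right hx) (Or.inl (S.p_le n x))
        ((h.chain _ _ y inf_le_right (S.p_le n y)).resolve_right hy) (Or.inr (S.p_le n y)))

end met

end EstA

theorem est {T : Type*} [MetricSpace T] [SemilatticeInf T] [OrderBot T]
    {D : T → T → ℝ} {K g d D0 c : ℝ} {N M : ℕ} (h : TA T D K) (S : VS T D g d D0 N M)
    (hN : 1 ≤ N) (_hd : 0 < d) (hd1 : d < 1) (hD0 : 0 < D0) (hc : 0 < c)
    {idx : ℕ → T → ℕ} {a b : ℕ → T → ℂ} {Len : ℕ → T → T → ℝ}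
    (G : GLay S c idx a b Len) (hA : AdjInv S c idx a b) :
    ∃ F : T → ℂ, (∀ x, Tendsto (fun n => AA S.p a b n (S.p n x)) atTop (𝓝 (F x))) ∧
      (∀ n x, c * ‖BB S.p b n (S.p n x)‖ ≤ ‖BB S.p b (n + 1) (S.p (n + 1) x)‖ ∧
        ‖BB S.p b (n + 1) (S.p (n + 1) x)‖ ≤ ‖BB S.p b n (S.p n x)‖ / 2) ∧
      ∃ c' C : ℝ, 0 < c' ∧ Est S b F c' C := by
  choose F hF using EstA.lim hN hc G
  refine ⟨F, hF, EstA.ratio G, c ^ 2 / 7, 4 + 4 / c, by positivity, fun x y hxy => ?_⟩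
  obtain ⟨m, hm⟩ := exists_pow_lt_of_lt_one (div_pos (h.dpos hxy) (by positivity : 0 < 12 * D0)) hd1
  rw [lt_div_iff₀ (by positivity)] at hm
  obtain ⟨n, h1, h2⟩ := Nat.exists_not_and_succ_of_not_zero_of_exists
    (p := fun n => ¬ (S.p n x = S.p n y ∨ Adj S n (S.p n x) (S.p n y)))
    (not_not.2 (Or.inl (by rw [S.p_zero, S.p_zero])))
    ⟨m, fun H => by linarith [EstA.near h S H]⟩
  rw [not_not] at h1
  rw [not_or] at h2
  refine ⟨n, h1, EstA.far h S h2.1 h2.2, EstA.near h S h1, ?_⟩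
  rcases h1 with e | ⟨hw, e⟩ | ⟨hw, e⟩
  · exact EstA.same hN hc G (hF x) (hF y) e h2.1 h2.2
  · exact (EstA.adj hN hc G hA (hF x) (hF y) hw e h2.2).1
  · rw [norm_sub_rev]
    exact (EstA.adj hN hc G hA (hF y) (hF x) hw e fun H => h2.2 (EstA.adj_symm H)).2

end QT

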