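import Pool.Agent.Lib.MP_b50536_gt.QT.L0

/-! The global layout and the invariant of adjacent tiles. -/

namespace QT
open Set Metric Filter Topology
open scoped NNReal

namespace Glue

theorem sect_left {x y z : ℂ} (h : Sect (y / z)) : Sect (x * y / (x * z)) := by
  by_cases hx : x = 0
  · simp [hx, Sect]
  · rwa [mul_div_mul_left _ _ hx]

theorem ite_iff {P Q : Prop} {i : Decidable P} {j : Decidable Q} {x y : ℝ} (h : P ↔ Q) :
    @ite ℝ P i x y = @ite ℝ Q j x y := by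
  by_cases hP : P
  · rw [if_pos hP, if_pos (h.1 hP)]
  · rw [if_neg hP, if_neg (mt h.2 hP)]

theorem lenC {ι : Type*} [PartialOrder ι] {N M : ℕ} {t : LT ι N M} {c : ℝ} {A b : ι → ℂ}
    {Len : ι → ℝ} (h : LO t c A b Len) : ∀ u ∈ t.C, Len u ≤ 2 * t.dep u := by
  refine t.ind (by simp [h.len0]) ?_
  intro u hu h0 ih
  have h1 := h.hi _ (t.prev_mem u (Or.inl hu) h0)
  have h2 := norm_nonneg (b (t.prev u))
  rw [h.lenS u (Or.inl hu) h0, t.dep_succ u (Or.inl hu) h0]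
  push_cast
  split_ifs <;> linarith

variable {T : Type*} [SemilatticeInf T] [OrderBot T] {D : T → T → ℝ} {g d D0 c : ℝ} {N M : ℕ}

theorem adj {S : VS T D g d D0 N M} (hc : 0 < c) {idx : ℕ → T → ℕ} {a b : ℕ → T → ℂ}
    {Len : ℕ → T → T → ℝ} (G : GLay S c idx a b Len) : AdjInv S c idx a b := by
  intro n
  induction n with
  | zero => intro w hw; simp [S.v0] at hw
  | succ n ih =>
    intro w hw
    by_cases hn : w ∈ S.V n
    · obtain ⟨o1, o2, o3, o4, o5, o6⟩ := G.old n w hn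
      obtain ⟨i1, i2, i3, i4⟩ := ih w hn
      have h0 := norm_nonneg (rho N : ℂ)
      simp only [AA, BB, o1, o2, o3, o4, o5, norm_mul]
      refine ⟨?_, ?_, ?_, ?_⟩
      · rw [i1, ← o6]; ring
      · rw [mul_comm (BB S.p b n w), mul_comm (BB S.p b n (S.pv n w))]
        exact sect_left i2
      · rw [← mul_assoc]; exact mul_le_mul_of_nonneg_right i3 h0
      · rw [← mul_assoc]; exact mul_le_mul_of_nonneg_right i4 h0
    · obtain ⟨o1, o2, o3⟩ := G.new n w hw hn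
      have h0 := norm_nonneg (BB S.p b n (S.p n w))
      have l1 := G.lo n w (Or.inr hw)
      have l2 := G.lo n _ (S.pv_mem (n + 1) w)
      have u1 := G.hi n w (Or.inr hw)
      have u2 := G.hi n _ (S.pv_mem (n + 1) w)
      simp only [AA, BB, o1, norm_mul]
      refine ⟨?_, sect_left o3, ?_, ?_⟩
      · rw [o2]; ring
      · rw [mul_left_comm]
        exact mul_le_mul_of_nonneg_left (by nlinarith) h0
      · rw [mul_left_comm]
        exact mul_le_mul_of_nonneg_left (by nlinarith) h0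

theorem memC {S : VS T D g d D0 N M} {idx : ℕ → T → ℕ} {n : ℕ} {v u : T} {t : LT T N M}
    (h : IsTile S idx n v t) : u ∈ t.C ↔ (u = ⊥ ∨ u ∈ S.V (n + 1)) ∧ S.p n u = v := by
  rw [h.1]; rfl

theorem memO {S : VS T D g d D0 N M} {idx : ℕ → T → ℕ} {n : ℕ} {v w : T} {t : LT T N M}
    (h : IsTile S idx n v t) : w ∈ t.O ↔ w ∈ S.V n ∧ S.pv n w = v := by
  rw [h.2.1]; rfl

theorem new_ne (S : VS T D g d D0 N M) {n : ℕ} {u : T} (hu : u ∈ S.V (n + 1)) (hn : u ∉ S.V n) :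
    u ≠ S.p n u := fun e => by
  rcases S.p_mem n u with h | h
  · exact S.ne_bot hu (e.trans h)
  · exact hn (e ▸ h)

end Glue

open Glue in
theorem glue {T : Type*} [SemilatticeInf T] [OrderBot T] {D : T → T → ℝ} {g d D0 c : ℝ} {N M : ℕ}
    (S : VS T D g d D0 N M) (hc : 0 < c) (idx : ℕ → T → ℕ)
    (ht : ∀ n v, (v = ⊥ ∨ v ∈ S.V n) → ∃ t : LT T N M, IsTile S idx n v t)
    (hl : ∀ t : LT T N M, ∃ (A b : T → ℂ) (Len : T → ℝ), LO t c A b Len) :
    ∃ (a b : ℕ → T → ℂ) (Len : ℕ → T → T → ℝ), GLay S c idx a b Len ∧ AdjInv S c idx a b := by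
  have h1 : ∀ n v, ∃ t : LT T N M, (v = ⊥ ∨ v ∈ S.V n) → IsTile S idx n v t := by
    intro n v
    by_cases h : v = ⊥ ∨ v ∈ S.V n
    · obtain ⟨t, h'⟩ := ht n v h
      exact ⟨t, fun _ => h'⟩
    · obtain ⟨t, -⟩ := ht n ⊥ (Or.inl rfl)
      exact ⟨t, fun h' => absurd h' h⟩
  choose τ hτ using h1
  choose A B L hO using hl
  have hp : ∀ n u, IsTile S idx n (S.p n u) (τ n (S.p n u)) := fun n u => hτ n _ (S.p_mem n u)
  have hv : ∀ n w, IsTile S idx n (S.pv n w) (τ n (S.pv n w)) := fun n w => hτ n _ (S.pv_mem n w)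
  have hC : ∀ n u, (u = ⊥ ∨ u ∈ S.V (n + 1)) → u ∈ (τ n (S.p n u)).C :=
    fun n u hu => (memC (hp n u)).2 ⟨hu, rfl⟩
  have hW : ∀ n, ∀ w ∈ S.V n, w ∈ (τ n (S.pv n w)).O := fun n w hw => (memO (hv n w)).2 ⟨hw, rfl⟩
  have hN : ∀ n, ∀ u ∈ S.V (n + 1), u ∉ S.V n → u ≠ (τ n (S.p n u)).root := fun n u hu hn => by
    rw [(hp n u).2.2.1]; exact new_ne S hu hn
  have pN : ∀ n, ∀ u ∈ S.V (n + 1), u ∉ S.V n → S.p n (S.pv (n + 1) u) = S.p n u := by
    intro n u hu hn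
    have := (τ n (S.p n u)).prev_mem u (Or.inl (hC n u (Or.inr hu))) (hN n u hu hn)
    rw [(hp n u).2.2.2.2.1] at this
    exact ((memC (hp n u)).1 this).2
  have pO : ∀ n, ∀ w ∈ S.V n, S.p n (S.pv (n + 1) w) = S.pv n w := by
    intro n w hw
    have := (τ n (S.pv n w)).prev_mem w (Or.inr (hW n w hw)) (LT.O_ne_root _ (hW n w hw))
    rw [(hv n w).2.2.2.2.1] at this
    exact ((memC (hv n w)).1 this).2
  suffices G : GLay S c idx (fun n u => A (τ n (S.p n u)) u) (fun n u => B (τ n (S.p n u)) u)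
      (fun n v u => L (τ n v) u) from ⟨_, _, _, G, adj hc G⟩
  refine ⟨?_, ?_, ?_, ?_, ?_, ?_, ?_, ?_, ?_, ?_, ?_, ?_, ?_⟩
  · intro n w hw
    have := (τ n (S.pv n w)).Idx_lt w (hW n w hw)
    rwa [(hv n w).2.2.2.2.2.2] at this
  · exact fun n u hu => (hO _).sub u (hC n u hu)
  · intro n u hu hn
    have l1 := (hO _).link u (hC n u (Or.inr hu)) (hN n u hu hn)
    have l2 := (hO _).sect u (hC n u (Or.inr hu)) (hN n u hu hn)
    rw [(hp n u).2.2.2.2.1] at l1 l2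
    rw [(hp n u).2.2.2.2.2.1] at l1
    simp only [pN n u hu hn]
    exact ⟨trivial, l1, l2⟩
  · intro n w hw
    have t1 := hτ n w (Or.inr hw)
    have l1 := (hO _).apex (t1.2.2.2.1.2 (S.ne_bot hw))
    have l2 := (hO _).tip w (hW n w hw)
    have l3 := (hO _).port w (hW n w hw)
    rw [t1.2.2.1] at l1
    rw [l2] at l3
    rw [(hv n w).2.2.2.2.1] at l2 l3
    rw [(hv n w).2.2.2.2.2.1, (hv n w).2.2.2.2.2.2] at l3
    simp only [pO n w hw, S.p_self (Or.inr hw)]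
    exact ⟨trivial, trivial, l1.1, l1.2, l2, l3⟩
  · exact fun n u hu => (hO _).lo u (hC n u hu)
  · exact fun n u hu => (hO _).hi u (hC n u hu)
  · intro n u u' hu hu' e hne hA
    have hb : ∀ y, (y = ⊥ ∨ y ∈ S.V (n + 1)) → S.p n u = S.p n y →
        y ≠ (τ n (S.p n u)).root → y ∈ S.V (n + 1) := fun y hy e' h =>
      hy.resolve_left fun e'' => h (by rw [(hp n u).2.2.1, e', e'', S.p_bot])
    simp only [← e]
    refine (hO _).sep u (hC n u hu) u' ((memC (hp n u)).2 ⟨hu', e.symm⟩) hne ?_ ?_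
    · rw [(hp n u).2.2.2.2.1]
      exact fun h => hA (Or.inl ⟨hb u' hu' e h.1, h.2⟩)
    · rw [(hp n u).2.2.2.2.1]
      exact fun h => hA (Or.inr ⟨hb u hu rfl h.1, h.2⟩)
  · intro n w hw u hu e hne
    have l1 := (hO _).farO w (hW n w hw) u ((memC (hv n w)).2 ⟨hu, e⟩)
    rw [(hv n w).2.2.2.2.1, (hv n w).2.2.2.2.2.2] at l1
    simp only [e]
    exact l1 hne
  · intro n w hw u hu e hne
    have t1 := hτ n w (Or.inr hw)
    have l1 := (hO _).far0 (t1.2.2.2.1.2 (S.ne_bot hw)) u ((memC t1).2 ⟨Or.inr hu, e⟩)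
    rw [t1.2.2.1] at l1
    simp only [e]
    exact l1 hne
  · intro n v hv'
    have l1 := (hO (τ n v)).len0
    rwa [(hτ n v hv').2.2.1] at l1
  · intro n u hu
    have t1 := hp n (S.pv (n + 1) u)
    have hm : u ∈ (τ n (S.p n (S.pv (n + 1) u))).C ∪ (τ n (S.p n (S.pv (n + 1) u))).O ∧
        u ≠ (τ n (S.p n (S.pv (n + 1) u))).root := by
      by_cases hn : u ∈ S.V n
      · rw [pO n u hn]
        exact ⟨Or.inr (hW n u hn), LT.O_ne_root _ (hW n u hn)⟩
      · rw [pN n u hu hn]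
        exact ⟨Or.inl (hC n u (Or.inr hu)), hN n u hu hn⟩
    have l1 := (hO _).lenS u hm.1 hm.2
    have e : ((τ n (S.p n (S.pv (n + 1) u))).md ∨ S.pv (n + 1) u ≠ S.p n (S.pv (n + 1) u)) ↔
        S.pv (n + 1) u ≠ ⊥ := by
      rw [t1.2.2.2.1]
      constructor
      · rintro (h | h) e'
        · exact h (by rw [e', S.p_bot])
        · exact h (by rw [e', S.p_bot])
      · intro h
        by_cases h' : S.p n (S.pv (n + 1) u) = ⊥
        · exact Or.inr (by rw [h']; exact h)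
        · exact Or.inl h'
    rw [t1.2.2.2.2.1, t1.2.2.2.2.2.1, t1.2.2.1] at l1
    unfold wt
    rw [l1]
    congr 2
    exact ite_iff (and_congr_right fun _ => e)
  · intro n w hw
    have l1 := (hO _).lenO w (hW n w hw)
    rw [(hv n w).2.2.2.2.2.2] at l1
    unfold wt
    refine l1.trans (le_of_eq ?_)
    exact ite_iff (and_congr_right fun _ => (hv n w).2.2.2.1)
  · intro n u hu
    have l1 := lenC (hO _) u (hC n u hu)
    have l2 : ((τ n (S.p n u)).dep u : ℝ) ≤ M := by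
      exact_mod_cast ((τ n (S.p n u)).dep_lt u (hC n u hu)).le
    linarith

end QT
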