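import Pool.Agent.Lib.MP_b50536_gt.QT.L0

/-! Points drawn above the first tile of a lane stay near the lane. -/

namespace QT
open Set Metric Filter Topology
open scoped NNReal

namespace HullF

lemma needle {τ E a y k1 k2 : ℝ} (h0 : 0 < τ) (h1 : τ ≤ 1 / 200) (e0 : 0 ≤ E) (e1 : E ≤ τ / 4)
    (ha : |a| ≤ 3 / 2 * τ ^ 2) (y0 : 2 * τ - 3 / 2 * τ ^ 2 ≤ y) (y1 : y ≤ 2 * τ)
    (hk : |k1| ≤ τ * k2) (k0 : 0 ≤ k2) (k3 : k2 ≤ 1 + τ / 3) :
    0 ≤ y * k2 - (E - a) * k1 ∧
    |y * k1 + (E - a) * k2 - E * min ((y * k2 - (E - a) * k1) / (2 * τ)) 1| ≤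
      50 * τ ^ 2 / 4 * min ((y * k2 - (E - a) * k1) / (2 * τ)) 1 := by
  have t2 : τ ^ 2 ≤ τ / 200 := by nlinarith
  have q0 : 0 ≤ τ * k2 := by positivity
  have q1 : 0 ≤ τ ^ 2 * k2 := by positivity
  have hx : |E - a| ≤ τ / 2 := by
    rw [abs_le] at ha ⊢; constructor <;> linarith
  have b1 : |(E - a) * k1| ≤ τ ^ 2 * k2 / 2 := by
    rw [abs_mul]
    exact (mul_le_mul hx hk (abs_nonneg _) (by positivity)).trans_eq (by ring)
  have b2 : (2 * τ - 3 / 2 * τ ^ 2) * k2 ≤ y * k2 := mul_le_mul_of_nonneg_right y0 k0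
  have b3 : y * k2 ≤ 2 * τ * k2 := mul_le_mul_of_nonneg_right y1 k0
  have b4 : τ ^ 2 * k2 ≤ τ / 200 * k2 := mul_le_mul_of_nonneg_right t2 k0
  rw [abs_le] at b1
  have l1 : k2 - τ * k2 ≤ (y * k2 - (E - a) * k1) / (2 * τ) := by
    rw [le_div_iff₀ (by positivity)]; nlinarith
  have l2 : (y * k2 - (E - a) * k1) / (2 * τ) ≤ k2 + τ * k2 := by
    rw [div_le_iff₀ (by positivity)]; nlinarith
  refine ⟨by nlinarith, ?_⟩
  generalize (y * k2 - (E - a) * k1) / (2 * τ) = s at l1 l2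
  have p1 : k2 - τ * k2 ≤ min s 1 := le_min l1 (by nlinarith)
  have p2 : min s 1 ≤ k2 + τ * k2 := (min_le_left _ _).trans l2
  generalize min s 1 = ψ at p1 p2
  have c1 : |y * k1| ≤ 2 * τ ^ 2 * k2 := by
    rw [abs_mul, abs_of_nonneg (show 0 ≤ y by linarith)]
    exact (mul_le_mul y1 hk (abs_nonneg _) (by positivity)).trans_eq (by ring)
  have c2 : |a * k2| ≤ 3 / 2 * τ ^ 2 * k2 := by
    rw [abs_mul, abs_of_nonneg k0]; exact mul_le_mul_of_nonneg_right ha k0
  have c3 : |E * (k2 - ψ)| ≤ τ ^ 2 * k2 / 4 := by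
    rw [abs_mul, abs_of_nonneg e0]
    exact (mul_le_mul e1 (abs_le.2 ⟨by linarith, by linarith⟩ : |k2 - ψ| ≤ τ * k2) (abs_nonneg _)
      (by positivity)).trans_eq (by ring)
  have c4 : τ ^ 2 * (k2 / 2) ≤ τ ^ 2 * ψ :=
    mul_le_mul_of_nonneg_left (by nlinarith) (by positivity)
  rw [abs_le] at c1 c2 c3 ⊢
  constructor <;> nlinarith

lemma far {τ E a y p1 p2 : ℝ} (h0 : 0 < τ) (h1 : τ ≤ 1 / 200) (e0 : 0 ≤ E) (e1 : E ≤ τ / 4)
    (ha : |a| ≤ 3 / 2 * τ ^ 2) (y0 : 2 * τ - 3 / 2 * τ ^ 2 ≤ y) (hp : |p1 - E| ≤ 5 * τ ^ 2)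
    (hq : -τ ^ 2 ≤ p2) : 0 ≤ p2 + y ∧ |p1 - a - E * min ((p2 + y) / (2 * τ)) 1| ≤
      50 * τ ^ 2 / 4 * min ((p2 + y) / (2 * τ)) 1 := by
  have t2 : τ ^ 2 ≤ τ / 200 := by nlinarith
  refine ⟨by linarith, ?_⟩
  have p1' : 1 - 2 * τ ≤ min ((p2 + y) / (2 * τ)) 1 :=
    le_min (by rw [le_div_iff₀ (by positivity)]; nlinarith) (by linarith)
  have p2' : min ((p2 + y) / (2 * τ)) 1 ≤ 1 := min_le_right _ _
  generalize min ((p2 + y) / (2 * τ)) 1 = ψ at p1' p2'
  have c3 : E * (1 - ψ) ≤ τ / 4 * (2 * τ) :=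
    mul_le_mul e1 (by linarith) (by linarith) (by positivity)
  have c4 : 0 ≤ E * (1 - ψ) := mul_nonneg e0 (by linarith)
  have c5 : τ ^ 2 * (9 / 10) ≤ τ ^ 2 * ψ := mul_le_mul_of_nonneg_left (by linarith) (by positivity)
  rw [abs_le] at ha hp ⊢
  constructor <;> nlinarith

end HullF

variable {ι : Type*} [PartialOrder ι] {N M : ℕ} {t : LT ι N M} {A b : ι → ℂ}

open HullF in
theorem hull (hN : 1 ≤ N) (R : RD t A b) (I : LA t A b) (J : LC t A b) : Hull t A b := by
  intro W hW z w H k hk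
  obtain ⟨hz, hd, hzW⟩ := id H
  have h0 := th_pos hN
  have h1 := th_le hN
  have hNt := N_th hN
  have e0 := j_et0 hN (t.Idx w)
  have e1 := j_et hN (t.Idx_lt w hz.2.1).le
  obtain ⟨-, x1, x2, -⟩ := I.exit z w hz hd
  have ha : |(A z).re| ≤ 3 / 2 * th N ^ 2 := by
    have := (Complex.abs_re_le_norm _).trans x1
    simp only [Complex.sub_re, sub_zero, ss] at this
    linarith
  have y0 : 2 * th N - 3 / 2 * th N ^ 2 ≤ hQ N - (A z).im := by
    have := (le_abs_self _).trans ((Complex.abs_im_le_norm _).trans x1)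
    simp only [Complex.sub_im, ss, hO, hQ] at this ⊢
    linarith
  have y1 : hQ N - (A z).im ≤ 2 * th N := by unfold hO at x2; unfold hQ; linarith
  have t2 : th N ^ 2 ≤ th N / 200 := by nlinarith
  have k0 := KK_im0 hN hk
  have k3 := KK_im hN hk
  have bz : b z = ⟨hQ N - (A z).im, -(t.Idx w * et N - (A z).re)⟩ := by
    rw [R.bN z w hz hd, Complex.div_I]
    apply Complex.ext <;> simp [QQ]
  have fin : |(A W + b W * k).re - t.Idx w * et N| ≤ 5 * th N ^ 2 →
      hQ N - th N ^ 2 ≤ (A W + b W * k).im → 0 ≤ (A W + b W * k - A z).im ∧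
      |(A W + b W * k - A z).re -
          t.Idx w * et N * min ((A W + b W * k - A z).im / (2 * th N)) 1| ≤
        et N / 4 * min ((A W + b W * k - A z).im / (2 * th N)) 1 := by
    intro a1 a2
    have := far h0 h1 e0 e1 ha y0 a1 (p2 := (A W + b W * k).im - hQ N) (by linarith)
    rw [show (A W + b W * k).im - hQ N + (hQ N - (A z).im) = (A W + b W * k - A z).im by
      rw [Complex.sub_im]; ring] at this
    rw [Complex.sub_re]
    exact this
  have lane : ∀ Y, Ln t Y w → z ≤ Y → Y ≠ z → (A Y).re = t.Idx w * et N ∧ hQ N ≤ (A Y).im ∧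
      ∃ β : ℝ, 0 ≤ β ∧ β ≤ 2 * th N ∧ b Y = (β : ℂ) := by
    intro Y hY l n
    have d1 := t.dep_lt_dep hz.1 Y (Or.inl hY.1) (lt_of_le_of_ne l n.symm)
    have d2 := hY.dep.2
    have la0 : 0 ≤ lam N := by unfold lam; linarith
    rw [I.lane Y w hY (by omega)]
    refine ⟨rfl, ?_, ?_⟩
    · have d3 : (t.dep w : ℝ) - t.dep Y - 1 ≤ 100 * N := by
        have : t.dep w ≤ t.dep Y + 1 + 100 * N := by unfold LL at hd; omega
        have : (t.dep w : ℝ) ≤ t.dep Y + 1 + 100 * N := by exact_mod_cast this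
        linarith
      have d4 := mul_le_mul_of_nonneg_right d3 la0
      have d5 : 100 * N * lam N = 1 / 2 - 6 * th N := by
        unfold lam
        linear_combination (100 - 1200 * th N) * hNt
      show hQ N ≤ 1 - rho N - ((t.dep w : ℝ) - t.dep Y - 1) * lam N
      unfold hQ rho
      linarith
    · by_cases c : t.dep w = t.dep Y + 1
      · exact ⟨rho N, by unfold rho; linarith, le_rfl, R.bT Y w hY c⟩
      · exact ⟨lam N, la0, by unfold lam; nlinarith, R.bL Y w hY (by omega) (by omega)⟩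
  obtain ⟨Y, hY, l1, -, rfl | ⟨Z, hZ, z0, pZ, -, -, hn⟩⟩ := J.shape W hW z w H
  · by_cases c : W = z
    · subst c
      have := needle h0 h1 e0 e1 ha y0 y1 hk.1 k0 k3
      rw [add_sub_cancel_left, bz]
      simp only [Complex.mul_re, Complex.mul_im, neg_mul, sub_neg_eq_add, ← sub_eq_add_neg]
      exact this
    · obtain ⟨a1, a2, β, b0, b1, b2⟩ := lane W hY l1 c
      refine fin ?_ ?_
      · simp only [b2, Complex.add_re, Complex.re_ofReal_mul, a1, add_sub_cancel_left, abs_mul,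
          abs_of_nonneg b0]
        have : |k.re| ≤ th N * 2 := hk.1.trans (mul_le_mul_of_nonneg_left (by linarith) h0.le)
        exact (mul_le_mul b1 this (abs_nonneg _) (by linarith)).trans (by nlinarith)
      · simp only [b2, Complex.add_im, Complex.im_ofReal_mul]
        have := mul_nonneg b0 k0
        nlinarith
  · have j0 := j_et0 hN (t.idx Z)
    have j1 := j_et hN (t.idx_lt Z (Or.inl hZ) z0).le
    have hA := R.link Z hZ z0
    rw [pZ] at hA
    have key : |(A Z).re - t.Idx w * et N| ≤ th N ^ 2 ∧ hQ N - th N ^ 2 / 2 ≤ (A Z).im ∧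
        ‖b Y‖ ≤ 3 * th N := by
      by_cases c : Y = z
      · subst c
        refine ⟨?_, ?_, J.needle Y w hz hd⟩
        · have e : (A Z).re - t.Idx w * et N = (hQ N - (A Y).im) * (t.idx Z * et N) := by
            rw [hA, bz]; simp; ring
          rw [e, abs_of_nonneg (mul_nonneg (by linarith) j0)]
          exact (mul_le_mul y1 j1 j0 (by linarith)).trans (by nlinarith)
        · have e : (A Z).im = hQ N - (t.Idx w * et N - (A Y).re) * (t.idx Z * et N) := by
            rw [hA, bz]; simp; ring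
          have : (t.Idx w * et N - (A Y).re) * (t.idx Z * et N) ≤ th N * (th N / 4) :=
            mul_le_mul (by have := (abs_le.1 ha).1; linarith) j1 j0 h0.le
          rw [e]; nlinarith
      · obtain ⟨a1, a2, β, b0, b1, b2⟩ := lane Y hY l1 c
        refine ⟨?_, ?_, ?_⟩
        · simp only [hA, b2, Complex.add_re, Complex.re_ofReal_mul, a1, add_sub_cancel_left, PP_re]
          rw [abs_of_nonneg (mul_nonneg b0 j0)]
          exact (mul_le_mul b1 j1 j0 (by linarith)).trans (by nlinarith)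
        · simp only [hA, b2, Complex.add_im, Complex.im_ofReal_mul, PP_im]
          nlinarith
        · rw [b2, Complex.norm_real, Real.norm_of_nonneg b0]; linarith
    have err : ‖A W + b W * k - A Z‖ ≤ th N ^ 2 / 2 := by
      refine (hn k hk).trans ?_
      have := mul_le_mul_of_nonneg_left (key.2.2.trans (show 3 * th N ≤ 1 / 3 by linarith))
        (show 0 ≤ 3 * ss N by have := ss_pos hN; positivity)
      unfold ss at *
      linarith
    have r1 := abs_le.1 ((Complex.abs_re_le_norm _).trans err)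
    have r2 := abs_le.1 ((Complex.abs_im_le_norm _).trans err)
    have r3 := abs_le.1 key.1
    rw [Complex.sub_re] at r1
    rw [Complex.sub_im] at r2
    have := sq_nonneg (th N)
    exact fin (abs_le.2 ⟨by linarith, by linarith⟩) (by linarith)

end QT
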