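import Pool.Agent.Lib.MP_b50536_gt.QT.Bas

/-! Layout: combinatorics of the tree of children, existence of the recursion, invariants. -/

namespace QT
open Set

/-- `b` has two forward branches of reach at least `r`. -/
def Big {T : Type*} [SemilatticeInf T] (D : T → T → ℝ) (r : ℝ) (b : T) : Prop :=
  ∃ x y : T, x ⊓ y = b ∧ r ≤ D b x ∧ r ≤ D b y

variable {ι : Type*} [PartialOrder ι] {N M : ℕ}

theorem LT.O_ne_root (t : LT ι N M) {w : ι} (hw : w ∈ t.O) : w ≠ t.root :=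
  fun h => t.disj w hw (h ▸ t.root_mem)

/-- Induction along `prev` over all nodes. -/
theorem LT.ind' (t : LT ι N M) {P : ι → Prop} (h0 : P t.root)
    (hs : ∀ u ∈ t.C ∪ t.O, u ≠ t.root → P (t.prev u) → P u) : ∀ u ∈ t.C ∪ t.O, P u := by
  have key : ∀ k, ∀ u ∈ t.C ∪ t.O, t.dep u = k → P u := by
    intro k
    induction k with
    | zero =>
      intro u hu hk
      by_cases h : u = t.root
      · exact h ▸ h0
      · have := t.dep_succ u hu h; omega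
    | succ k ih =>
      intro u hu hk
      by_cases h : u = t.root
      · exact h ▸ h0
      · have := t.dep_succ u hu h
        exact hs u hu h (ih _ (Or.inl (t.prev_mem u hu h)) (by omega))
  exact fun u hu => key _ u hu rfl

/-- Induction along `prev` over the children. -/
theorem LT.ind (t : LT ι N M) {P : ι → Prop} (h0 : P t.root)
    (hs : ∀ u ∈ t.C, u ≠ t.root → P (t.prev u) → P u) : ∀ u ∈ t.C, P u := by
  intro u hu
  refine t.ind' (P := fun u => u ∈ t.C → P u) (fun _ => h0) ?_ u (Or.inl hu) hu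
  intro u hu h ih hc
  exact hs u hc h (ih (t.prev_mem u hu h))

theorem LT.ne_root_of_lt (t : LT ι N M) {y u : ι} (hy : y ∈ t.C) (h : y < u) : u ≠ t.root :=
  fun e => absurd ((t.root_le y (Or.inl hy)).trans_lt h) (e ▸ lt_irrefl _)

theorem LT.eq_root (t : LT ι N M) {u : ι} (hu : u ∈ t.C ∪ t.O) (h : t.dep u = 0) : u = t.root := by
  by_contra e
  have := t.dep_succ u hu e; omega

theorem LT.dep_lt_dep (t : LT ι N M) {y : ι} (hy : y ∈ t.C) :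
    ∀ u ∈ t.C ∪ t.O, y < u → t.dep y < t.dep u := by
  refine t.ind' (fun h => absurd rfl (t.ne_root_of_lt hy h)) ?_
  intro u hu h ih hl
  have := t.dep_succ u hu h
  rcases (t.prev_max u hu h y hy hl).eq_or_lt with e | e
  · rw [e]; omega
  · have := ih e; omega

theorem LT.dep_le_dep (t : LT ι N M) {y u : ι} (hy : y ∈ t.C) (hu : u ∈ t.C ∪ t.O) (h : y ≤ u) :
    t.dep y ≤ t.dep u := by
  rcases h.eq_or_lt with e | e
  · rw [e]
  · exact (t.dep_lt_dep hy u hu e).le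

/-- Two children below a common point are ordered by their depth. -/
theorem LT.le_of_dep (t : LT ι N M) {y y' u : ι} (hy : y ∈ t.C) (hy' : y' ∈ t.C) (h : y ≤ u)
    (h' : y' ≤ u) (hd : t.dep y ≤ t.dep y') : y ≤ y' := by
  rcases t.chain y y' u h h' with e | e
  · exact e
  · rcases e.eq_or_lt with e | e
    · exact e.ge
    · have := t.dep_lt_dep hy' y (Or.inl hy) e; omega

theorem LT.next (t : LT ι N M) {y : ι} (hy : y ∈ t.C) : ∀ u ∈ t.C ∪ t.O, y < u →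
    ∃ z ∈ t.C ∪ t.O, z ≠ t.root ∧ t.prev z = y ∧ z ≤ u := by
  refine t.ind' (fun h => absurd rfl (t.ne_root_of_lt hy h)) ?_
  intro u hu h ih hl
  rcases (t.prev_max u hu h y hy hl).eq_or_lt with e | e
  · exact ⟨u, hu, h, e.symm, le_rfl⟩
  · obtain ⟨z, h1, h2, h3, h4⟩ := ih e
    exact ⟨z, h1, h2, h3, h4.trans (t.prev_lt u hu h).le⟩

/-- A node below a child is a child. -/
theorem LT.mem_C (t : LT ι N M) {z u : ι} (hz : z ∈ t.C ∪ t.O) (hu : u ∈ t.C) (h : z ≤ u) :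
    z ∈ t.C := by
  rcases hz with hz | hz
  · exact hz
  · exact absurd (t.omax z hz u (Or.inl hu) h ▸ hu) (t.disj z hz)

theorem LT.next' (t : LT ι N M) {y u : ι} (hy : y ∈ t.C) (hu : u ∈ t.C) (h : y < u) :
    ∃ z ∈ t.C, z ≠ t.root ∧ t.prev z = y ∧ z ≤ u := by
  obtain ⟨z, h1, h2, h3, h4⟩ := t.next hy u (Or.inl hu) h
  exact ⟨z, t.mem_C h1 hu h4, h2, h3, h4⟩

/-- Incomparable children lie above two different siblings. -/
theorem LT.div (t : LT ι N M) {W' : ι} (hW' : W' ∈ t.C) : ∀ W ∈ t.C, ¬ W ≤ W' → ¬ W' ≤ W →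
    ∃ Z ∈ t.C, ∃ Z' ∈ t.C, Z ≠ t.root ∧ Z' ≠ t.root ∧ t.prev Z = t.prev Z' ∧ Z ≠ Z' ∧
      Z ≤ W ∧ Z' ≤ W' := by
  refine t.ind (fun h => absurd (t.root_le W' (Or.inl hW')) h) ?_
  intro W hW h ih h1 h2
  have hl := t.prev_lt W (Or.inl hW) h
  by_cases h3 : t.prev W ≤ W'
  · have h4 : t.prev W < W' := lt_of_le_of_ne h3 fun e => h2 (e ▸ hl.le)
    obtain ⟨Z', a1, a2, a3, a4⟩ := t.next' (t.prev_mem W (Or.inl hW) h) hW' h4
    exact ⟨W, hW, Z', a1, h, a2, a3.symm, fun e => h1 (e ▸ a4), le_rfl, a4⟩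
  · obtain ⟨Z, a1, Z', a2, a3, a4, a5, a6, a7, a8⟩ := ih h3 fun e => h2 (e.trans hl.le)
    exact ⟨Z, a1, Z', a2, a3, a4, a5, a6, a7.trans hl.le, a8⟩

theorem LT.exists_dep (t : LT ι N M) (k : ℕ) : ∀ u ∈ t.C ∪ t.O, k < t.dep u →
    ∃ y ∈ t.C, y < u ∧ t.dep y = k := by
  refine t.ind' (fun h => by rw [t.dep_root] at h; omega) ?_
  intro u hu h ih hk
  have := t.dep_succ u hu h
  by_cases e : t.dep (t.prev u) = k
  · exact ⟨_, t.prev_mem u hu h, t.prev_lt u hu h, e⟩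
  · obtain ⟨y, h1, h2, h3⟩ := ih (by omega)
    exact ⟨y, h1, h2.trans (t.prev_lt u hu h), h3⟩

theorem Ln.only {t : LT ι N M} {u w w' : ι} (h : Ln t u w) (hw' : w' ∈ t.O) (hl : u < w') :
    w' = w := by
  by_contra e
  have := t.long1 w h.2.1 w' hw' (Ne.symm e) u h.1 h.2.2.1 hl
  have := h.2.2.2
  omega

theorem Ln.dep {t : LT ι N M} {u w : ι} (h : Ln t u w) : 2 ≤ t.dep u ∧ t.dep u < t.dep w := by
  have := t.long0 w h.2.1
  have := h.2.2.2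
  exact ⟨by omega, t.dep_lt_dep h.1 w (Or.inr h.2.1) h.2.2.1⟩

theorem Ln.ne_root {t : LT ι N M} {u w : ι} (h : Ln t u w) : u ≠ t.root := fun e => by
  have := h.dep.1; rw [e, t.dep_root] at this; omega

theorem Ln.up {t : LT ι N M} {u w y : ι} (h : Ln t u w) (hy : y ∈ t.C) (h1 : u ≤ y) (h2 : y < w) :
    Ln t y w :=
  ⟨hy, h.2.1, h2, h.2.2.2.trans (Nat.add_le_add_right (t.dep_le_dep h.1 (Or.inl hy) h1) _)⟩

theorem ln_prev (t : LT ι N M) {w : ι} (hw : w ∈ t.O) :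
    Ln t (t.prev w) w ∧ t.dep w = t.dep (t.prev w) + 1 := by
  have h := t.O_ne_root hw
  have := t.dep_succ w (Or.inr hw) h
  exact ⟨⟨t.prev_mem w (Or.inr hw) h, hw, t.prev_lt w (Or.inr hw) h, by unfold LL; omega⟩, this⟩

theorem Ln.eq_prev {t : LT ι N M} {u w : ι} (h : Ln t u w) (e : t.dep w = t.dep u + 1) :
    u = t.prev w := by
  obtain ⟨h1, h2⟩ := ln_prev t h.2.1
  exact le_antisymm (t.le_of_dep h.1 h1.1 h.2.2.1.le h1.2.2.1.le (by omega))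
    (t.le_of_dep h1.1 h.1 h1.2.2.1.le h.2.2.1.le (by omega))

/-- The lane leaves through port `0`. -/
theorem Ln.idx0 {t : LT ι N M} {u w : ι} (hu : u ∈ t.C ∪ t.O) (h0 : u ≠ t.root) (hl : u ≤ w)
    (h : Ln t (t.prev u) w) : t.idx u = 0 :=
  t.main w h.2.1 u hu h0 hl fun _ hw' hp => (h.only hw' hp) ▸ le_rfl

theorem Tk.prev {t : LT ι N M} {u : ι} (h : Tk t u) : u ≠ t.root ∧ t.prev u = t.root := by
  have h0 : u ≠ t.root := fun e => by have := h.2.2.1; rw [e, t.dep_root] at this; omega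
  have := t.dep_succ u (Or.inl h.2.1) h0
  have := h.2.2.1
  exact ⟨h0, t.eq_root (Or.inl (t.prev_mem u (Or.inl h.2.1) h0)) (by omega)⟩

/-- `W` lies above the first tile `z` of the lane of `w`. -/
def Hi (t : LT ι N M) (W z w : ι) : Prop := Ln t z w ∧ t.dep w = t.dep z + LL N ∧ z ≤ W

def Low (t : LT ι N M) (W : ι) : Prop := W ∈ t.C ∧ ¬ ∃ z w, Hi t W z w

theorem Ln.hi {t : LT ι N M} {u w : ι} (h : Ln t u w) : ∃ z, Hi t u z w := by
  have h1 := t.long0 w h.2.1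
  obtain ⟨z, a1, a2, a3⟩ := t.exists_dep (t.dep w - LL N) w (Or.inr h.2.1) (by unfold LL at *; omega)
  have := h.2.2.2
  exact ⟨z, ⟨a1, h.2.1, a2, by omega⟩, by omega, t.le_of_dep a1 h.1 a2.le h.2.2.1.le (by omega)⟩

theorem Low.prev {t : LT ι N M} {W : ι} (h : Low t W) (h0 : W ≠ t.root) :
    Low t (t.prev W) ∧ (Tk t W ∨ Tiny t W) := by
  refine ⟨⟨t.prev_mem W (Or.inl h.1) h0, ?_⟩, ?_⟩
  · rintro ⟨z, w, a1, a2, a3⟩
    exact h.2 ⟨z, w, a1, a2, a3.trans (t.prev_lt W (Or.inl h.1) h0).le⟩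
  · by_cases hk : Tk t W
    · exact Or.inl hk
    · refine Or.inr ⟨h.1, h0, ?_, hk⟩
      rintro ⟨w, hw⟩
      obtain ⟨z, hz⟩ := hw.hi
      exact h.2 ⟨z, w, hz⟩

open Classical in
noncomputable def ABr (t : LT ι N M) : ℕ → ι → ℂ × ℂ
  | 0, _ => if t.md then (0, (rho N : ℂ)) else (⟨0, hO N⟩, (ss N : ℂ))
  | k + 1, u =>
    let q := ABr t k (t.prev u)
    let A := q.1 + q.2 * PP N (t.idx u)
    (A, if h : ∃ w, Ln t u w then
        (if t.dep h.choose = t.dep u + LL N then (QQ N (t.Idx h.choose) - A) / Complex.I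
          else if t.dep h.choose = t.dep u + 1 then (rho N : ℂ) else (lam N : ℂ))
      else if Tk t u then (1 / 2 : ℂ) else (ss N : ℂ) * q.2)

theorem rd (hN : 1 ≤ N) (t : LT ι N M) : ∃ A b : ι → ℂ, RD t A b := by
  classical
  have hs : ∀ u ∈ t.C, u ≠ t.root → ABr t (t.dep u) u = ABr t (t.dep (t.prev u) + 1) u :=
    fun u hu h => by rw [← t.dep_succ u (Or.inl hu) h]
  have hc : ∀ u w (h : Ln t u w), (⟨w, h⟩ : ∃ w, Ln t u w).choose = w := fun u w h =>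
    h.only (⟨w, h⟩ : ∃ w, Ln t u w).choose_spec.2.1 (⟨w, h⟩ : ∃ w, Ln t u w).choose_spec.2.2.1
  have hL : LL N ≠ 1 := by unfold LL; omega
  refine ⟨fun u => (ABr t (t.dep u) u).1, fun u => (ABr t (t.dep u) u).2, ?_, ?_, ?_, ?_, ?_, ?_,
    ?_, ?_⟩
  · intro h; simp [t.dep_root, ABr, h]
  · intro h; simp [t.dep_root, ABr, h]
  · intro u hu h; simp only [hs u hu h, ABr]
  · intro u w h e
    simp only [hs u h.1 h.ne_root, ABr, dif_pos (⟨w, h⟩ : ∃ w, Ln t u w), hc u w h, if_pos e]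
  · intro u w h e
    simp only [hs u h.1 h.ne_root, ABr, dif_pos (⟨w, h⟩ : ∃ w, Ln t u w), hc u w h]
    rw [if_neg (by omega), if_pos e]
  · intro u w h e e'
    simp only [hs u h.1 h.ne_root, ABr, dif_pos (⟨w, h⟩ : ∃ w, Ln t u w), hc u w h]
    rw [if_neg (by omega), if_neg (by omega)]
  · intro u h
    have : ¬ ∃ w, Ln t u w := by
      rintro ⟨w, hw⟩
      have := hw.dep.1
      have := h.2.2.1
      omega
    simp only [hs u h.2.1 h.prev.1, ABr, dif_neg this, if_pos h]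
  · intro u h
    simp only [hs u h.1 h.2.1, ABr, dif_neg h.2.2.1, if_neg h.2.2.2]

/-- First group of invariants. -/
structure LA (t : LT ι N M) (A b : ι → ℂ) : Prop where
  tiny : ∀ Z ∈ t.C, ∀ W ∈ t.C, Z ≤ W → (∀ y ∈ t.C, Z < y → y ≤ W → Tiny t y) →
    ‖A W - A Z‖ + 3 * ‖b W‖ ≤ 3 * ‖b Z‖
  low : ∀ W, Low t W → ∃ β : ℝ, 0 < β ∧ β ≤ 1 / 2 ∧ b W = (β : ℂ) ∧
    |(A W).re| ≤ th N * (A W).im ∧ (A W).im + 51 / 50 * β ≤ 53 / 100
  exit : ∀ z w, Ln t z w → t.dep w = t.dep z + LL N → Low t (t.prev z) ∧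
    ‖A z - ⟨0, hO N⟩‖ ≤ 3 * ss N ∧ hO N ≤ (A z).im ∧ (t.Idx w = 0 → (A z).re = 0)
  lane : ∀ y w, Ln t y w → t.dep w < t.dep y + LL N →
    A y = ⟨t.Idx w * et N, 1 - rho N - ((t.dep w : ℝ) - t.dep y - 1) * lam N⟩

/-- Second group of invariants. -/
structure LC (t : LT ι N M) (A b : ι → ℂ) : Prop where
  sect : ∀ u ∈ t.C, Sect (b u)
  lo : ∀ u ∈ t.C, ss N ^ (t.dep u + 1) ≤ ‖b u‖
  hi : ∀ u ∈ t.C, ‖b u‖ ≤ 1 / 2
  ratio : ∀ u ∈ t.C, u ≠ t.root → Sect (b u / b (t.prev u))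
  cone : ∀ Z ∈ t.C, ∀ W ∈ t.C, Z ≤ W → UU (A W - A Z)
  rise : ∀ Z ∈ t.C, ∀ W ∈ t.C, Z < W → ‖b Z‖ / 2 ≤ (A W - A Z).im
  needle : ∀ z w, Ln t z w → t.dep w = t.dep z + LL N → ‖b z‖ ≤ 3 * th N
  shape : ∀ W ∈ t.C, ∀ z w, Hi t W z w → ∃ Y, Ln t Y w ∧ z ≤ Y ∧ Y ≤ W ∧ (W = Y ∨
    ∃ Z ∈ t.C, Z ≠ t.root ∧ t.prev Z = Y ∧ Z ≤ W ∧ 1 ≤ t.idx Z ∧
      ∀ k ∈ KK N, ‖A W + b W * k - A Z‖ ≤ 3 * ss N * ‖b Y‖)

/-- Every point drawn above the first tile `z` of the lane of `w` stays near the lane. -/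
def Hull (t : LT ι N M) (A b : ι → ℂ) : Prop :=
  ∀ W ∈ t.C, ∀ z w, Hi t W z w → ∀ k ∈ KK N,
    0 ≤ (A W + b W * k - A z).im ∧
    |(A W + b W * k - A z).re - t.Idx w * et N * min ((A W + b W * k - A z).im / (2 * th N)) 1| ≤
      et N / 4 * min ((A W + b W * k - A z).im / (2 * th N)) 1

end QT
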