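import Pool.Agent.Lib.MP_b50536_gt.QT.L0

/-! Layout: first group of invariants. -/

namespace QT
open Set

variable {ι : Type*} [PartialOrder ι] {N M : ℕ} {t : LT ι N M} {A b : ι → ℂ}

namespace La

theorem tiny (hN : 1 ≤ N) (R : RD t A b) {Z : ι} (hZ : Z ∈ t.C) : ∀ W ∈ t.C, Z ≤ W →
    (∀ y ∈ t.C, Z < y → y ≤ W → Tiny t y) → ‖A W - A Z‖ + 3 * ‖b W‖ ≤ 3 * ‖b Z‖ := by
  refine t.ind (fun h _ => ?_) ?_
  · rw [le_antisymm h (t.root_le Z (Or.inl hZ))]; simp
  intro W hW h0 ih h1 h2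
  rcases h1.eq_or_lt with e | e
  · rw [e]; simp
  have hl := t.prev_lt W (Or.inl hW) h0
  have i := ih (t.prev_max W (Or.inl hW) h0 Z hZ e) fun y a1 a2 a3 => h2 y a1 a2 (a3.trans hl.le)
  have e1 := R.bS W (h2 W hW e le_rfl)
  have e2 := R.link W hW h0
  have n1 : ‖b W‖ = ss N * ‖b (t.prev W)‖ := by
    rw [e1, norm_mul, Complex.norm_real, Real.norm_of_nonneg (ss_pos hN).le]
  have n2 : ‖A W - A Z‖ ≤ ‖A (t.prev W) - A Z‖ + ‖b (t.prev W)‖ * 2 := by
    rw [e2, add_sub_right_comm]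
    refine (norm_add_le _ _).trans (add_le_add le_rfl ?_)
    rw [norm_mul]
    exact mul_le_mul_of_nonneg_left (PP_norm hN (t.idx_lt W (Or.inl hW) h0).le) (norm_nonneg _)
  have := ss_le hN
  nlinarith [norm_nonneg (b (t.prev W))]

theorem low_root (t : LT ι N M) : Low t t.root := by
  refine ⟨t.root_mem, ?_⟩
  rintro ⟨z, w, h, -, h2⟩
  exact h.ne_root (le_antisymm h2 (t.root_le z (Or.inl h.1)))

theorem low (hN : 1 ≤ N) (R : RD t A b) : ∀ W ∈ t.C, Low t W → ∃ β : ℝ, 0 < β ∧ β ≤ 1 / 2 ∧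
    b W = (β : ℂ) ∧ |(A W).re| ≤ th N * (A W).im ∧ (A W).im + 51 / 50 * β ≤ 53 / 100 := by
  have t0 := th_pos hN
  have t1 := th_le hN
  have s0 := ss_pos hN
  have s1 := ss_le hN
  refine t.ind (fun _ => ?_) ?_
  · by_cases hm : t.md
    · obtain ⟨e1, e2⟩ := R.r1 hm
      refine ⟨rho N, by unfold rho; linarith, by unfold rho; linarith, e2, by simp [e1], ?_⟩
      rw [e1]; unfold rho; simp only [Complex.zero_im]; linarith
    · obtain ⟨e1, e2⟩ := R.r2 hm
      refine ⟨ss N, s0, by linarith, e2, ?_, ?_⟩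
      · rw [e1]; unfold hO; simp only [abs_zero]; positivity
      · rw [e1]; unfold hO; simp only; linarith
  intro W hW h0 ih hl
  obtain ⟨h1, h2⟩ := hl.prev h0
  obtain ⟨β, b0, b1, b2, b3, b4⟩ := ih h1
  have e2 := R.link W hW h0
  have j0 := j_et0 hN (t.idx W)
  have j1 := j_et hN (t.idx_lt W (Or.inl hW) h0).le
  have re : (A W).re = (A (t.prev W)).re + β * (t.idx W * et N) := by rw [e2, b2]; simp
  have im : (A W).im = (A (t.prev W)).im + β := by rw [e2, b2]; simp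
  have c : |(A W).re| ≤ th N * (A W).im := by
    rw [re, im]
    refine (abs_add_le _ _).trans ?_
    rw [abs_of_nonneg (mul_nonneg b0.le j0)]
    nlinarith
  rcases h2 with h2 | h2
  · refine ⟨1 / 2, by norm_num, le_rfl, by rw [R.bK W h2]; simp, c, ?_⟩
    obtain ⟨e3, e4⟩ := R.r1 h2.1
    rw [h2.prev.2] at im b2
    have : β = rho N := by exact_mod_cast b2.symm.trans e4
    rw [im, e3, this]; unfold rho; simp only [Complex.zero_im]; linarith
  · refine ⟨ss N * β, by positivity, by nlinarith, by rw [R.bS W h2, b2]; simp, c, ?_⟩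
    rw [im]; nlinarith

theorem low_lt {z w y : ι} (h : Ln t z w) (e : t.dep w = t.dep z + LL N) (hy : y ∈ t.C)
    (hl : y < z) : Low t y := by
  refine ⟨hy, ?_⟩
  rintro ⟨z', w', a1, a2, a3⟩
  have := a1.only h.2.1 (a3.trans_lt (hl.trans h.2.2.1))
  subst this
  have := t.dep_lt_dep a1.1 z (Or.inl h.1) (a3.trans_lt hl)
  omega

/-- Below the needle the apex only moves up. -/
theorem im_mono (hN : 1 ≤ N) (R : RD t A b) {z w Z : ι} (h : Ln t z w)
    (e : t.dep w = t.dep z + LL N) (hZ : Z ∈ t.C) :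
    ∀ W ∈ t.C, Z ≤ W → W ≤ z → (A Z).im ≤ (A W).im := by
  refine t.ind (fun h _ => ?_) ?_
  · rw [le_antisymm h (t.root_le Z (Or.inl hZ))]
  intro W hW h0 ih h1 h2
  rcases h1.eq_or_lt with e' | e'
  · rw [e']
  have hl := t.prev_lt W (Or.inl hW) h0
  have hp := t.prev_mem W (Or.inl hW) h0
  obtain ⟨β, b0, -, b2, -⟩ := low hN R _ hp (low_lt h e hp (hl.trans_le h2))
  have i := ih (t.prev_max W (Or.inl hW) h0 Z hZ e') (hl.le.trans h2)
  have im : (A W).im = (A (t.prev W)).im + β := by rw [R.link W hW h0, b2]; simp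
  linarith

theorem idx_early (hm : t.md) {u w : ι} (hu : u ∈ t.C) (hw : w ∈ t.O) (h0 : u ≠ t.root)
    (hd : t.dep u ≤ 2) (hl : u < w) : t.idx u = 0 := by
  obtain ⟨w0, a1, a2⟩ := exists_min_image t.O t.Idx
    (Set.Finite.of_injOn (f := t.Idx) (t := Iio N) (fun x hx => t.Idx_lt x hx)
      (fun x hx y hy e => t.Idx_inj x hx y hy e) (finite_Iio N)) ⟨w, hw⟩
  exact t.main w0 a1 u (Or.inl hu) h0 (t.long2 hm w hw w0 a1 u hu hd hl).le
    fun w' hw' _ => a2 w' hw'

/-- The start of the core. -/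
theorem start (R : RD t A b) {z w : ι} (h : Ln t z w) (e : t.dep w = t.dep z + LL N) :
    ∃ Z ∈ t.C, Z ≤ z ∧ A Z = ⟨0, hO N⟩ ∧ (Z < z → ‖b Z‖ ≤ |ss N|) ∧
      ∀ y ∈ t.C, Z < y → ¬ Tk t y := by
  by_cases hm : t.md
  · have hd := h.dep
    obtain ⟨u1, a1, a2, a3⟩ := t.exists_dep 1 w (Or.inr h.2.1) (by omega)
    obtain ⟨u2, c1, c2, c3⟩ := t.exists_dep 2 w (Or.inr h.2.1) (by omega)
    have k : Tk t u1 := ⟨hm, a1, a3, w, h.2.1, a2⟩
    have n2 : u2 ≠ t.root := fun e => by rw [e, t.dep_root] at c3; omega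
    have d2 := t.dep_succ u2 (Or.inl c1) n2
    have p1 := t.prev_mem u2 (Or.inl c1) n2
    have p2 := (t.prev_lt u2 (Or.inl c1) n2).trans c2
    have p : t.prev u2 = u1 := le_antisymm (t.le_of_dep p1 a1 p2.le a2.le (by omega))
      (t.le_of_dep a1 p1 a2.le p2.le (by omega))
    obtain ⟨e1, e2⟩ := R.r1 hm
    have l1 := R.link u1 a1 k.prev.1
    have l2 := R.link u2 c1 n2
    rw [k.prev.2, e1, e2, idx_early hm a1 h.2.1 k.prev.1 (by omega) a2, PP_zero] at l1
    rw [p, l1, R.bK u1 k, idx_early hm c1 h.2.1 n2 (by omega) c2, PP_zero] at l2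
    have nk : ∀ y ∈ t.C, u2 ≤ y → ¬ Tk t y := fun y hy hl hk => by
      have := t.dep_le_dep c1 (Or.inl hy) hl
      have := hk.2.2.1
      omega
    refine ⟨u2, c1, t.le_of_dep c1 h.1 c2.le h.2.2.1.le (by omega), ?_, fun hl => ?_,
      fun y hy hl => nk y hy hl.le⟩
    · rw [l2]; apply Complex.ext <;> simp [hO, rho, add_comm]
    · rw [R.bS u2 (((low_lt h e c1 hl).prev n2).2.resolve_left (nk u2 c1 le_rfl)), p, R.bK u1 k,
        norm_mul, Complex.norm_real, Real.norm_eq_abs]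
      have := abs_nonneg (ss N)
      norm_num; linarith
  · obtain ⟨e1, e2⟩ := R.r2 hm
    exact ⟨t.root, t.root_mem, t.root_le z (Or.inl h.1), e1,
      fun _ => by rw [e2, Complex.norm_real, Real.norm_eq_abs], fun y _ _ hk => hm hk.1⟩

theorem exit (hN : 1 ≤ N) (R : RD t A b) {z w : ι} (h : Ln t z w)
    (e : t.dep w = t.dep z + LL N) : Low t (t.prev z) ∧
    ‖A z - ⟨0, hO N⟩‖ ≤ 3 * ss N ∧ hO N ≤ (A z).im ∧ (t.Idx w = 0 → (A z).re = 0) := by
  have h0 := h.ne_root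
  have hp := t.prev_mem z (Or.inl h.1) h0
  have hl := t.prev_lt z (Or.inl h.1) h0
  have s0 := ss_pos hN
  obtain ⟨Z, a1, a2, a3, a4, a5⟩ := start R h e
  refine ⟨low_lt h e hp hl, ?_, ?_, fun hi => ?_⟩
  · rw [← a3]
    rcases a2.eq_or_lt with e' | e'
    · rw [e']; simp; positivity
    have i := tiny hN R a1 _ hp (t.prev_max z (Or.inl h.1) h0 Z a1 e') fun y hy b1 b2 =>
      ((low_lt h e hy (b2.trans_lt hl)).prev (t.ne_root_of_lt a1 b1)).2.resolve_left (a5 y hy b1)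
    have n2 : ‖A z - A Z‖ ≤ ‖A (t.prev z) - A Z‖ + ‖b (t.prev z)‖ * 2 := by
      rw [R.link z h.1 h0, add_sub_right_comm]
      refine (norm_add_le _ _).trans (add_le_add le_rfl ?_)
      rw [norm_mul]
      exact mul_le_mul_of_nonneg_left (PP_norm hN (t.idx_lt z (Or.inl h.1) h0).le) (norm_nonneg _)
    have := a4 e'
    rw [abs_of_pos s0] at this
    linarith [norm_nonneg (b (t.prev z))]
  · simpa [a3] using im_mono hN R h e a1 z h.1 a2 le_rfl
  · have key : ∀ u ∈ t.C, u ≤ z → (A u).re = 0 := by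
      refine t.ind (fun _ => ?_) ?_
      · by_cases hm : t.md
        · rw [(R.r1 hm).1]; rfl
        · rw [(R.r2 hm).1]
      intro u hu u0 ih u1
      have ul := t.prev_lt u (Or.inl hu) u0
      have up := t.prev_mem u (Or.inl hu) u0
      obtain ⟨β, -, -, b2, -⟩ := low hN R _ up (low_lt h e up (ul.trans_le u1))
      rw [R.link u hu u0, b2, t.main w h.2.1 u (Or.inl hu) u0 (u1.trans h.2.2.1.le)
        fun _ _ _ => by omega, PP_zero]
      simp [ih (ul.le.trans u1)]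
    exact key z h.1 le_rfl

theorem lane (hN : 1 ≤ N) (R : RD t A b) {w : ι} : ∀ y ∈ t.C, Ln t y w →
    t.dep w < t.dep y + LL N →
    A y = ⟨t.Idx w * et N, 1 - rho N - ((t.dep w : ℝ) - t.dep y - 1) * lam N⟩ := by
  refine t.ind (fun h => absurd rfl h.ne_root) ?_
  intro y hy h0 ih h e
  have d := t.dep_succ y (Or.inl hy) h0
  have hp : Ln t (t.prev y) w := ⟨t.prev_mem y (Or.inl hy) h0, h.2.1,
    (t.prev_lt y (Or.inl hy) h0).trans h.2.2.1, by omega⟩
  have hd := h.dep.2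
  rw [R.link y hy h0, Ln.idx0 (Or.inl hy) h0 h.2.2.1.le hp, PP_zero]
  by_cases e' : t.dep w = t.dep (t.prev y) + LL N
  · rw [R.bN _ w hp e', div_mul_cancel₀ _ Complex.I_ne_zero, add_sub_cancel]
    have c : (t.dep w : ℝ) - t.dep y - 1 = 100 * N := by
      rw [e', d]; unfold LL; push_cast; ring
    have := N_th hN
    apply Complex.ext
    · rfl
    · simp only [QQ, c, hQ, rho, lam]
      linear_combination (100 - 1200 * th N) * this
  · have := hp.2.2.2
    rw [R.bL _ w hp (by omega) (by omega), ih hp (by omega), d]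
    apply Complex.ext
    · simp
    · simp; ring

end La

theorem la (hN : 1 ≤ N) (R : RD t A b) : LA t A b :=
  ⟨fun _ hZ => La.tiny hN R hZ, fun W h => La.low hN R W h.1 h, fun _ _ h e => La.exit hN R h e,
    fun y _ h => La.lane hN R y h.1 h⟩

end QT
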