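import Pool.Agent.Lib.MP_b50536_gt.QT.Bas

/-! Variation along an arc: monotonicity and additivity. -/

namespace QT
variable {T : Type*} [SemilatticeInf T]

theorem LB.mono {F : T → ℂ} {x y x' y' : T} {l l' : ℝ} (h : LB F x y l) (hx : x ≤ x')
    (hy : y' ≤ y) (hl : l ≤ l') : LB F x' y' l' :=
  fun k z hz hm => (h k z hz fun i => ⟨hx.trans (hm i).1, (hm i).2.trans hy⟩).trans hl

theorem LB.const {F : T → ℂ} {x y : T} {q : ℂ} (h : ∀ z, x ≤ z → z ≤ y → F z = q) :
    LB F x y 0 := fun k z _ hm => by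
  simp [fun i => h (z i) (hm i).1 (hm i).2]

theorem LB.refl (F : T → ℂ) (x : T) : LB F x x 0 :=
  LB.const (q := F x) fun _ h1 h2 => by rw [le_antisymm h2 h1]

theorem LB.add (chain : ∀ a b c : T, a ≤ c → b ≤ c → a ≤ b ∨ b ≤ a) {F : T → ℂ} {x c y : T}
    {l l' : ℝ} (h : LB F x c l) (h' : LB F c y l') (hx : x ≤ c) (hy : c ≤ y) :
    LB F x y (l + l') := by
  classical
  intro k z hz hm
  have h1 := h k (fun i => z i ⊓ c) (fun i j hij => inf_le_inf_right c (hz hij))
    fun i => ⟨le_inf (hm i).1 hx, inf_le_right⟩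
  have h2 := h' k (fun i => if c ≤ z i then z i else c) (fun i j hij => by
    by_cases a : c ≤ z i
    · simp only [if_pos a, if_pos (a.trans (hz hij))]; exact hz hij
    · simp only [if_neg a]; split_ifs with e
      · exact e
      · exact le_rfl) fun i => by
    by_cases a : c ≤ z i
    · simp only [if_pos a]; exact ⟨a, (hm i).2⟩
    · simp only [if_neg a]; exact ⟨le_rfl, hy⟩
  refine le_trans ?_ (add_le_add h1 h2)
  rw [← Finset.sum_add_distrib]
  refine Finset.sum_le_sum fun i _ => ?_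
  have hi : z i ≤ z (i + 1) := hz (Nat.le_succ i)
  by_cases a : c ≤ z i
  · simp [a, a.trans hi, inf_eq_right.2 a, inf_eq_right.2 (a.trans hi)]
  · have a' : z i ≤ c := (chain _ _ _ (hm i).2 hy).resolve_right a
    by_cases e : c ≤ z (i + 1)
    · simp only [if_pos e, if_neg a, inf_eq_right.2 e, inf_eq_left.2 a']
      have := dist_triangle (F (z (i + 1))) (F c) (F (z i))
      linarith
    · have e' : z (i + 1) ≤ c := (chain _ _ _ (hm (i + 1)).2 hy).resolve_right e
      simp [a, e, inf_eq_left.2 a', inf_eq_left.2 e']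

end QT
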