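import Pool.Agent.Lib.MP_b50536_gt.QT.L0

/-! Layout: the second group of invariants. -/

namespace QT
open Set Metric Filter Topology
open scoped NNReal

section layout
variable {ι : Type*} [PartialOrder ι] {N M : ℕ} {t : LT ι N M} {A b : ι → ℂ}

namespace Lc

theorem needle (hN : 1 ≤ N) (R : RD t A b) (I : LA t A b) {z w : ι} (h : Ln t z w)
    (e : t.dep w = t.dep z + LL N) : Sect (b z) ∧ ss N ≤ ‖b z‖ ∧ ‖b z‖ ≤ 3 * th N := by
  obtain ⟨-, h1, h2, -⟩ := I.exit z w h e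
  have h3 := (Complex.abs_re_le_norm _).trans h1
  have h4 := (Complex.abs_im_le_norm _).trans h1
  simp only [Complex.sub_re, Complex.sub_im, sub_zero] at h3 h4
  have e1 : (b z).re = hQ N - (A z).im := by
    rw [R.bN z w h e, Complex.div_I]
    simp [QQ]
  have e2 : (b z).im = (A z).re - t.Idx w * et N := by
    rw [R.bN z w h e, Complex.div_I]
    simp [QQ]
  have h5 := j_et hN (t.Idx_lt w h.2.1).le
  have h6 := j_et0 hN (t.Idx w)
  have h7 := th_pos hN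
  have h8 := th_le hN
  have h9 : 24 * ss N ≤ th N := by unfold ss; nlinarith
  have h10 := ss_pos hN
  have h11 := (abs_le.1 h4).2
  have h12 : |(b z).im| ≤ 3 * ss N + th N / 4 := by
    rw [e2]
    refine (abs_sub _ _).trans ?_
    rw [abs_of_nonneg h6]
    linarith
  have h13 : 2 * th N - 3 * ss N ≤ (b z).re ∧ (b z).re ≤ 2 * th N := by
    rw [e1]
    unfold hQ hO at *
    constructor <;> linarith
  refine ⟨?_, ?_, ?_⟩
  · unfold Sect
    linarith [h13.1]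
  · linarith [h13.1, Complex.re_le_norm (b z)]
  · have := norm_le_add (b z)
    rw [abs_of_nonneg (by linarith [h13.1])] at this
    linarith [h13.2]

/-- The possible values of the factor of a child. -/
theorem cases (hN : 1 ≤ N) (R : RD t A b) {u : ι} (hu : u ∈ t.C) :
    (∃ w, Ln t u w ∧ t.dep w = t.dep u + LL N) ∨
      (∃ r : ℝ, ss N ≤ r ∧ r ≤ 1 / 2 ∧ b u = (r : ℂ)) ∨ Tiny t u := by
  have h7 := th_pos hN
  have h8 := th_le hN
  have h1 : ss N ≤ rho N ∧ rho N ≤ 1 / 2 := by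
    unfold ss rho
    constructor <;> nlinarith
  have h2 : ss N ≤ lam N ∧ lam N ≤ 1 / 2 := by
    unfold ss lam
    constructor <;> nlinarith
  have h3 : ss N ≤ 1 / 2 := (ss_le hN).trans (by norm_num)
  by_cases h0 : u = t.root
  · subst h0
    by_cases hm : t.md
    · exact .inr (.inl ⟨_, h1.1, h1.2, (R.r1 hm).2⟩)
    · exact .inr (.inl ⟨_, le_rfl, h3, (R.r2 hm).2⟩)
  by_cases hl : ∃ w, Ln t u w
  · obtain ⟨w, hw⟩ := hl
    have h4 := hw.dep.2
    have h5 := hw.2.2.2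
    by_cases e : t.dep w = t.dep u + LL N
    · exact .inl ⟨w, hw, e⟩
    by_cases e' : t.dep w = t.dep u + 1
    · exact .inr (.inl ⟨_, h1.1, h1.2, R.bT u w hw e'⟩)
    · exact .inr (.inl ⟨_, h2.1, h2.2, R.bL u w hw (by omega) (by omega)⟩)
  by_cases hk : Tk t u
  · exact .inr (.inl ⟨1 / 2, h3, le_rfl, by rw [R.bK u hk]; norm_num⟩)
  · exact .inr (.inr ⟨hu, h0, hl, hk⟩)

theorem base (hN : 1 ≤ N) (R : RD t A b) (I : LA t A b) : ∀ u ∈ t.C,
    Sect (b u) ∧ ss N ^ (t.dep u + 1) ≤ ‖b u‖ ∧ ‖b u‖ ≤ 1 / 2 := by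
  have hs := ss_pos hN
  have hs1 : ss N ≤ 1 := (ss_le hN).trans (by norm_num)
  have h8 := th_le hN
  have key : ∀ u ∈ t.C, ¬ Tiny t u →
      Sect (b u) ∧ ss N ^ (t.dep u + 1) ≤ ‖b u‖ ∧ ‖b u‖ ≤ 1 / 2 := by
    intro u hu hn
    have h1 : ss N ^ (t.dep u + 1) ≤ ss N := pow_le_of_le_one hs.le hs1 (by omega)
    rcases cases hN R hu with ⟨w, hw, e⟩ | ⟨r, h2, h3, e⟩ | h
    · obtain ⟨a1, a2, a3⟩ := needle hN R I hw e
      exact ⟨a1, h1.trans a2, by linarith⟩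
    · have h4 : 0 ≤ r := hs.le.trans h2
      rw [e, Complex.norm_real, Real.norm_of_nonneg h4]
      exact ⟨sect_real h4, h1.trans h2, h3⟩
    · exact absurd h hn
  refine t.ind (key _ t.root_mem fun h => h.2.1 rfl) fun u hu h0 ih => ?_
  by_cases h : Tiny t u
  · rw [R.bS u h, norm_mul, Complex.norm_real, Real.norm_of_nonneg hs.le,
      t.dep_succ u (.inl hu) h0, pow_succ']
    exact ⟨ih.1.smul hs.le, mul_le_mul_of_nonneg_left ih.2.1 hs.le,
      (mul_le_of_le_one_left (norm_nonneg _) hs1).trans ih.2.2⟩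
  · exact key u hu h

theorem cone (hN : 1 ≤ N) (R : RD t A b) (hS : ∀ u ∈ t.C, Sect (b u)) {Z : ι} (hZ : Z ∈ t.C) :
    ∀ W ∈ t.C, Z ≤ W → UU (A W - A Z) := by
  refine t.ind (fun h => ?_) fun W hW h0 ih h => ?_
  · rw [le_antisymm h (t.root_le Z (.inl hZ)), sub_self]
    exact UU_zero
  · rcases h.eq_or_lt with e | e
    · rw [e, sub_self]
      exact UU_zero
    · have h1 := (ih (t.prev_max W (.inl hW) h0 Z hZ e)).add
        ((hS _ (t.prev_mem W (.inl hW) h0)).mul_PP hN (t.idx_lt W (.inl hW) h0).le).1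
      rwa [sub_add_eq_add_sub, ← R.link W hW h0] at h1

/-- Off the way to the port, everything above a lane tile is tiny. -/
theorem tiny {z w y : ι} (h : Ln t z w) (hy : y ∈ t.C) (h1 : z ≤ y) (h2 : ¬ y < w) : Tiny t y := by
  have h3 : ∀ w' ∈ t.O, ¬ y < w' := fun w' hw' e => h2 (h.only hw' (h1.trans_lt e) ▸ e)
  refine ⟨hy, fun e => h.ne_root (le_antisymm (e ▸ h1) (t.root_le z (.inl h.1))), ?_, ?_⟩
  · rintro ⟨w', hw'⟩
    exact h3 w' hw'.2.1 hw'.2.2.1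
  · rintro ⟨-, -, -, w', a1, a2⟩
    exact h3 w' a1 a2

theorem last {z w : ι} (h : Ln t z w) : ∀ W ∈ t.C, z ≤ W → ∃ Y, Ln t Y w ∧ z ≤ Y ∧ Y ≤ W ∧
    (W = Y ∨ ∃ Z ∈ t.C, Z ≠ t.root ∧ t.prev Z = Y ∧ Z ≤ W ∧ ¬ Z < w) := by
  refine t.ind (fun e => absurd (le_antisymm e (t.root_le z (.inl h.1))) h.ne_root)
    fun W hW h0 ih e => ?_
  by_cases h1 : W < w
  · exact ⟨W, h.up hW e h1, e, le_rfl, .inl rfl⟩
  have h2 : z < W := lt_of_le_of_ne e fun e' => h1 (e' ▸ h.2.2.1)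
  have h3 := (t.prev_lt W (.inl hW) h0).le
  obtain ⟨Y, a1, a2, a3, a4⟩ := ih (t.prev_max W (.inl hW) h0 z h.1 h2)
  refine ⟨Y, a1, a2, a3.trans h3, .inr ?_⟩
  rcases a4 with a4 | ⟨Z, b1, b2, b3, b4, b5⟩
  · exact ⟨W, hW, h0, a4, le_rfl, h1⟩
  · exact ⟨Z, b1, b2, b3, b4.trans h3, b5⟩

end Lc

theorem lc (hN : 1 ≤ N) (R : RD t A b) (I : LA t A b) : LC t A b := by
  have hB := Lc.base hN R I
  have hS : ∀ u ∈ t.C, Sect (b u) := fun u hu => (hB u hu).1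
  have hs := ss_pos hN
  refine ⟨hS, fun u hu => (hB u hu).2.1, fun u hu => (hB u hu).2.2, fun u hu h0 => ?_,
    fun Z hZ => Lc.cone hN R hS hZ, fun Z hZ W hW h => ?_,
    fun z w h e => (Lc.needle hN R I h e).2.2, fun W hW z w h => ?_⟩
  · have hp := t.prev_mem u (.inl hu) h0
    rcases Lc.cases hN R hu with ⟨w, hw, e⟩ | ⟨r, h2, -, e⟩ | h
    · obtain ⟨β, a1, -, a2, -⟩ := I.low _ (I.exit u w hw e).1
      rw [a2, div_eq_inv_mul, ← Complex.ofReal_inv]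
      exact (hS u hu).smul (inv_pos.2 a1).le
    · rw [e, div_eq_mul_inv]
      exact (hS _ hp).inv.smul (hs.le.trans h2)
    · have h1 : b (t.prev u) ≠ 0 := norm_pos_iff.1 ((pow_pos hs _).trans_le (hB _ hp).2.1)
      rw [R.bS u h, mul_div_cancel_right₀ _ h1]
      exact sect_real hs.le
  · obtain ⟨z, a1, a2, a3, a4⟩ := t.next' hZ hW h
    have h1 := (Lc.cone hN R hS a1 W hW a4).im0
    have h2 := ((hS Z hZ).mul_PP hN (t.idx_lt z (.inl a1) a2).le).2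
    rw [R.link z a1 a2, a3] at h1
    simp only [Complex.sub_im, Complex.add_im] at h1 ⊢
    linarith
  · obtain ⟨Y, a1, a2, a3, a4⟩ := Lc.last h.1 W hW h.2.2
    refine ⟨Y, a1, a2, a3, a4.imp id ?_⟩
    rintro ⟨Z, b1, b2, b3, b4, b5⟩
    have h1 : z ≤ Z := a2.trans (b3 ▸ (t.prev_lt Z (.inl b1) b2).le)
    refine ⟨Z, b1, b2, b3, b4, Nat.one_le_iff_ne_zero.2 fun e => b5 ?_, fun k hk => ?_⟩
    · obtain ⟨Z', c1, c2, c3, c4⟩ := t.next a1.1 w (.inr a1.2.1) a1.2.2.1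
      have e' : Z = Z' := t.idx_inj Z (.inl b1) Z' c1 b2 c2 (b3.trans c3.symm)
        (e.trans (Ln.idx0 c1 c2 c4 (c3 ▸ a1)).symm)
      exact lt_of_le_of_ne (e' ▸ c4) fun e2 => t.disj w a1.2.1 (e2 ▸ b1)
    · have h2 := I.tiny Z b1 W hW b4 fun y hy d1 _ =>
        Lc.tiny h.1 hy (h1.trans d1.le) fun d2 => b5 (d1.trans d2)
      rw [R.bS Z (Lc.tiny h.1 b1 h1 b5), b3, norm_mul, Complex.norm_real,
        Real.norm_of_nonneg hs.le] at h2
      have h3 := norm_add_le (A W - A Z) (b W * k)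
      have h4 := mul_le_mul_of_nonneg_left (KK_norm hN hk) (norm_nonneg (b W))
      rw [norm_mul, sub_add_eq_add_sub] at h3
      linarith [norm_nonneg (b W)]

end layout

end QT
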