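import Pool.Agent.Lib.MP_b50536_gt.QT.Lb0

/-! Variation bounds for the limit map. -/

namespace QT
open Set Metric Filter Topology
open scoped NNReal

namespace Len

variable {T : Type*} [SemilatticeInf T]

theorem two {F : T → ℂ} {x y : T} {q : ℂ} (h : ∀ z, x ≤ z → z < y → F z = q) :
    LB F x y (dist (F y) q) := by
  intro k z hz hm
  have h1 : ∀ i, dist (F (z (i + 1))) (F (z i)) ≤ dist (F (z (i + 1))) q - dist (F (z i)) q := by
    intro i
    rcases (hm i).2.eq_or_lt with e | e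
    · have e' : z (i + 1) = z i := le_antisymm (e ▸ (hm (i + 1)).2) (hz (Nat.le_succ i))
      simp [e']
    · simp [h _ (hm i).1 e]
  refine (Finset.sum_le_sum fun i _ => h1 i).trans ?_
  rw [Finset.sum_range_sub fun i => dist (F (z i)) q]
  have h2 : dist (F (z k)) q ≤ dist (F y) q := by
    rcases (hm k).2.eq_or_lt with e | e
    · rw [e]
    · simp [h _ (hm k).1 e]
  linarith [dist_nonneg (x := F (z 0)) (y := q)]

theorem lim {F : T → ℂ} {FN : ℕ → T → ℂ} (hF : ∀ x, Tendsto (fun n => FN n x) atTop (𝓝 (F x)))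
    {x y : T} {l : ℝ} (n : ℕ) (h : ∀ k, LB (FN (n + k)) x y l) : LB F x y l := by
  intro k z hz hm
  have t : ∀ x, Tendsto (fun j => FN (n + j) x) atTop (𝓝 (F x)) := fun x =>
    (hF x).comp (tendsto_atTop_mono (fun j => Nat.le_add_left j n) tendsto_id)
  exact le_of_tendsto' (tendsto_finsetSum (Finset.range k) fun i _ => (t (z (i + 1))).dist (t (z i)))
    fun j => h j k z hz hm

variable [OrderBot T] {D : T → T → ℝ} {g d D0 c : ℝ} {N M : ℕ} {S : VS T D g d D0 N M}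
  {idx : ℕ → T → ℕ} {a b : ℕ → T → ℂ} {Len : ℕ → T → T → ℝ}

/-- One more step along the vertices of the next level. -/
theorem step (chain : ∀ a b c : T, a ≤ c → b ≤ c → a ≤ b ∨ b ≤ a) (G : GLay S c idx a b Len)
    {F : T → ℂ} {n : ℕ} {u : T} (hu : u ∈ S.V (n + 1))
    (h : LB F (S.pv (n + 1) u) u (wt S idx (n + 1) u * ‖BB S.p b (n + 1) (S.pv (n + 1) u)‖))
    (h' : LB F (S.p n (S.pv (n + 1) u)) (S.pv (n + 1) u) (‖BB S.p b n (S.p n (S.pv (n + 1) u))‖ *
      Len n (S.p n (S.pv (n + 1) u)) (S.pv (n + 1) u))) :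
    LB F (S.p n (S.pv (n + 1) u)) u (‖BB S.p b n (S.p n (S.pv (n + 1) u))‖ *
      Len n (S.p n (S.pv (n + 1) u)) u) := by
  refine (LB.add chain h' h (S.p_le _ _) (S.pv_lt _ _ (S.ne_bot hu)).le).mono le_rfl le_rfl
    (le_of_eq ?_)
  rw [G.lenS n u hu, BB, norm_mul]
  ring

theorem kid (chain : ∀ a b c : T, a ≤ c → b ≤ c → a ≤ b ∨ b ≤ a) (G : GLay S c idx a b Len)
    {F : T → ℂ} {n : ℕ} (h : ∀ u ∈ S.V (n + 1),
      LB F (S.pv (n + 1) u) u (wt S idx (n + 1) u * ‖BB S.p b (n + 1) (S.pv (n + 1) u)‖))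
    (u : T) (hu : u = ⊥ ∨ u ∈ S.V (n + 1)) :
    LB F (S.p n u) u (‖BB S.p b n (S.p n u)‖ * Len n (S.p n u) u) := by
  classical
  induction hk : ((S.V (n + 1)).filter (· ≤ u)).card using Nat.strong_induction_on generalizing u with
  | _ k ih =>
    by_cases ho : u = ⊥ ∨ u ∈ S.V n
    · rw [S.p_self ho, G.len0 n u ho, mul_zero]
      exact LB.refl F u
    · have h1 : u ∈ S.V (n + 1) := hu.resolve_left fun e => ho (Or.inl e)
      have h2 := S.pv_lt (n + 1) u (S.ne_bot h1)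
      rw [← (G.new n u h1 fun e => ho (Or.inr e)).1]
      refine step chain G h1 (h u h1) (ih _ ?_ _ (S.pv_mem _ _) rfl)
      rw [← hk]
      refine Finset.card_lt_card ⟨fun y hy => Finset.mem_filter.2 ⟨(Finset.mem_filter.1 hy).1,
        (Finset.mem_filter.1 hy).2.trans h2.le⟩, fun hs => ?_⟩
      exact absurd (Finset.mem_filter.1 (hs (Finset.mem_filter.2 ⟨h1, le_rfl⟩))).2 h2.not_ge

theorem pass (chain : ∀ a b c : T, a ≤ c → b ≤ c → a ≤ b ∨ b ≤ a) (hN : 1 ≤ N)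
    (G : GLay S c idx a b Len) (hA : AdjInv S c idx a b) (k : ℕ) : ∀ n, ∀ w ∈ S.V n,
    LB (fun x => AA S.p a b (n + k) (S.p (n + k) x)) (S.pv n w) w
      (wt S idx n w * ‖BB S.p b n (S.pv n w)‖) := by
  induction k with
  | zero =>
    intro n w hw
    refine (two (F := fun x => AA S.p a b n (S.p n x)) (q := AA S.p a b n (S.pv n w))
      fun z h1 h2 => by rw [S.p_eq_pv h1 h2]).mono le_rfl le_rfl ?_
    rw [S.p_self (Or.inr hw), (hA n w hw).1, dist_self_add_left, norm_mul, mul_comm]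
    refine mul_le_mul_of_nonneg_right ?_ (norm_nonneg _)
    unfold wt
    split_ifs with e
    · rw [e.1, PP_zero, Complex.norm_I]
    · linarith [PP_norm hN (G.idx_lt n w hw).le]
  | succ k ih =>
    intro n w hw
    have h1 := S.mono n hw
    have h2 := step chain G h1 (ih _ w h1) (kid chain G (ih (n + 1)) _ (S.pv_mem _ w))
    rw [(G.old n w hw).2.1, Nat.add_right_comm, Nat.add_assoc] at h2
    refine h2.mono le_rfl le_rfl ?_
    rw [mul_comm]
    exact mul_le_mul_of_nonneg_right (G.lenO n w hw) (norm_nonneg _)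

theorem tile (chain : ∀ a b c : T, a ≤ c → b ≤ c → a ≤ b ∨ b ≤ a) (hN : 1 ≤ N)
    (G : GLay S c idx a b Len) (hA : AdjInv S c idx a b) (x : T) (k : ℕ) : ∀ n,
    LB (fun x => AA S.p a b (n + k) (S.p (n + k) x)) (S.p n x) x
      (4 * M * ‖BB S.p b n (S.p n x)‖) := by
  induction k with
  | zero =>
    intro n
    refine (LB.const (F := fun x => AA S.p a b n (S.p n x)) (q := AA S.p a b n (S.p n x))
      fun z h1 h2 => ?_).mono le_rfl le_rfl (by positivity)
    rw [le_antisymm (S.p_mono n h2) (S.p_max' (S.p_mem n x) h1)]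
  | succ k ih =>
    intro n
    have hu := S.p_mem (n + 1) x
    have h2 := LB.add chain (kid chain G (pass chain hN G hA k (n + 1)) _ hu) (ih (n + 1))
      (S.p_le _ _) (S.p_le _ _)
    have h3 := G.lenC n _ hu
    have h4 := G.hi n _ hu
    rw [BB, norm_mul] at h2
    rw [S.pp] at h2 h3
    rw [Nat.add_right_comm, Nat.add_assoc] at h2
    refine h2.mono le_rfl le_rfl ?_
    have h5 := norm_nonneg (BB S.p b n (S.p n x))
    have h6 : (0 : ℝ) ≤ M := Nat.cast_nonneg M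
    nlinarith [mul_le_mul_of_nonneg_left h3 h5, mul_le_mul_of_nonneg_left h4 (mul_nonneg h6 h5)]

end Len

theorem lb {T : Type*} [SemilatticeInf T] [OrderBot T]
    {D : T → T → ℝ} {g d D0 c : ℝ} {N M : ℕ} (S : VS T D g d D0 N M)
    (chain : ∀ a b c : T, a ≤ c → b ≤ c → a ≤ b ∨ b ≤ a) (hN : 1 ≤ N)
    {idx : ℕ → T → ℕ} {a b : ℕ → T → ℂ} {Len : ℕ → T → T → ℝ}
    (G : GLay S c idx a b Len) (hA : AdjInv S c idx a b) {F : T → ℂ}
    (hF : ∀ x, Tendsto (fun n => AA S.p a b n (S.p n x)) atTop (𝓝 (F x))) :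
    (∀ n x, LB F (S.p n x) x (4 * M * ‖BB S.p b n (S.p n x)‖)) ∧
    ∀ n, ∀ w ∈ S.V n, LB F (S.pv n w) w (4 * ‖BB S.p b n (S.pv n w)‖) := by
  refine ⟨fun n x => QT.Len.lim hF n fun k => QT.Len.tile chain hN G hA x k n, fun n w hw =>
    (QT.Len.lim hF n fun k => QT.Len.pass chain hN G hA k n w hw).mono le_rfl le_rfl ?_⟩
  refine mul_le_mul_of_nonneg_right ?_ (norm_nonneg _)
  unfold wt
  split_ifs <;> norm_num

end QT
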