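import Pool.Agent.Lib.MP_b50536_gt.QT.L0

/-! Layout: the ports and the length function. -/

namespace QT
open Set Metric Filter Topology
open scoped NNReal

variable {ι : Type*} [PartialOrder ι] {N M : ℕ} {t : LT ι N M} {A b : ι → ℂ}

namespace Lle

open Classical in
/-- The weight of the pass from `prev u` to `u`. -/
noncomputable def wg (t : LT ι N M) (u : ι) : ℝ :=
  if t.idx u = 0 ∧ (t.md ∨ t.prev u ≠ t.root) then 1 else 4

/-- The length, by recursion on the depth. -/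
noncomputable def LR (t : LT ι N M) (b : ι → ℂ) : ℕ → ι → ℝ
  | 0, _ => 0
  | k + 1, u => LR t b k (t.prev u) + ‖b (t.prev u)‖ * wg t u

/-- The length. -/
noncomputable def Len (t : LT ι N M) (b : ι → ℂ) (u : ι) : ℝ := LR t b (t.dep u) u

theorem len0 : Len t b t.root = 0 := by rw [Len, t.dep_root, LR]

theorem lenS {u : ι} (hu : u ∈ t.C ∪ t.O) (h : u ≠ t.root) :
    Len t b u = Len t b (t.prev u) + ‖b (t.prev u)‖ * wg t u := by
  rw [Len, t.dep_succ u hu h, LR, Len]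

theorem lenS_le {u : ι} (hu : u ∈ t.C ∪ t.O) (h : u ≠ t.root) :
    Len t b u ≤ Len t b (t.prev u) + 4 * ‖b (t.prev u)‖ := by
  have := norm_nonneg (b (t.prev u))
  rw [lenS hu h, wg]
  split_ifs <;> linarith

theorem lenS_one {u : ι} (hu : u ∈ t.C ∪ t.O) (h : u ≠ t.root) (h1 : t.idx u = 0)
    (h2 : t.md ∨ t.prev u ≠ t.root) : Len t b u = Len t b (t.prev u) + ‖b (t.prev u)‖ := by
  rw [lenS hu h, wg, if_pos ⟨h1, h2⟩, mul_one]

theorem nr {r : ℝ} (hr : 0 ≤ r) : ‖(r : ℂ)‖ = r := by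
  rw [Complex.norm_real, Real.norm_of_nonneg hr]

theorem low (hN : 1 ≤ N) (R : RD t A b) (J : LC t A b) :
    ∀ u ∈ t.C, Low t u → Len t b u + 5 * ‖b u‖ ≤ 13 / 5 := by
  have h3 := th_pos hN
  have h4 := th_le hN
  refine t.ind (fun _ => ?_) fun u hu h ih hl => ?_
  · rw [len0]
    linarith [J.hi _ t.root_mem]
  · have e := lenS_le (b := b) (Or.inl hu) h
    obtain ⟨k1, k2 | k2⟩ := hl.prev h
    · have r : rho N = 2 * th N := rfl
      rw [k2.prev.2, len0, (R.r1 k2.1).2, nr (by linarith)] at e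
      linarith [J.hi u hu]
    · have := ih k1
      rw [R.bS u k2, norm_mul, nr (ss_pos hN).le]
      nlinarith [ss_le hN, norm_nonneg (b (t.prev u))]

theorem lane (hN : 1 ≤ N) (R : RD t A b) {z w : ι} (hz : Ln t z w) (e : t.dep w = t.dep z + LL N) :
    ∀ y ∈ t.C, z < y → y < w →
      Len t b y = Len t b z + ‖b z‖ + ((t.dep y : ℝ) - t.dep z - 1) * lam N := by
  have h3 := th_pos hN
  have h4 := th_le hN
  refine t.ind (fun h => absurd rfl (t.ne_root_of_lt hz.1 h)) fun y hy h ih h1 h2 => ?_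
  have p1 := t.prev_mem y (Or.inl hy) h
  have p2 := t.prev_lt y (Or.inl hy) h
  have p3 := t.prev_max y (Or.inl hy) h z hz.1 h1
  have p4 := t.dep_succ y (Or.inl hy) h
  have l := hz.up p1 p3 (p2.trans h2)
  rw [lenS_one (Or.inl hy) h (Ln.idx0 (Or.inl hy) h h2.le l) (Or.inr l.ne_root), p4]
  rcases p3.eq_or_lt with k | k
  · rw [← k]
    push_cast
    ring
  · have d1 := t.dep_lt_dep hz.1 _ (Or.inl p1) k
    have d2 := t.dep_lt_dep hy w (Or.inr hz.2.1) h2
    rw [ih k (p2.trans h2), R.bL _ w l (by omega) (by omega), nr (by unfold lam; nlinarith)]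
    push_cast
    ring

theorem trunk (R : RD t A b) (I : LA t A b) (hm : t.md) {z w : ι} (hz : Ln t z w)
    (e : t.dep w = t.dep z + LL N) (h0 : t.Idx w = 0) :
    ∀ u ∈ t.C, u ≤ z → Len t b u = (A u).im := by
  refine t.ind (fun _ => by rw [len0, (R.r1 hm).1, Complex.zero_im]) fun u hu h ih h1 => ?_
  have p1 := t.prev_mem u (Or.inl hu) h
  have p2 := t.prev_lt u (Or.inl hu) h
  have p3 := t.prev_max z (Or.inl hz.1) hz.ne_root _ p1 (p2.trans_le h1)
  have i0 : t.idx u = 0 := t.main w hz.2.1 u (Or.inl hu) h (h1.trans hz.2.2.1.le)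
    fun _ _ _ => h0 ▸ Nat.zero_le _
  obtain ⟨β, b0, -, b1, -⟩ := I.low (t.prev u) ⟨p1, fun ⟨z', w', a1, a2, a3⟩ =>
    (I.exit z w hz e).1.2 ⟨z', w', a1, a2, a3.trans p3⟩⟩
  rw [lenS_one (Or.inl hu) h i0 (Or.inl hm), ih (p2.le.trans h1), R.link u hu h, b1, nr b0.le, i0,
    PP_zero]
  simp

end Lle

open Lle

open Classical in
theorem llen (hN : 1 ≤ N) (R : RD t A b) (I : LA t A b) (J : LC t A b) :
    (∀ w ∈ t.O, A (t.prev w) + b (t.prev w) * PP N (t.idx w) = PP N (t.Idx w)) ∧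
    ∃ Len : ι → ℝ, Len t.root = 0 ∧
      (∀ u ∈ t.C ∪ t.O, u ≠ t.root → Len u = Len (t.prev u) +
        ‖b (t.prev u)‖ * (if t.idx u = 0 ∧ (t.md ∨ t.prev u ≠ t.root) then 1 else 4)) ∧
      ∀ w ∈ t.O, Len w ≤ if t.Idx w = 0 ∧ t.md then 1 else 4 := by
  have h3 := th_pos hN
  have h4 := th_le hN
  have hL : LL N = 100 * N + 2 := rfl
  refine ⟨fun w hw => ?_, Len t b, len0, fun u hu h => lenS hu h, fun w hw => ?_⟩
  · obtain ⟨l, d⟩ := ln_prev t hw
    rw [Ln.idx0 (Or.inr hw) (t.O_ne_root hw) le_rfl l, R.bT _ w l d, I.lane _ w l (by omega), d,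
      PP_zero]
    apply Complex.ext <;> simp
  · obtain ⟨l, d⟩ := ln_prev t hw
    obtain ⟨z, hz, e, k⟩ := l.hi
    have r : rho N = 2 * th N := rfl
    have k1 : z < t.prev w := lt_of_le_of_ne k fun k' => by
      rw [← k'] at d
      omega
    have k2 := lane hN R hz e _ l.1 k1 l.2.2.1
    have k3 : ((t.dep (t.prev w) : ℝ) - t.dep z - 1) * lam N = 1 / 2 - 6 * th N := by
      have a : t.dep (t.prev w) = t.dep z + 100 * N + 1 := by omega
      have a' := N_th hN
      rw [a, lam]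
      push_cast
      linear_combination (100 - 1200 * th N) * a'
    rw [lenS_one (Or.inr hw) (t.O_ne_root hw) (Ln.idx0 (Or.inr hw) (t.O_ne_root hw) le_rfl l)
      (Or.inr l.ne_root), k2, k3, R.bT _ w l d, nr (by linarith)]
    obtain ⟨x1, x2, -, x4⟩ := I.exit z w hz e
    split_ifs with c
    · have y1 : (A z).im - hO N ≤ 3 * ss N :=
        (le_abs_self _).trans ((Complex.abs_im_le_norm (A z - ⟨0, hO N⟩)).trans x2)
      have y2 : b z = ((hQ N - (A z).im : ℝ) : ℂ) := by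
        rw [R.bN z w hz e, div_eq_iff Complex.I_ne_zero, c.1]
        apply Complex.ext <;> simp [QQ, x4 c.1]
      unfold hO ss at y1
      rw [trunk R I c.2 hz e c.1 z hz.1 le_rfl, y2, nr (by unfold hQ; nlinarith), hQ]
      linarith
    · have y1 := low hN R J _ x1.1 x1
      have y2 := lenS_le (b := b) (Or.inl hz.1) hz.ne_root
      linarith [J.needle z w hz e, norm_nonneg (b (t.prev z))]

end QT
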