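import Pool.Agent.Lib.MP_b50536_gt.QT.L0

/-! Maximal nets of good points and the size of the tiles. -/

namespace QT
open Set Metric Filter Topology
open scoped NNReal

namespace Net

variable {T : Type*} [MetricSpace T] [SemilatticeInf T] [OrderBot T] {D : T → T → ℝ}
  {K g d r : ℝ}

/-- Points with a long forward branch, far from the root and from the big branch points. -/
def Good (D : T → T → ℝ) (g d r : ℝ) (z : T) : Prop :=
  (∃ y, z ≤ y ∧ r ≤ D z y) ∧ g * r ≤ D ⊥ z ∧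
    ∀ (m : ℕ) (b : T), Big D (r * d ^ m) b → g * (r * d ^ m) ≤ D z b

/-- Separated sets of good points. -/
def Pre (D : T → T → ℝ) (g d r : ℝ) (A : Finset T) : Prop :=
  (∀ u ∈ A, Good D g d r u) ∧ ∀ u ∈ A, ∀ u' ∈ A, u ≠ u' → g * r ≤ D u u'

omit [MetricSpace T] in
theorem Pre.step {A : Finset T} (hg : 0 < g) (hd1 : d < 1) (hr : 0 < r) (h : Pre D g d r A) :
    Pre D g d (r * d) A := by
  have h1 : r * d ≤ r := mul_le_of_le_one_right hr.le hd1.le
  have h2 : g * (r * d) ≤ g * r := mul_le_mul_of_nonneg_left h1 hg.le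
  refine ⟨fun u hu => ?_, fun u hu u' hu' e => h2.trans (h.2 u hu u' hu' e)⟩
  obtain ⟨⟨y, k1, k2⟩, k3, k4⟩ := h.1 u hu
  refine ⟨⟨y, k1, h1.trans k2⟩, h2.trans k3, fun m b => ?_⟩
  rw [mul_assoc r, ← pow_succ']
  exact k4 _ b

theorem count (h : TA T D K) (l : ℝ) : ∃ N : ℕ, ∀ (z : T) (ρ : ℝ), 0 < ρ → ∀ A : Finset T,
    (∀ y ∈ A, D z y ≤ l * ρ) → (∀ u ∈ A, ∀ u' ∈ A, u ≠ u' → 2 * ρ ≤ D u u') → A.card ≤ N := by
  obtain ⟨N, hN⟩ := h.cover l
  refine ⟨N, fun z ρ hρ A h1 h2 => ?_⟩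
  obtain ⟨S, s1, s2⟩ := hN z ρ hρ
  choose! f f1 f2 using s2
  refine (Finset.card_le_card_of_injOn f (fun y hy => f1 y (h1 y hy))
    fun u hu u' hu' e => ?_).trans s1
  by_contra n
  have k1 := f2 u (h1 u hu)
  have k2 := f2 u' (h1 u' hu')
  have k3 := h.tri u (f u) u'
  have k4 := h2 u hu u' hu' n
  rw [← e, h.symm] at k2
  linarith

theorem ext (h : TA T D K) {D0 : ℝ} (h0 : ∀ x y, D x y ≤ D0) (hg : 0 < g) (hr : 0 < r)
    {A : Finset T} (hA : Pre D g d r A) : ∃ B, A ⊆ B ∧ Pre D g d r B ∧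
      ∀ z, Good D g d r z → ∃ u ∈ B, D z u < g * r := by
  classical
  have hρ : 0 < g * r / 2 := by positivity
  obtain ⟨N, hN⟩ := count h (D0 / (g * r / 2))
  have hb : BddAbove (Finset.card '' {B | A ⊆ B ∧ Pre D g d r B}) := by
    refine ⟨N, ?_⟩
    rintro _ ⟨B, hB, rfl⟩
    refine hN ⊥ _ hρ B (fun y _ => ?_) fun u hu u' hu' e => ?_
    · rw [div_mul_cancel₀ _ hρ.ne']
      exact h0 _ _
    · linarith [hB.2.2 u hu u' hu' e]
  obtain ⟨B, hB, e⟩ := Nat.sSup_mem ⟨_, mem_image_of_mem _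
    (show A ∈ {B | A ⊆ B ∧ Pre D g d r B} from ⟨subset_rfl, hA⟩)⟩ hb
  refine ⟨B, hB.1, hB.2, fun z hz => ?_⟩
  by_contra! n
  have hzB : z ∉ B := fun k => by
    have := n z k
    rw [h.self] at this
    linarith
  have k : (insert z B).card ≤ B.card := e ▸ le_csSup hb ⟨insert z B,
    ⟨hB.1.trans (Finset.subset_insert _ _), Finset.forall_mem_insert _ _ _ |>.2 ⟨hz, hB.2.1⟩,
      fun u hu u' hu' e => by
        rcases Finset.mem_insert.1 hu with rfl | k1 <;> rcases Finset.mem_insert.1 hu' with rfl | k2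
        · exact (e rfl).elim
        · exact n _ k2
        · exact h.symm _ _ ▸ n _ k1
        · exact hB.2.2 u k1 u' k2 e⟩, rfl⟩
  rw [Finset.card_insert_of_notMem hzB] at k
  omega

theorem top (h : TA T D K) (A : Finset T) (x : T) (P : T → Prop) (hP : ∀ u, P u → u ≤ x) :
    ∃ m, (m = ⊥ ∨ m ∈ A ∧ P m) ∧ ∀ u ∈ A, P u → u ≤ m := by
  classical
  rcases (A.filter P).eq_empty_or_nonempty with e | e
  · exact ⟨⊥, Or.inl rfl, fun u hu k => absurd k (Finset.filter_eq_empty_iff.1 e hu)⟩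
  · obtain ⟨m, hm⟩ := Finset.exists_maximal e
    have h1 := Finset.mem_filter.1 hm.1
    exact ⟨m, Or.inr h1, fun u hu k => (h.chain u m x (hP u k) (hP m h1.2)).elim id
      fun k' => hm.2 (Finset.mem_filter.2 ⟨hu, k⟩) k'⟩

theorem dense (h : TA T D K) (hg1 : g ≤ 1) (hr : 0 < r)
    (hz : ∀ a c : T, a ≤ c → r ≤ D a c → ∃ z, a ≤ z ∧ z ≤ c ∧
      ∀ (m : ℕ) (b : T), Big D (r * d ^ m) b → g * (r * d ^ m) ≤ D z b)
    {A : Finset T} (hA : Pre D g d r A) (hm : ∀ z, Good D g d r z → ∃ u ∈ A, D z u < g * r)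
    {v x : T} (hv : v ≤ x) (h4 : 4 * r ≤ D v x) : ∃ u ∈ A, v < u ∧ u ≤ x := by
  have hgr : g * r ≤ r := mul_le_of_le_one_left hr.le hg1
  obtain ⟨a, a1, a2, a3⟩ := h.ivt v x r hv hr.le (by linarith)
  obtain ⟨c, c1, c2, c3⟩ := h.ivt a x r a2 hr.le (by linarith [h.tri v a x])
  obtain ⟨z, z1, z2, z3⟩ := hz a c c1 c3.ge
  have zx := z2.trans c2
  have k1 : 2 * r ≤ D z x := by
    linarith [h.tri v a z, h.tri v z x, h.mono' le_rfl z1 z2]
  obtain ⟨u, hu, k2⟩ := hm z ⟨⟨x, zx, by linarith⟩,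
    hgr.trans (a3.ge.trans (h.mono' bot_le a1 z1)), z3⟩
  by_cases ux : u ≤ x
  · have k3 : ¬ u ≤ v := fun k => by
      have := h.mono' k a1 z1
      rw [h.symm u] at this
      linarith
    exact ⟨u, hu, lt_of_le_not_ge ((h.chain u v x ux hv).resolve_left k3) k3, ux⟩
  · obtain ⟨y, y1, y2⟩ := (hA.1 u hu).1
    have k3 : D z (u ⊓ x) ≤ D z u := h.mono z u z _ inf_le_left (Or.inl le_rfl)
      (le_inf inf_le_right (inf_le_left.trans zx)) (Or.inr inf_le_left)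
    have k4 := z3 0 (u ⊓ x) ⟨y, x, le_antisymm (le_inf ((h.chain _ u y inf_le_left y1).resolve_right
      fun k => ux (k.trans inf_le_right)) inf_le_right) (inf_le_inf_right _ y1), ?_, ?_⟩
    · rw [pow_zero, mul_one] at k4
      linarith
    · rw [pow_zero, mul_one]
      exact y2.trans (h.mono' inf_le_left y1 le_rfl)
    · rw [pow_zero, mul_one]
      linarith [h.tri z (u ⊓ x) x]

theorem big (h : TA T D K) {w w' : T} (hw : Good D g d r w) (hw' : Good D g d r w')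
    (n1 : ¬ w ≤ w') (n2 : ¬ w' ≤ w) : Big D r (w ⊓ w') := by
  obtain ⟨y, y1, y2⟩ := hw.1
  obtain ⟨y', y3, y4⟩ := hw'.1
  refine ⟨y, y', le_antisymm (le_inf ?_ ?_) (inf_le_inf y1 y3),
    y2.trans (h.mono' inf_le_left y1 le_rfl), y4.trans (h.mono' inf_le_right y3 le_rfl)⟩
  · exact (h.chain _ w y inf_le_left y1).resolve_right fun k =>
      (h.chain w w' y' (k.trans inf_le_right) y3).elim n1 n2
  · exact (h.chain _ w' y' inf_le_right y3).resolve_right fun k =>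
      (h.chain w w' y y1 (k.trans inf_le_left)).elim n1 n2

end Net

open Net in
theorem net {T : Type*} [MetricSpace T] [CompactSpace T] [SemilatticeInf T] [OrderBot T]
    {D : T → T → ℝ} {K g : ℝ} (h : TA T D K) (hg : 0 < g) (hg1 : g ≤ 1) :
    ∃ N : ℕ, 1 ≤ N ∧ ∀ d : ℝ, 0 < d → d < 1 →
      (∀ r : ℝ, 0 < r → ∀ a c : T, a ≤ c → r ≤ D a c → ∃ z, a ≤ z ∧ z ≤ c ∧
        ∀ (m : ℕ) (b : T), Big D (r * d ^ m) b → g * (r * d ^ m) ≤ D z b) →
      ∃ D0 : ℝ, 0 < D0 ∧ ∃ M : ℕ, Nonempty (VS T D g d D0 N M) := by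
  classical
  obtain ⟨N, hN⟩ := count h (8 / g)
  refine ⟨max 1 N, le_max_left _ _, fun d hd hd1 hz => ?_⟩
  obtain ⟨M, hM⟩ := count h (8 / (g * d))
  set D0 := K * diam (univ : Set T) + 1 with hD0
  have h0 : ∀ x y, D x y < D0 := fun x y =>
    ((h.hi x y).trans (mul_le_mul_of_nonneg_left (dist_le_diam_of_mem isCompact_univ.isBounded
      (mem_univ x) (mem_univ y)) h.pos.le)).trans_lt (lt_add_one _)
  have h1 : 0 < D0 := (h.nonneg ⊥ ⊥).trans_lt (h0 _ _)
  have hr : ∀ n : ℕ, 0 < D0 * d ^ n := fun n => by positivity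
  have h2 := fun (n : ℕ) (A : Finset T) (hA : Pre D g d (D0 * d ^ n) A) =>
    ext h (fun x y => (h0 x y).le) hg (hr n) hA
  choose! f f1 f2 f3 using h2
  let V : ℕ → Finset T := fun n => Nat.rec ∅ (fun n A => f (n + 1) A) n
  have hs : ∀ n, Pre D g d (D0 * d ^ n) (V n) → Pre D g d (D0 * d ^ (n + 1)) (V n) := fun n k => by
    rw [pow_succ, ← mul_assoc]
    exact k.step hg hd1 (hr n)
  have hV : ∀ n, Pre D g d (D0 * d ^ n) (V n) := fun n => by
    induction n with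
    | zero => exact ⟨fun u hu => absurd hu (Finset.notMem_empty u),
        fun u hu => absurd hu (Finset.notMem_empty u)⟩
    | succ n ih => exact f2 _ _ (hs n ih)
  have hm : ∀ n z, Good D g d (D0 * d ^ n) z → ∃ u ∈ V n, D z u < g * (D0 * d ^ n) := fun n => by
    cases n with
    | zero =>
      rintro z ⟨⟨y, -, k⟩, -⟩
      rw [pow_zero, mul_one] at k
      exact absurd (h0 z y) k.not_gt
    | succ n => exact f3 _ _ (hs n (hV n))
  have nb : ∀ n, ⊥ ∉ V n := fun n k => by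
    have := ((hV n).1 _ k).2.1
    rw [h.self] at this
    exact absurd (mul_pos hg (hr n)) this.not_gt
  choose p p1 p2 using fun n x => top h (V n) x (· ≤ x) fun _ k => k
  choose q q1 q2 using fun n x => top h (V n) x (· < x) fun _ k => k.le
  have p3 : ∀ n x, p n x ≤ x := fun n x => (p1 n x).elim (fun k => k ▸ bot_le) fun k => k.2
  have q3 : ∀ n w, w ≠ ⊥ → q n w < w := fun n w hw =>
    (q1 n w).elim (fun k => k ▸ bot_lt_iff_ne_bot.2 hw) fun k => k.2
  have size : ∀ n x, D (p n x) x ≤ 4 * (D0 * d ^ n) := fun n x => by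
    by_contra! k
    obtain ⟨u, hu, k1, k2⟩ := dense h hg1 (hr n) (hz _ (hr n)) (hV n) (hm n) (p3 n x) k.le
    exact k1.not_ge (p2 n x u hu k2)
  have sizev : ∀ n w, w ≠ ⊥ → D (q n w) w ≤ 4 * (D0 * d ^ n) := fun n w hw => by
    by_contra! k
    obtain ⟨x, x1, x2, x3⟩ := h.ivt _ w _ (q3 n w hw).le (by linarith [hr n]) k.le
    obtain ⟨u, hu, k1, k2⟩ := dense h hg1 (hr n) (hz _ (hr n)) (hV n) (hm n) x1 x3.ge
    exact k1.not_ge (q2 n w u hu (k2.trans_lt (x2.lt_of_ne fun e => k.ne' (e ▸ x3))))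
  refine ⟨D0, h1, M + 1, ⟨⟨V, p, q, rfl, fun n => f1 _ _ (hs n (hV n)), nb,
    fun n x => (p1 n x).imp id And.left, p3, p2, fun n x => (q1 n x).imp id And.left, q3, q2,
    fun n => (hV n).2, fun n u hu => ((hV n).1 u hu).2.1, size, sizev,
    fun n u hu w hw w' hw' n1 n2 => ?_, fun n v => ?_, fun n v => ?_⟩⟩⟩
  · have := ((hV n).1 u hu).2.2 0 (w ⊓ w')
    rw [pow_zero, mul_one] at this
    exact this (big h ((hV n).1 w hw) ((hV n).1 w' hw') n1 n2)
  · refine (hN v (g * (D0 * d ^ n) / 2) (half_pos (mul_pos hg (hr n))) _ (fun y hy => ?_)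
      fun u hu u' hu' e => ?_).trans (le_max_right _ _)
    · obtain ⟨k1, rfl⟩ := Finset.mem_filter.1 hy
      refine (sizev n y fun e => nb n (e ▸ k1)).trans_eq ?_
      field_simp
      norm_num
    · linarith [(hV n).2 u (Finset.mem_filter.1 hu).1 u' (Finset.mem_filter.1 hu').1 e]
  · refine Nat.lt_succ_of_le (hM v (g * (D0 * d ^ (n + 1)) / 2)
      (half_pos (mul_pos hg (hr _))) _ (fun y hy => ?_) fun u hu u' hu' e => ?_)
    · obtain ⟨-, rfl⟩ := Finset.mem_filter.1 hy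
      refine (size n y).trans_eq ?_
      field_simp
      ring
    · linarith [(hV (n + 1)).2 u (Finset.mem_filter.1 hu).1 u' (Finset.mem_filter.1 hu').1 e]

end QT
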