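import Pool.Agent.Lib.MP_b50536_gt.QT.Bas

/-! The tree of children and out-ports of a tile. -/

namespace QT.Ord
open Set

variable {T : Type*} [SemilatticeInf T] [OrderBot T] {D : T → T → ℝ} {g d D0 : ℝ} {N M : ℕ}

/-- The children of the tile `(n, v)`. -/
def CC (S : VS T D g d D0 N M) (n : ℕ) (v : T) : Set T :=
  {u | (u = ⊥ ∨ u ∈ S.V (n + 1)) ∧ S.p n u = v}

/-- The out-ports of the tile `(n, v)`. -/
def OO (S : VS T D g d D0 N M) (n : ℕ) (v : T) : Set T := {w | w ∈ S.V n ∧ S.pv n w = v}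

open Classical in
/-- Depth of a node. -/
noncomputable def dp (S : VS T D g d D0 N M) (n : ℕ) (v u : T) : ℕ :=
  ((S.V (n + 1)).filter (fun y => v < y ∧ y ≤ u)).card

variable {S : VS T D g d D0 N M} {n : ℕ} {v : T}

theorem O_lt {w : T} (hw : w ∈ OO S n v) : v < w :=
  hw.2 ▸ S.pv_lt n w (S.ne_bot hw.1)

theorem C_le {u : T} (hu : u ∈ CC S n v) : v ≤ u := hu.2 ▸ S.p_le n u

theorem root_le {u : T} (hu : u ∈ CC S n v ∪ OO S n v) : v ≤ u :=
  hu.elim C_le fun h => (O_lt h).le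

theorem root_mem (hv : v = ⊥ ∨ v ∈ S.V n) : v ∈ CC S n v := ⟨S.up hv, S.p_self hv⟩

theorem node_V {u : T} (hu : u ∈ CC S n v ∪ OO S n v) (h : u ≠ v) : u ∈ S.V (n + 1) := by
  rcases hu with hu | hu
  · refine hu.1.resolve_left fun e => h ?_
    have := hu.2
    rw [e, S.p_bot] at this
    exact e.trans this
  · exact S.mono n hu.1

theorem node_lt {u : T} (hu : u ∈ CC S n v ∪ OO S n v) (h : u ≠ v) : v < u :=
  lt_of_le_of_ne (root_le hu) h.symm

theorem disj {w : T} (hw : w ∈ OO S n v) : w ∉ CC S n v := fun h => by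
  have h1 := h.2
  rw [S.p_self (Or.inr hw.1)] at h1
  exact (O_lt hw).ne' h1

theorem p_le_C (hv : v = ⊥ ∨ v ∈ S.V n) {u y : T} (hu : u ∈ CC S n v) (h1 : v ≤ y) (h2 : y ≤ u) :
    S.p n y = v :=
  le_antisymm (hu.2 ▸ S.p_mono n h2) (S.p_max' hv h1)

theorem p_lt (hv : v = ⊥ ∨ v ∈ S.V n) {u y : T} (hu : u ∈ CC S n v ∪ OO S n v) (h1 : v ≤ y)
    (h2 : y < u) : S.p n y = v := by
  rcases hu with hu | hu
  · exact p_le_C hv hu h1 h2.le
  · rw [S.p_eq_pv (hu.2.le.trans h1) h2, hu.2]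

theorem prev_lt {u : T} (hu : u ∈ CC S n v ∪ OO S n v) (h : u ≠ v) : S.pv (n + 1) u < u :=
  S.pv_lt _ u (S.ne_bot (node_V hu h))

theorem prev_mem (hv : v = ⊥ ∨ v ∈ S.V n) {u : T} (hu : u ∈ CC S n v ∪ OO S n v) (h : u ≠ v) :
    S.pv (n + 1) u ∈ CC S n v :=
  ⟨S.pv_mem _ u, p_lt hv hu (S.pv_max' (S.up hv) (node_lt hu h)) (prev_lt hu h)⟩

theorem omax {w y : T} (hw : w ∈ OO S n v) (hy : y ∈ CC S n v ∪ OO S n v) (h : w ≤ y) :
    y = w := by
  rcases hy with hy | hy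
  · exact absurd (hy.2 ▸ S.p_max n y w hw.1 h) (O_lt hw).not_ge
  · by_contra e
    exact absurd (hy.2 ▸ S.pv_max n y w hw.1 (lt_of_le_of_ne h (Ne.symm e))) (O_lt hw).not_ge

theorem dp_root : dp S n v v = 0 := by
  classical
  unfold dp
  rw [Finset.card_eq_zero, Finset.filter_eq_empty_iff]
  exact fun y _ h => h.1.not_ge h.2

theorem dp_succ {u : T} (hu : u ∈ CC S n v ∪ OO S n v) (h : u ≠ v) :
    dp S n v u = dp S n v (S.pv (n + 1) u) + 1 := by
  classical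
  have hl := prev_lt hu h
  unfold dp
  rw [← Finset.card_insert_of_notMem (a := u) (fun hm => hl.not_ge (Finset.mem_filter.1 hm).2.2)]
  congr 1
  ext y
  simp only [Finset.mem_filter, Finset.mem_insert]
  constructor
  · rintro ⟨h1, h2, h3⟩
    rcases h3.eq_or_lt with e | e
    · exact Or.inl e
    · exact Or.inr ⟨h1, h2, S.pv_max _ u y h1 e⟩
  · rintro (rfl | ⟨h1, h2, h3⟩)
    · exact ⟨node_V hu h, node_lt hu h, le_rfl⟩
    · exact ⟨h1, h2, h3.trans hl.le⟩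

theorem dp_lt (hv : v = ⊥ ∨ v ∈ S.V n) {u : T} (hu : u ∈ CC S n v) : dp S n v u < M := by
  classical
  refine lt_of_le_of_lt ?_ (S.kids n v)
  unfold dp
  refine Finset.card_le_card fun y hy => ?_
  simp only [Finset.mem_filter] at hy ⊢
  exact ⟨hy.1, p_le_C hv hu hy.2.1.le hy.2.2⟩

variable [MetricSpace T] {K : ℝ}

theorem dist_le (h : TA T D K) (hv : v = ⊥ ∨ v ∈ S.V n) {u : T} (hu : u ∈ CC S n v) :
    ∀ k : ℕ, ∀ u' ∈ CC S n v ∪ OO S n v, dp S n v u' = k → u ≤ u' →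
      D u u' + 4 * (D0 * d ^ (n + 1)) * dp S n v u ≤ 4 * (D0 * d ^ (n + 1)) * k := by
  intro k
  induction k with
  | zero =>
    intro u' hu' hk hl
    rcases hl.eq_or_lt with e | e
    · subst e
      rw [h.self, hk]; simp
    · have := dp_succ hu' ((C_le hu).trans_lt e).ne'
      omega
  | succ k ih =>
    intro u' hu' hk hl
    rcases hl.eq_or_lt with e | e
    · subst e
      rw [h.self, hk]; simp
    · have hne : u' ≠ v := ((C_le hu).trans_lt e).ne'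
      have h1 := dp_succ hu' hne
      have h2 := ih _ (Or.inl (prev_mem hv hu' hne)) (by omega) (S.pv_max' hu.1 e)
      have h3 := S.sizev (n + 1) u' (S.ne_bot (node_V hu' hne))
      have h4 := h.tri u (S.pv (n + 1) u') u'
      push_cast
      linarith

theorem key (h : TA T D K) (hv : v = ⊥ ∨ v ∈ S.V n) (hd : 0 < d) (hD0 : 0 < D0)
    (hg : 4 * ((LL N : ℝ) + 3) * d ≤ g) {u u' : T} (hu : u ∈ CC S n v)
    (hu' : u' ∈ CC S n v ∪ OO S n v) (hl : u ≤ u') (hD : g * (D0 * d ^ n) ≤ D u u') :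
    dp S n v u + LL N + 3 ≤ dp S n v u' := by
  have h1 := dist_le h hv hu _ u' hu' rfl hl
  have h0 : 0 < D0 * d ^ n := by positivity
  have h2 : 4 * ((LL N : ℝ) + 3) * d * (D0 * d ^ n) ≤ D u u' :=
    (mul_le_mul_of_nonneg_right hg h0.le).trans hD
  have h3 : 0 < 4 * (D0 * d ^ (n + 1)) := by positivity
  have h4 : 4 * (D0 * d ^ (n + 1)) * ((dp S n v u : ℝ) + LL N + 3) ≤
      4 * (D0 * d ^ (n + 1)) * dp S n v u' := by
    have : 4 * ((LL N : ℝ) + 3) * d * (D0 * d ^ n) = 4 * (D0 * d ^ (n + 1)) * ((LL N : ℝ) + 3) := by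
      ring
    linarith
  exact_mod_cast le_of_mul_le_mul_left h4 h3

end QT.Ord

namespace QT
open Set Metric Filter Topology
open scoped NNReal

theorem ord {T : Type*} [MetricSpace T] [SemilatticeInf T] [OrderBot T]
    {D : T → T → ℝ} {K g d D0 : ℝ} {N M : ℕ} (h : TA T D K) (S : VS T D g d D0 N M)
    (hd : 0 < d) (hD0 : 0 < D0) (hg : 4 * ((LL N : ℝ) + 3) * d ≤ g) {idx : ℕ → T → ℕ}
    (i1 : ∀ n, ∀ w ∈ S.V n, idx n w < N)
    (i2 : ∀ n, ∀ u ∈ S.V n, ∀ u' ∈ S.V n, S.pv n u = S.pv n u' → idx n u = idx n u' → u = u')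
    (i3 : ∀ n, ∀ w ∈ S.V n, ∀ w' ∈ S.V n, ∀ u ∈ S.V (n + 1), ∀ u' ∈ S.V (n + 1),
        S.pv n w = S.pv n w' → u ≤ w → u' ≤ w' → S.pv (n + 1) u = S.pv (n + 1) u' →
        idx (n + 1) u < idx (n + 1) u' → idx n w < idx n w')
    (i4 : ∀ n, ∀ w ∈ S.V n, ∀ u ∈ S.V (n + 1), u ≤ w → S.pv n w < u →
        (∀ w' ∈ S.V n, S.pv n w' = S.pv n w → S.pv (n + 1) u < w' → idx n w ≤ idx n w') →
        idx (n + 1) u = 0) :
    ∀ n v, (v = ⊥ ∨ v ∈ S.V n) → ∃ t : LT T N M, IsTile S idx n v t := by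
  intro n v hv
  have inc : ∀ w ∈ Ord.OO S n v, ∀ w' ∈ Ord.OO S n v, w ≠ w' → ¬ w ≤ w' :=
    fun w hw w' hw' e l => e (Ord.omax hw (Or.inr hw') l).symm
  refine ⟨{
    C := Ord.CC S n v
    O := Ord.OO S n v
    root := v
    md := v ≠ ⊥
    prev := S.pv (n + 1)
    dep := Ord.dp S n v
    idx := idx (n + 1)
    Idx := idx n
    chain := h.chain
    root_mem := Ord.root_mem hv
    root_le := fun u hu => Ord.root_le hu
    disj := fun w hw => Ord.disj hw
    prev_mem := fun u hu e => Ord.prev_mem hv hu e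
    prev_lt := fun u hu e => Ord.prev_lt hu e
    prev_max := fun u _ _ y hy l => S.pv_max' hy.1 l
    omax := fun w hw y hy l => Ord.omax hw hy l
    dep_root := Ord.dp_root
    dep_succ := fun u hu e => Ord.dp_succ hu e
    dep_lt := fun u hu => Ord.dp_lt hv hu
    idx_lt := fun u hu e => i1 _ u (Ord.node_V hu e)
    Idx_lt := fun w hw => i1 n w hw.1
    idx_inj := fun u hu u' hu' e e' => i2 _ u (Ord.node_V hu e) u' (Ord.node_V hu' e')
    Idx_inj := fun w hw w' hw' => i2 n w hw.1 w' hw'.1 (hw.2.trans hw'.2.symm)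
    compat := fun w hw w' hw' u hu u' hu' e e' => i3 n w hw.1 w' hw'.1 u (Ord.node_V hu e) u'
      (Ord.node_V hu' e') (hw.2.trans hw'.2.symm)
    main := fun w hw u hu e l H => i4 n w hw.1 u (Ord.node_V hu e) l
      (hw.2.trans_lt (Ord.node_lt hu e)) fun w' hw' e' l' => H w' ⟨hw', e'.trans hw.2⟩ l'
    long0 := ?_
    long1 := ?_
    long2 := ?_ }, rfl, rfl, rfl, Iff.rfl, rfl, rfl, rfl⟩
  · intro w hw
    have h1 : g * (D0 * d ^ n) ≤ D v w := by
      rcases hv with e | hv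
      · rw [e]; exact S.sepr n w hw.1
      · exact S.sep n v hv w hw.1 (Ord.O_lt hw).ne
    have := Ord.key h hv hd hD0 hg (Ord.root_mem hv) (Or.inr hw) (Ord.O_lt hw).le h1
    omega
  · intro w hw w' hw' e u hu l l'
    have h1 := S.avoid n w hw.1 w hw.1 w' hw'.1 (inc w hw w' hw' e) (inc w' hw' w hw e.symm)
    rw [h.symm] at h1
    have h2 := h.mono' (le_inf l.le l'.le) inf_le_left (le_refl w)
    have := Ord.key h hv hd hD0 hg hu (Or.inr hw) l.le (h1.trans h2)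
    omega
  · intro hm w hw w' hw' u hu h2 l
    by_cases e : w = w'
    · exact e ▸ l
    have h1 := S.avoid n v (hv.resolve_left hm) w hw.1 w' hw'.1 (inc w hw w' hw' e)
      (inc w' hw' w hw (Ne.symm e))
    rcases h.chain u (w ⊓ w') w l.le inf_le_left with c | c
    · exact lt_of_le_of_ne (c.trans inf_le_right) fun e' => Ord.disj hw' (e' ▸ hu)
    · have h3 := h.mono' (le_refl v) (le_inf (Ord.O_lt hw).le (Ord.O_lt hw').le) c
      have := Ord.key h hv hd hD0 hg (Ord.root_mem hv) (Or.inl hu) (Ord.C_le hu) (h1.trans h3)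
      omega

end QT
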