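import Pool.Agent.Lib.MP_b50536_gt.QT.Bas

/-! The priority order on the ports. -/

namespace QT
open Set Metric Filter Topology
open scoped NNReal

namespace Pri

variable {T : Type*} [SemilatticeInf T] (chain : ∀ a b c : T, a ≤ c → b ≤ c → a ≤ b ∨ b ≤ a)
  (U : Set T) (π : T → ℕ ×ₗ ℕ)

/-- The branch at `b` in the direction of `x`. -/
def br (b x : T) : Set T := {y | y ∈ U ∧ b < y ⊓ x}

/-- The branch of `x` contains a point that beats the branch of `y`. -/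
def lt (x y : T) : Prop := ∃ s ∈ br U (x ⊓ y) x, ∀ t ∈ br U (x ⊓ y) y, π s < π t

variable {U π}

theorem irrefl (x : T) : ¬ lt U π x x := fun ⟨_, h, _⟩ =>
  not_le_of_gt (inf_idem x ▸ h.2) inf_le_right

include chain

theorem lt_inf {b y x x' : T} (h1 : b < y ⊓ x) (h2 : b < x ⊓ x') : b < y ⊓ x' := by
  rcases chain (y ⊓ x) (x ⊓ x') x inf_le_right inf_le_left with h | h
  · exact h1.trans_le (le_inf inf_le_left (h.trans inf_le_right))
  · exact h2.trans_le (le_inf (h.trans inf_le_left) inf_le_right)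

theorem br_eq {b x x' : T} (h : b < x ⊓ x') : br U b x = br U b x' :=
  Set.ext fun _ => and_congr_right fun _ =>
    ⟨fun e => lt_inf chain e h, fun e => lt_inf chain e (inf_comm x x' ▸ h)⟩

theorem inf_eq {x y z : T} (h : x ⊓ y < y ⊓ z) : x ⊓ z = x ⊓ y := by
  have h1 : x ⊓ y ≤ x ⊓ z := le_inf inf_le_left (h.le.trans inf_le_right)
  refine (h1.eq_or_lt.resolve_right fun e => ?_).symm
  exact lt_irrefl _ (lt_inf chain e (inf_comm y z ▸ h))

theorem trans {x y z : T} (h : lt U π x y) (h' : lt U π y z) : lt U π x z := by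
  by_cases e : x ⊓ y = y ⊓ z
  · obtain ⟨s, s1, s2⟩ := h
    obtain ⟨t, t1, t2⟩ := h'
    rw [← e] at t1 t2
    rcases (le_inf inf_le_left (e.le.trans inf_le_right) : x ⊓ y ≤ x ⊓ z).eq_or_lt with e1 | e1
    · exact ⟨s, e1 ▸ s1, fun r hr => (s2 t t1).trans (t2 r (e1 ▸ hr))⟩
    · exact absurd (t2 s (br_eq chain e1 ▸ s1)) (lt_asymm (s2 t t1))
  · rcases chain (x ⊓ y) (y ⊓ z) y inf_le_right inf_le_left with e1 | e1
    · have e2 := e1.lt_of_ne e
      rwa [lt, inf_eq chain e2, ← br_eq chain e2]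
    · have e2 := e1.lt_of_ne (Ne.symm e)
      have e3 : z ⊓ x = z ⊓ y := inf_eq chain (by rwa [inf_comm z, inf_comm y x])
      rwa [lt, inf_comm x z, e3, inf_comm z y, br_eq chain e2]

theorem total (hπ : InjOn π U) {x y : T} (hx : x ∈ U) (h : ¬ x ≤ y) : lt U π x y ∨ lt U π y x := by
  have x1 : x ∈ br U (x ⊓ y) x := ⟨hx, by rw [inf_idem]; exact inf_lt_left.2 h⟩
  obtain ⟨s, s1, s2⟩ := (InvImage.wf π wellFounded_lt).has_min
    (br U (x ⊓ y) x ∪ br U (x ⊓ y) y) ⟨x, .inl x1⟩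
  have dj : ∀ t, t ∈ br U (x ⊓ y) x → t ∈ br U (x ⊓ y) y → False := fun t a b =>
    lt_irrefl _ (lt_inf chain (inf_comm t x ▸ a.2) b.2)
  rcases s1 with s1 | s1
  · exact .inl ⟨s, s1, fun t ht => (not_lt.1 (s2 t (.inr ht))).lt_of_ne fun e =>
      dj s s1 (hπ s1.1 ht.1 e ▸ ht)⟩
  · refine .inr ?_
    rw [lt, inf_comm y x]
    exact ⟨s, s1, fun t ht => (not_lt.1 (s2 t (.inl ht))).lt_of_ne fun e =>
      dj s (hπ s1.1 ht.1 e ▸ ht) s1⟩

theorem up {u u' w w' : T} (h : u ≤ w) (h' : u' ≤ w') (n : ¬ u ≤ u') (n' : ¬ u' ≤ u) :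
    lt U π u u' ↔ lt U π w w' := by
  have e : w ⊓ w' = u ⊓ u' := by
    refine le_antisymm (le_inf ?_ ?_) (inf_le_inf h h')
    · exact (chain _ u w inf_le_left h).resolve_right fun e =>
        (chain u u' w' (e.trans inf_le_right) h').elim n n'
    · exact (chain _ u' w' inf_le_right h').resolve_right fun e =>
        (chain u u' w h (e.trans inf_le_left)).elim n n'
  rw [lt, lt, e, br_eq chain (x := u) (x' := w) (by rw [inf_eq_left.2 h]; exact inf_lt_left.2 n),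
    br_eq chain (x := u') (x' := w') (by rw [inf_eq_left.2 h']; exact inf_lt_right.2 n')]

end Pri

theorem pri {T : Type*} [SemilatticeInf T] [OrderBot T] {D : T → T → ℝ} {g d D0 : ℝ} {N M : ℕ}
    (S : VS T D g d D0 N M) (chain : ∀ a b c : T, a ≤ c → b ≤ c → a ≤ b ∨ b ≤ a) :
    ∃ idx : ℕ → T → ℕ, (∀ n, ∀ w ∈ S.V n, idx n w < N) ∧
      (∀ n, ∀ u ∈ S.V n, ∀ u' ∈ S.V n, S.pv n u = S.pv n u' → idx n u = idx n u' → u = u') ∧
      (∀ n, ∀ w ∈ S.V n, ∀ w' ∈ S.V n, ∀ u ∈ S.V (n + 1), ∀ u' ∈ S.V (n + 1),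
        S.pv n w = S.pv n w' → u ≤ w → u' ≤ w' → S.pv (n + 1) u = S.pv (n + 1) u' →
        idx (n + 1) u < idx (n + 1) u' → idx n w < idx n w') ∧
      (∀ n, ∀ w ∈ S.V n, ∀ u ∈ S.V (n + 1), u ≤ w → S.pv n w < u →
        (∀ w' ∈ S.V n, S.pv n w' = S.pv n w → S.pv (n + 1) u < w' → idx n w ≤ idx n w') →
        idx (n + 1) u = 0) := by
  classical
  obtain ⟨e, he⟩ := Set.countable_iff_exists_injOn.1
    (Set.countable_iUnion fun n => (S.V n).countable_toSet)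
  set U : Set T := ⋃ n, (S.V n : Set T)
  have hU : ∀ {n y}, y ∈ S.V n → y ∈ U := fun h => mem_iUnion.2 ⟨_, h⟩
  set π : T → ℕ ×ₗ ℕ := fun y => toLex (sInf {n | y ∈ S.V n}, e y)
  have hπ : InjOn π U := fun y hy y' hy' h => he hy hy' (congrArg (fun z => (ofLex z).2) h)
  have lev : ∀ {n y y'}, y ∈ S.V n → y' ∈ U → y' ∉ S.V n → π y < π y' := fun {n y y'} h h1 h2 =>
    Prod.Lex.toLex_lt_toLex.2 (.inl ((Nat.sInf_le h).trans_lt (not_le.1 fun h3 =>
      h2 (S.mono_le h3 (Nat.sInf_mem (s := {n | y' ∈ S.V n}) (mem_iUnion.1 h1))))))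
  have inc : ∀ {n u u'}, u ∈ S.V n → S.pv n u = S.pv n u' → u ≠ u' → ¬ u ≤ u' :=
    fun {n u u'} h e1 ne le => not_le_of_gt (S.pv_lt n u (S.ne_bot h))
      (e1 ▸ S.pv_max n u' u h (le.lt_of_ne ne))
  set idx : ℕ → T → ℕ := fun n w =>
    ((S.V n).filter fun w' => S.pv n w' = S.pv n w ∧ Pri.lt U π w' w).card
  have mon : ∀ {n w w'}, w ∈ S.V n → S.pv n w = S.pv n w' → Pri.lt U π w w' →
      idx n w < idx n w' := fun {n w w'} h e1 l => by
    refine Finset.card_lt_card ⟨fun z hz => ?_, fun hs => ?_⟩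
    · rw [Finset.mem_filter] at hz ⊢
      exact ⟨hz.1, hz.2.1.trans e1, Pri.trans chain hz.2.2 l⟩
    · exact Pri.irrefl w (Finset.mem_filter.1 (hs (Finset.mem_filter.2 ⟨h, e1, l⟩))).2.2
  have tot : ∀ {n w w'}, w ∈ S.V n → w' ∈ S.V n → S.pv n w = S.pv n w' → w ≠ w' →
      (Pri.lt U π w w' ∧ idx n w < idx n w') ∨ idx n w' < idx n w := fun h h' e1 ne =>
    (Pri.total chain hπ (hU h) (inc h e1 ne)).imp (fun l => ⟨l, mon h e1 l⟩) (mon h' e1.symm)
  refine ⟨idx, fun n w hw => lt_of_lt_of_le ?_ (S.ports n (S.pv n w)),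
    fun n u hu u' hu' e1 e2 => ?_, fun n w hw w' _ u hu u' hu' e1 l l' e2 h => ?_,
    fun n w hw u hu l l' h => ?_⟩
  · have := Finset.card_lt_card (s := (S.V n).filter fun w' => S.pv n w' = S.pv n w ∧
      Pri.lt U π w' w) (t := (S.V n).filter fun w' => S.pv n w' = S.pv n w)
      ⟨fun z hz => Finset.mem_filter.2 ((Finset.mem_filter.1 hz).imp_right And.left), fun hs =>
        Pri.irrefl w (Finset.mem_filter.1 (hs (Finset.mem_filter.2 ⟨hw, rfl⟩))).2.2⟩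
    convert this
  · by_contra ne
    rcases tot hu hu' e1 ne with h | h
    exacts [h.2.ne e2, h.ne e2.symm]
  · have ne : u ≠ u' := fun e3 => h.ne (e3 ▸ rfl)
    exact mon hw e1 ((Pri.up chain l l' (inc hu e2 ne) (inc hu' e2.symm ne.symm)).1
      ((tot hu hu' e2 ne).resolve_right h.asymm).1)
  · refine Finset.card_eq_zero.2 (Finset.filter_eq_empty_iff.2 fun u' hu' ⟨e1, l1⟩ => ?_)
    have ne : u' ≠ u := fun e3 => Pri.irrefl u (e3 ▸ l1)
    have n1 := inc hu' e1 ne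
    have n2 := inc hu e1.symm ne.symm
    have b1 : u' ⊓ u < u := inf_lt_right.2 n2
    obtain ⟨y, y1, y2⟩ := id l1
    have y3 : y ∈ S.V n := not_not.1 fun h3 =>
      lt_asymm (lev hw y1.1 h3) (y2 w ⟨hU hw, by rwa [inf_eq_right.2 l]⟩)
    have p1 : S.pv (n + 1) u ≤ u' ⊓ u :=
      le_inf (e1 ▸ (S.pv_lt _ u' (S.ne_bot hu')).le) (S.pv_lt _ u (S.ne_bot hu)).le
    have p2 : S.pv n w ≤ u' ⊓ u := (S.pv_max' (S.up (S.pv_mem n w)) l').trans p1
    have p3 : u' ⊓ u < y := y1.2.trans_le inf_le_left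
    obtain ⟨w', hw'⟩ := Finset.exists_minimal (s := (S.V n).filter fun z => S.pv n w < z ∧ z ≤ y)
      ⟨y, Finset.mem_filter.2 ⟨y3, p2.trans_lt p3, le_rfl⟩⟩
    obtain ⟨w1, w2, w3⟩ := Finset.mem_filter.1 hw'.prop
    have w4 := S.pv_lt n w' (S.ne_bot w1)
    have w5 : S.pv n w' = S.pv n w := by
      refine ((S.pv_max' (S.pv_mem n w) w2).eq_or_lt.resolve_right fun e2 => ?_).symm
      exact not_le_of_gt w4 (hw'.le_of_le (Finset.mem_filter.2
        ⟨(S.pv_mem n w').resolve_left e2.ne_bot, e2, w4.le.trans w3⟩) w4.le)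
    have n3 : ¬ w' ≤ u' ⊓ u := fun e2 =>
      not_le_of_gt w2 (S.pv_max n w w' w1 ((e2.trans_lt b1).trans_le l))
    have w6 : u' ⊓ u < w' := lt_of_le_not_ge ((chain _ _ y w3 p3.le).resolve_left n3) n3
    have c1 : u' ⊓ u < w' ⊓ u' := Pri.lt_inf chain (by rwa [inf_eq_left.2 w3]) y1.2
    have c2 : ¬ w' ⊓ u' ≤ u := fun e2 => not_le_of_gt c1 (le_inf inf_le_right e2)
    have c3 : ¬ u ≤ w' ⊓ u' := fun e2 => n2 (e2.trans inf_le_right)
    exact not_le_of_gt (mon w1 w5 ((Pri.up chain inf_le_left l c2 c3).1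
      ((Pri.up chain inf_le_right le_rfl c2 c3).2 l1))) (h w' w1 w5 (p1.trans_lt w6))

end QT
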