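import Pool.Agent.Lib.MP_b50536_gt.QT.Lb0

/-! The image of the tree is quasi-convex. -/

namespace QT
open Set Metric Filter Topology
open scoped NNReal

namespace QC

variable {T : Type*} [MetricSpace T] [SemilatticeInf T]

theorem ext_mono {m x : T} (g : Path m x) (hg : Monotone g) :
    Monotone (fun s : ℝ => g.extend s) ∧ ∀ s : ℝ, m ≤ g.extend s ∧ g.extend s ≤ x := by
  have h1 : Monotone (fun s : ℝ => g.extend s) := fun s t hst =>
    hg (monotone_projIcc zero_le_one hst)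
  refine ⟨h1, fun s => ⟨?_, ?_⟩⟩
  · have := h1 (min_le_left s 0)
    simpa only [g.extend_of_le_zero (min_le_right s 0)] using this
  · have := h1 (le_max_left s 1)
    simpa only [g.extend_of_one_le (le_max_right s 1)] using this

theorem LB.anti {F : T → ℂ} {m x : T} {l : ℝ} (h : LB F m x l) (k : ℕ) (z : ℕ → T)
    (hz : Antitone z) (hm : ∀ i, m ≤ z i ∧ z i ≤ x) :
    ∑ i ∈ Finset.range k, dist (F (z (i + 1))) (F (z i)) ≤ l := by
  have := h k (fun j => z (k - j)) (fun i j hij => hz (by omega)) fun i => hm _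
  rw [← Finset.sum_range_reflect]
  refine le_trans (le_of_eq (Finset.sum_congr rfl fun i hi => ?_)) this
  have hi' := Finset.mem_range.1 hi
  rw [dist_comm, show k - 1 - i + 1 = k - i by omega, show k - 1 - i = k - (i + 1) by omega]

theorem join {F : T → ℂ} (hF : Continuous F) {m x y : T} {l l' : ℝ}
    (g1 : Path m x) (h1 : Monotone g1) (g2 : Path m y) (h2 : Monotone g2)
    (hx : LB F m x l) (hy : LB F m y l') :
    ∃ γ : Path (F x) (F y), range γ ⊆ range F ∧ eVariationOn γ univ ≤ ENNReal.ofReal (l + l') := by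
  obtain ⟨m1, b1⟩ := ext_mono g1 h1
  obtain ⟨m2, b2⟩ := ext_mono g2 h2
  let f : unitInterval → ℂ := fun t =>
    F (g1.extend (1 - 2 * (t : ℝ))) + F (g2.extend (2 * (t : ℝ) - 1)) - F m
  have hf : Continuous f :=
    ((hF.comp (g1.continuous_extend.comp (by fun_prop))).add
      (hF.comp (g2.continuous_extend.comp (by fun_prop)))).sub continuous_const
  have f0 : f 0 = F x := by
    have e1 : g1.extend (1 - 2 * ((0 : unitInterval) : ℝ)) = x :=
      g1.extend_of_one_le (by simp)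
    have e2 : g2.extend (2 * ((0 : unitInterval) : ℝ) - 1) = m :=
      g2.extend_of_le_zero (by simp)
    simp only [f, e1, e2, add_sub_cancel_right]
  have f1 : f 1 = F y := by
    have e1 : g1.extend (1 - 2 * ((1 : unitInterval) : ℝ)) = m :=
      g1.extend_of_le_zero (by norm_num)
    have e2 : g2.extend (2 * ((1 : unitInterval) : ℝ) - 1) = y :=
      g2.extend_of_one_le (by norm_num)
    simp only [f, e1, e2, add_sub_cancel_left]
  refine ⟨⟨⟨f, hf⟩, f0, f1⟩, ?_, ?_⟩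
  · rintro _ ⟨t, rfl⟩
    change f t ∈ range F
    rcases le_total (t : ℝ) (1 / 2) with ht | ht
    · have e2 : g2.extend (2 * (t : ℝ) - 1) = m := g2.extend_of_le_zero (by linarith)
      exact ⟨_, by simp only [f, e2, add_sub_cancel_right]; rfl⟩
    · have e1 : g1.extend (1 - 2 * (t : ℝ)) = m := g1.extend_of_le_zero (by linarith)
      exact ⟨_, by simp only [f, e1, add_sub_cancel_left]; rfl⟩
  · refine iSup_le fun p => ?_
    obtain ⟨k, u, hu, -⟩ := p
    change ∑ i ∈ Finset.range k, edist (f (u (i + 1))) (f (u i)) ≤ _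
    have s1 := LB.anti hx k (fun i => g1.extend (1 - 2 * (u i : ℝ)))
      (fun i j hij => m1 (by have : (u i : ℝ) ≤ u j := hu hij; linarith)) fun i => b1 _
    have s2 := hy k (fun i => g2.extend (2 * (u i : ℝ) - 1))
      (fun i j hij => m2 (by have : (u i : ℝ) ≤ u j := hu hij; linarith)) fun i => b2 _
    simp only [edist_dist]
    rw [← ENNReal.ofReal_sum_of_nonneg fun i _ => dist_nonneg]
    refine ENNReal.ofReal_le_ofReal (le_trans ?_ (add_le_add s1 s2))
    rw [← Finset.sum_add_distrib]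
    refine Finset.sum_le_sum fun i _ => ?_
    simp only [f, dist_sub_right]
    exact dist_add_add_le _ _ _ _

end QC

theorem qc {T : Type*} [MetricSpace T] [SemilatticeInf T] [OrderBot T]
    {D : T → T → ℝ} {K g d D0 c c' C : ℝ} {N M : ℕ} (h : TA T D K) (S : VS T D g d D0 N M)
    (hc : 0 < c) (hc' : 0 < c') {idx : ℕ → T → ℕ} {a b : ℕ → T → ℂ} (hA : AdjInv S c idx a b)
    {F : T → ℂ} (hF : Continuous F) (hE : Est S b F c' C)
    (l1 : ∀ n x, LB F (S.p n x) x (4 * M * ‖BB S.p b n (S.p n x)‖))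
    (l2 : ∀ n, ∀ w ∈ S.V n, LB F (S.pv n w) w (4 * ‖BB S.p b n (S.pv n w)‖)) :
    QuasiConvex (range F) := by
  have key : ∀ (m x y : T) (l l' L : ℝ), m ≤ x → m ≤ y → LB F m x l → LB F m y l' → l + l' ≤ L →
      ∃ γ : Path (F x) (F y), range γ ⊆ range F ∧ eVariationOn γ univ ≤ ENNReal.ofReal L :=
    fun m x y l l' L hx hy lx ly hL => by
      obtain ⟨g1, h1⟩ := h.path m x hx
      obtain ⟨g2, h2⟩ := h.path m y hy
      obtain ⟨γ, r, v⟩ := QC.join hF g1 h1 g2 h2 lx ly
      exact ⟨γ, r, v.trans (ENNReal.ofReal_le_ofReal hL)⟩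
  refine ⟨(8 * M + 4) * (1 + 1 / c) / c', ?_⟩
  rintro _ ⟨x, rfl⟩ _ ⟨y, rfl⟩
  by_cases hxy : x = y
  · subst hxy
    exact key x x x 0 0 _ le_rfl le_rfl (LB.refl F x) (LB.refl F x) (by simp)
  obtain ⟨n, hn, -, -, lo, -⟩ := hE x y hxy
  have hM : (0 : ℝ) ≤ M := Nat.cast_nonneg M
  have hB := norm_nonneg (BB S.p b n (S.p n x))
  have hc1 : 0 < 1 / c := by positivity
  have fin : (8 * M + 4) * (‖BB S.p b n (S.p n x)‖ + ‖BB S.p b n (S.p n x)‖ * (1 / c)) ≤
      (8 * M + 4) * (1 + 1 / c) / c' * dist (F x) (F y) := by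
    rw [dist_eq_norm, div_mul_eq_mul_div, le_div_iff₀ hc']
    have : 0 ≤ (8 * (M : ℝ) + 4) * (1 + 1 / c) := by positivity
    nlinarith [mul_le_mul_of_nonneg_left lo this]
  have hq : 0 ≤ ‖BB S.p b n (S.p n x)‖ * (1 / c) := by positivity
  rcases hn with e | ⟨hv, e⟩ | ⟨hv, e⟩
  · refine key (S.p n x) x y _ _ _ (S.p_le n x) (e ▸ S.p_le n y) (l1 n x) (e ▸ l1 n y)
      (le_trans ?_ fin)
    nlinarith [mul_nonneg hM hB, mul_nonneg hM hq]
  · have lt := (S.pv_lt n _ (S.ne_bot hv)).le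
    have a1 := LB.add h.chain (l2 n _ hv) (l1 n y) lt (S.p_le n y)
    have a2 := (hA n _ hv).2.2.2
    rw [e] at a1 a2 lt
    have a3 : ‖BB S.p b n (S.p n y)‖ ≤ ‖BB S.p b n (S.p n x)‖ * (1 / c) := by
      rw [mul_one_div, le_div_iff₀ hc]; linarith
    refine key (S.p n x) x y _ _ _ (S.p_le n x) (lt.trans (S.p_le n y)) (l1 n x) a1
      (le_trans ?_ fin)
    nlinarith [mul_nonneg hM hB, mul_nonneg hM hq, mul_le_mul_of_nonneg_left a3 hM]
  · have lt := (S.pv_lt n _ (S.ne_bot hv)).le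
    have a1 := LB.add h.chain (l2 n _ hv) (l1 n x) lt (S.p_le n x)
    have a2 := (hA n _ hv).2.2.1
    rw [e] at a1 a2 lt
    have a3 : ‖BB S.p b n (S.p n y)‖ ≤ ‖BB S.p b n (S.p n x)‖ * (1 / c) := by
      rw [mul_one_div, le_div_iff₀ hc]; linarith
    refine key (S.p n y) x y _ _ _ (lt.trans (S.p_le n x)) (S.p_le n y) a1 (l1 n y)
      (le_trans ?_ fin)
    nlinarith [mul_nonneg hM hB, mul_nonneg hM hq, mul_le_mul_of_nonneg_left a3 hM]

end QT
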