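import Pool.Agent.Lib.MP_b50536_gt.QT.Bas

/-! Quasisymmetry from the two-sided estimate. -/

namespace QT
open Set Metric Filter Topology
open scoped NNReal

namespace QS

theorem scale {T : Type*} {d c : ℝ} {σ : ℕ → T → ℝ} (hd : 0 < d) (hd1 : d < 1) (hc : 0 < c)
    (s0 : ∀ x, σ 0 x = 1) (hs : ∀ n x, c * σ n x ≤ σ (n + 1) x ∧ σ (n + 1) x ≤ σ n x / 2) :
    (∀ n x, 0 < σ n x) ∧ ∃ a b : ℝ, 0 < a ∧ 0 < b ∧ ∀ (x : T) (n m : ℕ) (s : ℝ),
      d ^ n ≤ s * d ^ m → σ n x ≤ (s ^ a + s ^ b) * σ m x := by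
  have p : ∀ n x, 0 < σ n x := fun n x => by
    induction n with
    | zero => rw [s0]; exact one_pos
    | succ n ih => exact (mul_pos hc ih).trans_le (hs n x).1
  obtain ⟨e, e0, e1, ec⟩ : ∃ e : ℝ, 0 < e ∧ e < 1 ∧ e ≤ c :=
    ⟨min c (1 / 2), lt_min hc one_half_pos, (min_le_right _ _).trans_lt one_half_lt_one,
      min_le_left _ _⟩
  have u : ∀ x n k, e ^ k * σ n x ≤ σ (n + k) x ∧ σ (n + k) x ≤ (1 / 2) ^ k * σ n x := by
    intro x n k
    induction k with
    | zero => simp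
    | succ k ih =>
      have h := hs (n + k) x
      have h1 := mul_le_mul_of_nonneg_right ec (p (n + k) x).le
      have h2 := mul_le_mul_of_nonneg_left ih.1 e0.le
      rw [← add_assoc, pow_succ, pow_succ]
      constructor <;> linarith [h.1, h.2, ih.2]
  have ha := Real.logb_pos_of_base_lt_one hd hd1 one_half_pos one_half_lt_one
  have hb := Real.logb_pos_of_base_lt_one hd hd1 e0 e1
  have ea := Real.rpow_logb hd hd1.ne one_half_pos
  have eb := Real.rpow_logb hd hd1.ne e0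
  generalize Real.logb d (1 / 2) = a at ha ea
  generalize Real.logb d e = b at hb eb
  refine ⟨p, a, b, ha, hb, fun x n m s h => ?_⟩
  have s0 : 0 < s := (mul_pos_iff_of_pos_right (pow_pos hd m)).1 ((pow_pos hd n).trans_le h)
  have sa := mul_pos (Real.rpow_pos_of_pos s0 a) (p m x)
  have sb := mul_pos (Real.rpow_pos_of_pos s0 b) (p m x)
  rw [add_mul]
  rcases le_total m n with hmn | hmn <;> obtain ⟨k, rfl⟩ := Nat.exists_eq_add_of_le hmn
  · rw [pow_add, mul_comm] at h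
    have h1 := Real.rpow_le_rpow (pow_pos hd k).le (le_of_mul_le_mul_right h (pow_pos hd m)) ha.le
    rw [← Real.rpow_pow_comm hd.le, ea] at h1
    linarith [(u x m k).2, mul_le_mul_of_nonneg_right h1 (p m x).le]
  · have h0 : 1 ≤ s * d ^ k := le_of_mul_le_mul_right (by rw [pow_add] at h; linarith)
      (pow_pos hd n)
    have h1 := Real.one_le_rpow h0 hb.le
    rw [Real.mul_rpow s0.le (pow_pos hd k).le, ← Real.rpow_pow_comm hd.le, eb] at h1
    linarith [mul_le_mul_of_nonneg_left (u x n k).1 (Real.rpow_pos_of_pos s0 b).le,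
      mul_le_mul_of_nonneg_right h1 (p n x).le]

theorem eta {a b : ℝ} {A L : ℝ≥0} (ha : 0 < a) (hb : 0 < b) (hA : 0 < A) (hL : 0 < L) :
    ∃ η : ℝ≥0 ≃ₜ ℝ≥0, ∀ t, η t = A * ((L * t) ^ a + (L * t) ^ b) := by
  have h1 : StrictMono fun t : ℝ≥0 => A * ((L * t) ^ a + (L * t) ^ b) := fun s t h =>
    mul_lt_mul_of_pos_left (add_lt_add (NNReal.rpow_lt_rpow (mul_lt_mul_of_pos_left h hL) ha)
      (NNReal.rpow_lt_rpow (mul_lt_mul_of_pos_left h hL) hb)) hA
  have h2 : Continuous fun t : ℝ≥0 => A * ((L * t) ^ a + (L * t) ^ b) :=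
    (((NNReal.continuous_rpow_const ha.le).comp (continuous_const_mul L)).add
      ((NNReal.continuous_rpow_const hb.le).comp (continuous_const_mul L))).const_mul A
  refine ⟨(h1.orderIsoOfSurjective _ fun y => intermediate_value_univ 0 ((y / A) ^ a⁻¹ / L) h2
    ⟨?_, ?_⟩).toHomeomorph, fun _ => rfl⟩
  · simp [ha.ne', hb.ne']
  · rw [mul_div_cancel₀ _ hL.ne', NNReal.rpow_inv_rpow ha.ne', mul_add, mul_div_cancel₀ _ hA.ne']
    exact le_self_add

end QS

theorem qs {T : Type*} [MetricSpace T] [CompactSpace T] {D : T → T → ℝ} {K g d D0 c c' C : ℝ}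
    {F : T → ℂ} {σ : ℕ → T → ℝ} (hK : 0 < K) (lo : ∀ x y, dist x y ≤ D x y)
    (hi : ∀ x y, D x y ≤ K * dist x y) (hg : 0 < g) (hd : 0 < d) (hd1 : d < 1) (hD0 : 0 < D0)
    (hc : 0 < c) (hc' : 0 < c') (s0 : ∀ x, σ 0 x = 1)
    (hs : ∀ n x, c * σ n x ≤ σ (n + 1) x ∧ σ (n + 1) x ≤ σ n x / 2)
    (he : ∀ x y, x ≠ y → ∃ n : ℕ, g * (D0 * d ^ (n + 1)) ≤ D x y ∧ D x y ≤ 12 * (D0 * d ^ n) ∧
      c' * σ n x ≤ ‖F x - F y‖ ∧ ‖F x - F y‖ ≤ C * σ n x) : IsQS F := by
  obtain ⟨p, a, b, ha, hb, h⟩ := QS.scale hd hd1 hc s0 hs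
  have q : 0 < g * D0 * d := by positivity
  have hF : Continuous F := by
    refine continuous_iff_continuousAt.2 fun x => tendsto_iff_dist_tendsto_zero.2 ?_
    have t1 : Continuous fun y : T => K * dist x y / (g * D0 * d) := by fun_prop
    have t2 : Continuous fun y : T => |C| * ((K * dist x y / (g * D0 * d)) ^ a +
        (K * dist x y / (g * D0 * d)) ^ b) :=
      ((t1.rpow_const fun _ => Or.inr ha.le).add (t1.rpow_const fun _ => Or.inr hb.le)).const_mul _
    refine squeeze_zero (fun _ => dist_nonneg) (fun y => ?_)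
      (t2.tendsto' x 0 (by simp [ha.ne', hb.ne']))
    rcases eq_or_ne x y with rfl | hxy
    · simp [ha.ne', hb.ne']
    obtain ⟨n, h1, -, -, h4⟩ := he x y hxy
    have h5 := h x n 0 (K * dist x y / (g * D0 * d)) (by
      rw [pow_zero, mul_one, le_div_iff₀ q]
      rw [pow_succ] at h1
      linarith [hi x y])
    rw [s0, mul_one] at h5
    rw [dist_comm, dist_eq_norm]
    exact h4.trans (mul_le_mul (le_abs_self C) h5 (p n x).le (abs_nonneg C))
  have hI : Function.Injective F := fun x y e => by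
    by_contra hxy
    obtain ⟨n, -, -, h3, -⟩ := he x y hxy
    rw [e, sub_self, norm_zero] at h3
    exact h3.not_gt (mul_pos hc' (p n x))
  have hA : 0 < (|C| + 1) / c' := by positivity
  have hL : 0 < 12 * K / (g * d) := by positivity
  obtain ⟨η, hη⟩ := QS.eta (A := ⟨_, hA.le⟩) (L := ⟨_, hL.le⟩) ha hb hA hL
  refine ⟨(hF.isClosedEmbedding hI).isEmbedding, η, fun t _ x y z hxy => ?_⟩
  rcases eq_or_ne x y with rfl | h0
  · rw [dist_self]
    positivity
  have h0' : x ≠ z := by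
    rintro rfl
    rw [dist_self, mul_zero] at hxy
    exact hxy.not_gt (dist_pos.2 h0)
  obtain ⟨n, h1, -, -, h4⟩ := he x y h0
  obtain ⟨m, -, k2, k3, -⟩ := he x z h0'
  have h5 := h x n m (12 * K / (g * d) * t) (by
    have k5 := mul_le_mul_of_nonneg_left
      (hxy.trans (mul_le_mul_of_nonneg_left ((lo x z).trans k2) t.coe_nonneg)) hK.le
    refine le_of_mul_le_mul_right ?_ q
    have e : 12 * K / (g * d) * t * d ^ m * (g * D0 * d) = K * (t * (12 * (D0 * d ^ m))) := by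
      field_simp
    rw [pow_succ] at h1
    linarith [hi x y])
  rw [hη, dist_eq_norm, dist_eq_norm]
  change _ ≤ (|C| + 1) / c' * ((12 * K / (g * d) * t) ^ a + (12 * K / (g * d) * t) ^ b) * _
  have s1 : 0 ≤ (12 * K / (g * d) * t) ^ a + (12 * K / (g * d) * t) ^ b := by positivity
  generalize (12 * K / (g * d) * t) ^ a + (12 * K / (g * d) * t) ^ b = s at h5 s1 ⊢
  calc _ ≤ (|C| + 1) * (s * σ m x) :=
        h4.trans (mul_le_mul (by linarith [le_abs_self C]) h5 (p n x).le (by positivity))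
    _ = (|C| + 1) / c' * s * (c' * σ m x) := by field_simp
    _ ≤ _ := mul_le_mul_of_nonneg_left k3 (by positivity)

end QT
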