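import Pool.Agent.Lib.MP_b50536_gt.QT.L0

/-! Separation of children that are not adjacent. -/

namespace QT
open Set Metric Filter Topology
open scoped NNReal

variable {ι : Type*} [PartialOrder ι] {N M : ℕ} {t : LT ι N M} {A b : ι → ℂ}

namespace Sep

theorem b_ne (hN : 1 ≤ N) (J : LC t A b) {u : ι} (hu : u ∈ t.C) : b u ≠ 0 :=
  norm_pos_iff.1 ((pow_pos (ss_pos hN) _).trans_le (J.lo u hu))

/-- Cone separation after scaling by a sector element. -/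
theorem cs' {c a e : ℂ} (hc : Sect c) (h0 : c ≠ 0) (ha : a.im ≤ |a.re| / 4) (he : UU e) :
    ‖e‖ / 6 ≤ ‖c * a - e‖ ∧ ‖c‖ * ‖a‖ / 7 ≤ ‖c * a - e‖ := by
  obtain ⟨h1, h2⟩ := cs ha (hc.inv.mul_UU he)
  have e1 : c * a - e = c * (a - c⁻¹ * e) := by field_simp
  have e2 : ‖e‖ = ‖c‖ * ‖c⁻¹ * e‖ := by rw [← norm_mul, mul_inv_cancel_left₀ h0]
  have hp := norm_nonneg c
  rw [e1, norm_mul]
  constructor
  · rw [e2]
    nlinarith [mul_le_mul_of_nonneg_left h1 hp]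
  · nlinarith [mul_le_mul_of_nonneg_left h2 hp]

theorem low_bd (hN : 1 ≤ N) (J : LC t A b) {Z : ι} (hZ : Z ∈ t.C) (h0 : Z ≠ t.root) :
    ss N ^ (M + 1) ≤ ss N * ‖b (t.prev Z)‖ := by
  have hs := ss_pos hN
  have hs1 : ss N ≤ 1 := (ss_le hN).trans (by norm_num)
  have h1 := J.lo _ (t.prev_mem Z (Or.inl hZ) h0)
  have h2 := t.dep_succ Z (Or.inl hZ) h0
  have h3 := t.dep_lt Z hZ
  rw [pow_succ']
  exact mul_le_mul_of_nonneg_left
    ((pow_le_pow_of_le_one hs.le hs1 (by omega)).trans h1) hs.le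

theorem cmp (hN : 1 ≤ N) (R : RD t A b) (J : LC t A b) {u u' : ι} (hu : u ∈ t.C) (hu' : u' ∈ t.C)
    (h : u < u') (hn : t.prev u' ≠ u) {z z' : ℂ} (hz : z ∈ KK N) (hz' : z' ∈ KK N) :
    ss N ^ (M + 1) ≤ ‖A u + b u * z - (A u' + b u' * z')‖ := by
  obtain ⟨Z, hZ, h0, hp, hl⟩ := t.next' hu hu' h
  have hlt : Z < u' := lt_of_le_of_ne hl fun e => hn (e ▸ hp)
  have k1 := (J.sect u' hu').mul_KK hN hz'
  have he : UU (A u' - A Z + b u' * z') := (J.cone Z hZ u' hu' hl).add k1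
  have h1 := (cs' (J.sect u hu) (b_ne hN J hu) (KK_port hz (t.idx_lt Z (Or.inl hZ) h0)) he).1
  have e : A u + b u * z - (A u' + b u' * z') =
      b u * (z - PP N (t.idx Z)) - (A u' - A Z + b u' * z') := by
    rw [R.link Z hZ h0, hp]
    ring
  have h2 := (le_abs_self _).trans (Complex.abs_im_le_norm (A u' - A Z + b u' * z'))
  rw [Complex.add_im] at h2
  have h3 := J.rise Z hZ u' hu' hlt
  have h4 := k1.im0
  have hs := ss_pos hN
  have hs1 := ss_le hN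
  have h5 : ss N ^ M ≤ ‖b Z‖ :=
    (pow_le_pow_of_le_one hs.le (hs1.trans (by norm_num)) (t.dep_lt Z hZ)).trans (J.lo Z hZ)
  have h6 := pow_pos hs M
  rw [e, pow_succ]
  nlinarith

theorem tiny_norm (hN : 1 ≤ N) (R : RD t A b) {Z : ι} (h : Tiny t Z) :
    ‖b Z‖ = ss N * ‖b (t.prev Z)‖ := by
  rw [R.bS Z h, norm_mul, Complex.norm_real, Real.norm_eq_abs, abs_of_pos (ss_pos hN)]

theorem side (hN : 1 ≤ N) (R : RD t A b) (I : LA t A b) (J : LC t A b) {u u' Z Z' : ι}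
    (hu : u ∈ t.C) (hu' : u' ∈ t.C) (hZ : Z ∈ t.C) (hZ' : Z' ∈ t.C) (h0 : Z ≠ t.root)
    (h0' : Z' ≠ t.root) (hp : t.prev Z = t.prev Z') (hne : Z ≠ Z') (hl : Z ≤ u) (hl' : Z' ≤ u')
    (hT : ∀ y ∈ t.C, Z ≤ y → y ≤ u → Tiny t y) {z z' : ℂ} (hz : z ∈ KK N) (hz' : z' ∈ KK N) :
    ss N ^ (M + 1) ≤ ‖A u + b u * z - (A u' + b u' * z')‖ := by
  have hY := t.prev_mem Z (Or.inl hZ) h0
  have h1 := I.tiny Z hZ u hu hl fun y hy a c => hT y hy a.le c
  rw [tiny_norm hN R (hT Z hZ le_rfl hl)] at h1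
  have h2 : ‖A u + b u * z - A Z‖ ≤ ‖A u - A Z‖ + ‖b u‖ * 2 := by
    rw [show A u + b u * z - A Z = A u - A Z + b u * z by ring]
    refine (norm_add_le _ _).trans ?_
    rw [norm_mul]
    have := mul_le_mul_of_nonneg_left (KK_norm hN hz) (norm_nonneg (b u))
    linarith
  have he : UU (A u' - A Z' + b u' * z') :=
    (J.cone Z' hZ' u' hu' hl').add ((J.sect u' hu').mul_KK hN hz')
  have h3 := (cs' (a := PP N (t.idx Z) - PP N (t.idx Z')) (J.sect _ hY) (b_ne hN J hY)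
    (by simp only [Complex.sub_im, PP_im, sub_self]; positivity) he).2
  have hi : t.idx Z ≠ t.idx Z' := fun e =>
    hne (t.idx_inj Z (Or.inl hZ) Z' (Or.inl hZ') h0 h0' hp e)
  have het := et_pos hN
  have h4 : et N ≤ ‖PP N (t.idx Z) - PP N (t.idx Z')‖ := by
    refine le_trans ?_ (Complex.abs_re_le_norm _)
    rw [Complex.sub_re, PP_re, PP_re, ← sub_mul, abs_mul, abs_of_pos het]
    have : (1 : ℝ) ≤ |(t.idx Z : ℝ) - t.idx Z'| := by
      have : (1 : ℤ) ≤ |(t.idx Z : ℤ) - t.idx Z'| := Int.one_le_abs (by omega)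
      exact_mod_cast this
    nlinarith
  have e : b (t.prev Z) * (PP N (t.idx Z) - PP N (t.idx Z')) - (A u' - A Z' + b u' * z') =
      (A u + b u * z - (A u' + b u' * z')) - (A u + b u * z - A Z) := by
    rw [R.link Z hZ h0, R.link Z' hZ' h0', ← hp]
    ring
  rw [e] at h3
  have h5 := norm_sub_le (A u + b u * z - (A u' + b u' * z')) (A u + b u * z - A Z)
  have h6 := low_bd hN J hZ h0
  have h7 : et N = 100 * ss N := by unfold et ss; ring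
  have h8 := mul_le_mul_of_nonneg_left h4 (norm_nonneg (b (t.prev Z)))
  have h9 := norm_nonneg (b u)
  have h10 := mul_nonneg (ss_pos hN).le (norm_nonneg (b (t.prev Z)))
  rw [h7] at h8
  nlinarith

theorem low_of_le {W y : ι} (h : Low t W) (hy : y ∈ t.C) (hl : y ≤ W) : Low t y :=
  ⟨hy, fun ⟨z, w, a1, a2, a3⟩ => h.2 ⟨z, w, a1, a2, a3.trans hl⟩⟩

/-- The exit of a lane is close to the sibling below it. -/
theorem exit (hN : 1 ≤ N) (R : RD t A b) (I : LA t A b) {Z z w : ι} (hZ : Z ∈ t.C)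
    (h0 : Z ≠ t.root) (h : Ln t z w) (hd : t.dep w = t.dep z + LL N) (hl : Z ≤ z)
    (hk : ∀ y, Z ≤ y → ¬ Tk t y) :
    Low t (t.prev Z) ∧ ‖A z - A Z‖ ≤ 3 * (ss N * ‖b (t.prev Z)‖) := by
  have hlow := (I.exit z w h hd).1
  have hz := h.1
  have hY := t.prev_mem Z (Or.inl hZ) h0
  have hYZ := t.prev_lt Z (Or.inl hZ) h0
  refine ⟨low_of_le hlow hY (t.prev_max z (Or.inl hz) h.ne_root _ hY (hYZ.trans_le hl)), ?_⟩
  rcases hl.eq_or_lt with e | e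
  · rw [e, sub_self, norm_zero]
    have := ss_pos hN
    positivity
  · have h1 := t.prev_max z (Or.inl hz) h.ne_root Z hZ e
    have hT : ∀ y ∈ t.C, Z ≤ y → y ≤ t.prev z → Tiny t y := fun y hy a c =>
      ((low_of_le hlow hy c).prev (t.ne_root_of_lt hY (hYZ.trans_le a))).2.resolve_left (hk y a)
    have h2 := I.tiny Z hZ _ hlow.1 h1 fun y hy a c => hT y hy a.le c
    rw [tiny_norm hN R (hT Z hZ le_rfl h1)] at h2
    rw [R.link z hz h.ne_root, show A (t.prev z) + b (t.prev z) * PP N (t.idx z) - A Z =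
      A (t.prev z) - A Z + b (t.prev z) * PP N (t.idx z) by ring]
    refine (norm_add_le _ _).trans ?_
    rw [norm_mul]
    have h3 := mul_le_mul_of_nonneg_left (PP_norm hN (t.idx_lt z (Or.inl hz) h.ne_root).le)
      (norm_nonneg (b (t.prev z)))
    have h4 := norm_nonneg (b (t.prev z))
    linarith

/-- The real inequality behind the separation of two lanes. -/
theorem lane_ineq {τ η i i' x x' y y' : ℝ} (hτ : 0 < τ) (hη : 0 < η) (hi : 0 ≤ i) (h : i + 1 ≤ i')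
    (hb : i' * η ≤ τ / 4) (hy' : 0 ≤ y')
    (h1 : |x - i * η * min (y / (2 * τ)) 1| ≤ η / 4 * min (y / (2 * τ)) 1)
    (h2 : |x' - i' * η * min (y' / (2 * τ)) 1| ≤ η / 4 * min (y' / (2 * τ)) 1) :
    x - x' ≤ |y - y'| / 8 := by
  have a1 : min (y / (2 * τ)) 1 - min (y' / (2 * τ)) 1 ≤ |y - y'| / (2 * τ) := by
    refine (le_abs_self _).trans ((abs_min_sub_min_le_max _ _ _ _).trans ?_)
    rw [sub_self, abs_zero, ← sub_div, abs_div, abs_of_pos (by positivity : 0 < 2 * τ)]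
    exact max_le le_rfl (by positivity)
  have a2 : 0 ≤ min (y' / (2 * τ)) 1 := le_min (by positivity) one_pos.le
  generalize min (y / (2 * τ)) 1 = ψ at *
  generalize min (y' / (2 * τ)) 1 = ψ' at *
  have a3 := (abs_le.1 h1).2
  have a4 := (abs_le.1 h2).1
  have a5 : 0 ≤ |y - y'| / (2 * τ) := by positivity
  have a6 : |y - y'| / 8 = τ / 4 * (|y - y'| / (2 * τ)) := by field_simp; ring
  have a7 : (i + 1 / 4) * η * (ψ - ψ') ≤ (i + 1 / 4) * η * (|y - y'| / (2 * τ)) :=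
    mul_le_mul_of_nonneg_left a1 (by positivity)
  have a8 : (i + 1 / 4) * η ≤ τ / 4 := by nlinarith
  have a9 := mul_le_mul_of_nonneg_right a8 a5
  have a10 : 0 ≤ (i' - i - 1 / 2) * (η * ψ') := mul_nonneg (by linarith) (by positivity)
  rw [a6]
  nlinarith

theorem no_common {Z Z' : ι} (hZ : Z ∈ t.C) (hZ' : Z' ∈ t.C) (h0 : Z ≠ t.root)
    (h0' : Z' ≠ t.root) (hp : t.prev Z = t.prev Z') (hne : Z ≠ Z') {w : ι} (h : Z ≤ w)
    (h' : Z' ≤ w) : False := by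
  have h1 := t.dep_succ Z (Or.inl hZ) h0
  have h2 := t.dep_succ Z' (Or.inl hZ') h0'
  rw [← hp] at h2
  exact hne (le_antisymm (t.le_of_dep hZ hZ' h h' (by omega)) (t.le_of_dep hZ' hZ h' h (by omega)))

/-- Above a sibling that leads to a port, while the other one does too, there is a needle. -/
theorem needle {Z Z' y w' : ι} (hZ : Z ∈ t.C) (hZ' : Z' ∈ t.C) (h0 : Z ≠ t.root)
    (h0' : Z' ≠ t.root) (hp : t.prev Z = t.prev Z') (hne : Z ≠ Z') (hy : y ∈ t.C) (hl : Z ≤ y)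
    (hT : ¬ Tiny t y) (hw' : w' ∈ t.O) (hl' : Z' ≤ w') :
    (∀ y, Z ≤ y → ¬ Tk t y) ∧ ∃ z w, Hi t y z w ∧ Z ≤ z := by
  have hk : ∀ y, Z ≤ y → ¬ Tk t y := by
    rintro y a ⟨k1, k2, k3, w, k4, k5⟩
    exact no_common hZ hZ' h0 h0' hp hne
      (a.trans (t.long2 k1 w k4 w' hw' y k2 (by omega) k5).le) hl'
  have hY := t.prev_mem Z (Or.inl hZ) h0
  have hn := t.ne_root_of_lt hY ((t.prev_lt Z (Or.inl hZ) h0).trans_le hl)
  obtain ⟨w, hw⟩ : ∃ w, Ln t y w := by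
    by_contra c
    exact hT ⟨hy, hn, c, hk y hl⟩
  obtain ⟨z, hz⟩ := hw.hi
  refine ⟨hk, z, w, hz, ?_⟩
  rcases t.chain Z z y hl hz.2.2 with e | e
  · exact e
  rcases e.eq_or_lt with e | e
  · exact e.ge
  have h1 := t.prev_max Z (Or.inl hZ) h0 z hz.1.1 e
  have h2 : z < w' := h1.trans_lt (hp ▸ (t.prev_lt Z' (Or.inl hZ') h0').trans_le hl')
  exact (no_common hZ hZ' h0 h0' hp hne (hl.trans hw.2.2.1.le) (hz.1.only hw' h2 ▸ hl')).elim

theorem port {y : ι} (hy : y ∈ t.C) (hn : y ≠ t.root) (hT : ¬ Tiny t y) : ∃ w ∈ t.O, y < w := by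
  by_contra c
  exact hT ⟨hy, hn, fun ⟨w, hw⟩ => c ⟨w, hw.2.1, hw.2.2.1⟩, fun hk => c hk.2.2.2⟩

theorem lanes (hN : 1 ≤ N) (R : RD t A b) (I : LA t A b) (J : LC t A b) (H : Hull t A b)
    {u u' Z Z' y y' : ι} (hu : u ∈ t.C) (hu' : u' ∈ t.C) (hZ : Z ∈ t.C) (hZ' : Z' ∈ t.C)
    (h0 : Z ≠ t.root) (h0' : Z' ≠ t.root) (hp : t.prev Z = t.prev Z') (hne : Z ≠ Z')
    (hi : t.idx Z < t.idx Z') (hy : y ∈ t.C) (hy' : y' ∈ t.C) (l1 : Z ≤ y) (l2 : y ≤ u)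
    (l1' : Z' ≤ y') (l2' : y' ≤ u') (hT : ¬ Tiny t y) (hT' : ¬ Tiny t y') {k k' : ℂ}
    (hk : k ∈ KK N) (hk' : k' ∈ KK N) :
    ss N ^ (M + 1) ≤ ‖A u + b u * k - (A u' + b u' * k')‖ := by
  have hY := t.prev_mem Z (Or.inl hZ) h0
  have hY' := t.prev_mem Z' (Or.inl hZ') h0'
  obtain ⟨v, hv, lv⟩ := port hy (t.ne_root_of_lt hY ((t.prev_lt Z (Or.inl hZ) h0).trans_le l1)) hT
  obtain ⟨v', hv', lv'⟩ :=
    port hy' (t.ne_root_of_lt hY' ((t.prev_lt Z' (Or.inl hZ') h0').trans_le l1')) hT'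
  obtain ⟨k1, z, w, ⟨a1, a2, a3⟩, a4⟩ :=
    needle hZ hZ' h0 h0' hp hne hy l1 hT hv' (l1'.trans lv'.le)
  obtain ⟨k1', z', w', ⟨a1', a2', a3'⟩, a4'⟩ :=
    needle hZ' hZ h0' h0 hp.symm hne.symm hy' l1' hT' hv (l1.trans lv.le)
  obtain ⟨hlow, e1⟩ := exit hN R I hZ h0 a1 a2 a4 k1
  have e1' := (exit hN R I hZ' h0' a1' a2' a4' k1').2
  rw [← hp] at e1'
  obtain ⟨β, b0, -, b1, -⟩ := I.low _ hlow
  have h6 := low_bd hN J hZ h0
  have nb : ‖b (t.prev Z)‖ = β := by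
    rw [b1, Complex.norm_real, Real.norm_eq_abs, abs_of_pos b0]
  rw [nb] at e1 e1' h6
  have hI := t.compat w a1.2.1 w' a1'.2.1 Z (Or.inl hZ) Z' (Or.inl hZ') h0 h0'
    (a4.trans a1.2.2.1.le) (a4'.trans a1'.2.2.1.le) hp hi
  have H1 := H u hu z w ⟨a1, a2, a3.trans l2⟩ k hk
  have H2 := H u' hu' z' w' ⟨a1', a2', a3'.trans l2'⟩ k' hk'
  have key := lane_ineq (th_pos hN) (et_pos hN) (Nat.cast_nonneg _) (by exact_mod_cast hI)
    (j_et hN (t.Idx_lt w' a1'.2.1).le) H2.1 H1.2 H2.2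
  have eA : A Z' - A Z = β * (PP N (t.idx Z') - PP N (t.idx Z)) := by
    rw [R.link Z hZ h0, R.link Z' hZ' h0', ← hp, b1]
    ring
  have r1 := congrArg Complex.re eA
  have r2 := congrArg Complex.im eA
  simp only [Complex.sub_re, Complex.sub_im, Complex.mul_re, Complex.mul_im, Complex.ofReal_re,
    Complex.ofReal_im, PP_re, PP_im, sub_self, mul_zero, zero_mul, sub_zero, add_zero] at r1 r2
  generalize A u + b u * k = P at *
  generalize A u' + b u' * k' = P' at *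
  have c1 := abs_le.1 ((Complex.abs_re_le_norm _).trans e1)
  have c2 := abs_le.1 ((Complex.abs_im_le_norm _).trans e1)
  have c3 := abs_le.1 ((Complex.abs_re_le_norm _).trans e1')
  have c4 := abs_le.1 ((Complex.abs_im_le_norm _).trans e1')
  have c5 := abs_le.1 (Complex.abs_re_le_norm (P - P'))
  have c6 := abs_le.1 (Complex.abs_im_le_norm (P - P'))
  simp only [Complex.sub_re, Complex.sub_im] at c1 c2 c3 c4 c5 c6 key
  have c7 : |P.im - (A z).im - (P'.im - (A z').im)| ≤ ‖P - P'‖ + 6 * (ss N * β) :=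
    abs_le.2 ⟨by linarith, by linarith⟩
  have h7 : et N = 100 * ss N := by unfold et ss; ring
  have h8 : (t.idx Z : ℝ) + 1 ≤ t.idx Z' := by exact_mod_cast hi
  have h9 := mul_pos (ss_pos hN) b0
  have h10 := mul_le_mul_of_nonneg_right h8 h9.le
  rw [h7] at r1
  nlinarith

end Sep

open _root_.QT.Sep in
theorem lsep (hN : 1 ≤ N) (R : RD t A b) (I : LA t A b) (J : LC t A b) (H : Hull t A b) :
    ∀ u ∈ t.C, ∀ u' ∈ t.C, u ≠ u' → ¬ (u' ≠ t.root ∧ t.prev u' = u) →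
      ¬ (u ≠ t.root ∧ t.prev u = u') → ∀ z ∈ KK N, ∀ z' ∈ KK N,
        ss N ^ (M + 1) ≤ ‖A u + b u * z - (A u' + b u' * z')‖ := by
  intro u hu u' hu' hne n1 n2 z hz z' hz'
  by_cases c1 : u ≤ u'
  · have h := lt_of_le_of_ne c1 hne
    exact cmp hN R J hu hu' h (fun e => n1 ⟨t.ne_root_of_lt hu h, e⟩) hz hz'
  by_cases c2 : u' ≤ u
  · have h := lt_of_le_of_ne c2 hne.symm
    rw [norm_sub_rev]
    exact cmp hN R J hu' hu h (fun e => n2 ⟨t.ne_root_of_lt hu' h, e⟩) hz' hz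
  obtain ⟨Z, hZ, Z', hZ', h0, h0', hp, hn, hl, hl'⟩ := t.div hu' u hu c1 c2
  by_cases d1 : ∀ y ∈ t.C, Z ≤ y → y ≤ u → Tiny t y
  · exact side hN R I J hu hu' hZ hZ' h0 h0' hp hn hl hl' d1 hz hz'
  by_cases d2 : ∀ y ∈ t.C, Z' ≤ y → y ≤ u' → Tiny t y
  · rw [norm_sub_rev]
    exact side hN R I J hu' hu hZ' hZ h0' h0 hp.symm hn.symm hl' hl d2 hz' hz
  simp only [not_forall] at d1 d2
  obtain ⟨y, hy, l1, l2, hT⟩ := d1
  obtain ⟨y', hy', l1', l2', hT'⟩ := d2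
  have hi : t.idx Z ≠ t.idx Z' := fun e =>
    hn (t.idx_inj Z (Or.inl hZ) Z' (Or.inl hZ') h0 h0' hp e)
  rcases lt_or_gt_of_ne hi with h | h
  · exact lanes hN R I J H hu hu' hZ hZ' h0 h0' hp hn h hy hy' l1 l2 l1' l2' hT hT' hz hz'
  · rw [norm_sub_rev]
    exact lanes hN R I J H hu' hu hZ' hZ h0' h0 hp.symm hn.symm h hy' hy l1' l2' l1 l2 hT' hT
      hz' hz

end QT
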