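import Pool.Agent.Lib.MP_b50536_gt.QT.L0

/-! Layout: the children lie in the kite and stay away from the ports. -/

namespace QT
open Set Metric Filter Topology
open scoped NNReal

variable {ι : Type*} [PartialOrder ι] {N M : ℕ} {t : LT ι N M} {A b : ι → ℂ}

namespace Sub

theorem gap {J j : ℕ} (h : J ≠ j) {e x : ℝ} (he : 0 ≤ e) : e - |x| ≤ |J * e + x - j * e| := by
  have h1 : (1 : ℝ) ≤ |(J : ℝ) - j| := by
    have : (1 : ℤ) ≤ |(J : ℤ) - j| := Int.one_le_abs (sub_ne_zero.2 (by exact_mod_cast h))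
    exact_mod_cast this
  have h2 : e ≤ |((J : ℝ) - j) * e| := by
    rw [abs_mul, abs_of_nonneg he]; nlinarith
  have h3 := abs_sub (((J : ℝ) - j) * e + x) x
  rw [add_sub_cancel_right] at h3
  rw [show (J : ℝ) * e + x - j * e = (J - j) * e + x by ring]
  linarith

theorem im_le (z : ℂ) : z.im ≤ ‖z‖ := (le_abs_self _).trans (Complex.abs_im_le_norm z)

/-- The position of a drawn point with respect to the top of the kite. -/
theorem top (hN : 1 ≤ N) (R : RD t A b) (I : LA t A b) (J : LC t A b) {u z w : ι} (hu : u ∈ t.C)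
    (h : Hi t u z w) {k : ℂ} (hk : k ∈ KK N) : (A u + b u * k).im ≤ 1 - th N ∨ ∀ j : ℕ,
      (A u + b u * k).im - 1 ≤ |(A u + b u * k).re - j * et N| / 4 ∧
      (97 * th N ^ 3 ≤ |(A u + b u * k).re - j * et N| ∨ (u = t.prev w ∧ t.Idx w = j)) := by
  have t0 := th_pos hN
  have t1 := th_le hN
  have k0 := KK_im0 hN hk
  have k1 := KK_im hN hk
  have k2 := KK_norm hN hk
  have k3 := KK_top hN hk
  have k4 := hk.1
  have s0 : ss N = th N ^ 2 / 2 := rfl
  have r0 : rho N = 2 * th N := rfl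
  have e0 : et N = 50 * th N ^ 2 := rfl
  have q2 : 0 < th N ^ 2 := by positivity
  have q3 : 0 < th N ^ 3 := by positivity
  have q4 : th N ^ 2 ≤ th N / 200 := by nlinarith
  have q5 : th N ^ 3 ≤ th N ^ 2 / 200 := by nlinarith
  obtain ⟨Y, hY, -, -, hs⟩ := J.shape u hu z w h
  have d1 := hY.dep.2
  have d2 := hY.2.2.2
  have hL : 1 < LL N := by unfold LL; omega
  by_cases c1 : t.dep w = t.dep Y + LL N
  · left
    have a1 := J.needle Y w hY c1
    have a2 := (im_le _).trans (I.exit Y w hY c1).2.1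
    simp only [Complex.sub_im, hO] at a2
    rcases hs with rfl | ⟨Z, z1, z2, z3, -, -, z6⟩
    · have a3 := im_le (b u * k)
      rw [norm_mul] at a3
      have : ‖b u‖ * ‖k‖ ≤ 3 * th N * 2 := by gcongr
      rw [Complex.add_im]
      linarith
    · have a3 := (im_le _).trans (z6 k hk)
      have a4 := im_le (b Y * PP N (t.idx Z))
      rw [norm_mul] at a4
      have : ‖b Y‖ * ‖PP N (t.idx Z)‖ ≤ 3 * th N * 2 := by
        gcongr
        exact PP_norm hN (t.idx_lt Z (Or.inl z1) z2).le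
      have : 3 * ss N * ‖b Y‖ ≤ 3 * ss N * (3 * th N) := by rw [s0]; gcongr
      rw [R.link Z z1 z2, z3, Complex.sub_im, Complex.add_im (A Y)] at a3
      nlinarith
  have a1 := I.lane Y w hY (by omega)
  by_cases c2 : t.dep w = t.dep Y + 1
  swap
  · left
    have a2 := R.bL Y w hY (by omega) (by omega)
    have l0 : lam N = th N - 12 * th N ^ 2 := rfl
    have l1 : 0 ≤ lam N := by linarith
    have a3 : (A Y).im ≤ 1 - rho N - lam N := by
      have : ((t.dep Y + 2 : ℕ) : ℝ) ≤ t.dep w := by exact_mod_cast (by omega)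
      push_cast at this
      rw [a1]
      nlinarith
    rcases hs with rfl | ⟨Z, z1, z2, z3, -, -, z6⟩
    · rw [a2, Complex.add_im, Complex.im_ofReal_mul]
      nlinarith
    · have a4 := (im_le _).trans (z6 k hk)
      rw [R.link Z z1 z2, z3, Complex.sub_im, Complex.add_im (A Y), a2, Complex.im_ofReal_mul,
        Complex.norm_real, Real.norm_of_nonneg l1, PP_im] at a4
      nlinarith
  right
  have a2 := R.bT Y w hY c2
  have a3 : (A Y).re = t.Idx w * et N := by rw [a1]
  have a4 : (A Y).im = 1 - rho N := by rw [a1, c2]; push_cast; ring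
  intro j
  rcases hs with rfl | ⟨Z, z1, z2, z3, -, z5, z6⟩
  · rw [a2, Complex.add_im, Complex.add_re, Complex.im_ofReal_mul, Complex.re_ofReal_mul, a3, a4]
    have b1 : |rho N * k.re| = rho N * |k.re| := by rw [abs_mul, abs_of_nonneg (by linarith)]
    by_cases e : t.Idx w = j
    · refine ⟨?_, Or.inr ⟨hY.eq_prev c2, e⟩⟩
      rw [e, add_sub_cancel_left, b1]
      nlinarith
    · have b2 := gap e (x := rho N * k.re) (et_pos hN).le
      have b3 : |k.re| ≤ 2 * th N := by nlinarith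
      have b4 : rho N * |k.re| ≤ 4 * th N ^ 2 := by nlinarith
      have b5 : rho N * k.im ≤ rho N + th N ^ 2 := by nlinarith
      exact ⟨by linarith, Or.inl (by linarith)⟩
  · have b0 := z6 k hk
    have b1 := (im_le _).trans b0
    have b2 := (Complex.abs_re_le_norm _).trans b0
    rw [R.link Z z1 z2, z3, a2, Complex.norm_real, Real.norm_of_nonneg (by linarith)] at b1 b2
    rw [Complex.sub_im, Complex.add_im (A Y), Complex.im_ofReal_mul, PP_im, a4] at b1
    rw [Complex.sub_re, Complex.add_re (A Y), Complex.re_ofReal_mul, PP_re, a3] at b2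
    have b3 : 3 * ss N * rho N = 3 * th N ^ 3 := by rw [s0, r0]; ring
    have i1 : (1 : ℝ) ≤ t.idx Z := by exact_mod_cast z5
    have i2 := j_et hN (t.idx_lt Z (Or.inl z1) z2).le
    have i3 : et N ≤ t.idx Z * et N := by nlinarith
    have i4 : 100 * th N ^ 3 ≤ rho N * (t.idx Z * et N) := by nlinarith
    have i5 : rho N * (t.idx Z * et N) ≤ th N ^ 2 / 2 := by nlinarith
    generalize rho N * (t.idx Z * et N) = y at *
    generalize (A u + b u * k).re = x at *
    have b4 := abs_le.1 b2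
    have b5 : 97 * th N ^ 3 ≤ |x - j * et N| := by
      by_cases e : t.Idx w = j
      · rw [← e]
        exact le_trans (by linarith) (le_abs_self _)
      · have b6 := gap e (x := x - t.Idx w * et N) (et_pos hN).le
        have b7 : |x - t.Idx w * et N| ≤ th N ^ 2 := abs_le.2 ⟨by linarith, by linarith⟩
        rw [add_sub_cancel] at b6
        linarith
    exact ⟨by linarith, Or.inl b5⟩

theorem low (hN : 1 ≤ N) (I : LA t A b) {u : ι} (hu : Low t u) {k : ℂ} (hk : k ∈ KK N) :
    |(A u + b u * k).re| ≤ th N * (A u + b u * k).im ∧ (A u + b u * k).im ≤ 1 - th N := by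
  obtain ⟨β, b0, b1, b2, b3, b4⟩ := I.low u hu
  have t1 := th_le hN
  have k1 := KK_im hN hk
  have k4 := hk.1
  rw [b2, Complex.add_im, Complex.add_re, Complex.im_ofReal_mul, Complex.re_ofReal_mul]
  refine ⟨(abs_add_le _ _).trans ?_, by nlinarith⟩
  rw [abs_mul, abs_of_pos b0]
  nlinarith

theorem cone (hN : 1 ≤ N) (I : LA t A b) (H : Hull t A b) {u z w : ι} (hu : u ∈ t.C)
    (h : Hi t u z w) {k : ℂ} (hk : k ∈ KK N) :
    |(A u + b u * k).re| ≤ th N * (A u + b u * k).im := by
  have t0 := th_pos hN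
  have t1 := th_le hN
  obtain ⟨h1, h2⟩ := H u hu z w h k hk
  obtain ⟨-, a1, a2, -⟩ := I.exit z w h.1 h.2.1
  have a3 := (Complex.abs_re_le_norm _).trans a1
  have m1 := min_le_right ((A u + b u * k - A z).im / (2 * th N)) 1
  have m0 : 0 ≤ min ((A u + b u * k - A z).im / (2 * th N)) 1 := le_min (by positivity) zero_le_one
  generalize min ((A u + b u * k - A z).im / (2 * th N)) 1 = ψ at *
  have j1 := j_et hN (t.Idx_lt w h.1.2.1)
  have j0 := j_et0 hN (t.Idx w)
  have e0 := et_pos hN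
  push_cast at j1
  simp only [Complex.sub_re, Complex.sub_im, hO, ss, sub_zero] at *
  generalize A u + b u * k = p at *
  have b1 := abs_le.1 h2
  have b2 := abs_le.1 a3
  have c1 : t.Idx w * et N * ψ ≤ t.Idx w * et N := by nlinarith
  have c2 : 0 ≤ t.Idx w * et N * ψ := by positivity
  have c3 : et N / 4 * ψ ≤ et N / 4 := by nlinarith
  have c4 : th N / 2 ≤ th N * p.im := by nlinarith
  have c5 : th N ^ 2 ≤ th N / 200 := by nlinarith
  exact abs_le.2 ⟨by linarith, by linarith⟩

end Sub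

theorem lsub (hN : 1 ≤ N) (R : RD t A b) (I : LA t A b) (J : LC t A b) (H : Hull t A b) :
    (∀ u ∈ t.C, ∀ z ∈ KK N, A u + b u * z ∈ KK N) ∧
    (∀ w ∈ t.O, ∀ u ∈ t.C, u ≠ t.prev w → ∀ z ∈ KK N,
      ss N ^ 2 ≤ ‖A u + b u * z - PP N (t.Idx w)‖) ∧
    (t.md → ∀ u ∈ t.C, u ≠ t.root → ∀ z ∈ KK N, ss N ^ 2 ≤ ‖A u + b u * z‖) := by
  have t0 := th_pos hN
  have t1 := th_le hN
  have s0 : ss N ^ 2 = th N ^ 3 * (th N / 4) := by unfold ss; ring
  have q3 : 0 < th N ^ 3 := by positivity
  have q2 : th N ^ 2 ≤ 1 := by nlinarith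
  have q4 : th N ^ 3 ≤ th N := by nlinarith
  have s1 : ss N ^ 2 ≤ th N ^ 3 := by nlinarith
  refine ⟨fun u hu k hk => ?_, fun w hw u hu hne k hk => ?_, fun hm u hu hne k hk => ?_⟩
  · have f : (A u + b u * k).im ≤ 1 - th N → ∀ j < N,
        (A u + b u * k).im - 1 ≤ |(A u + b u * k).re - j * et N| / 4 := fun h j _ => by
      have := abs_nonneg ((A u + b u * k).re - j * et N)
      linarith
    by_cases h : ∃ z w, Hi t u z w
    · obtain ⟨z, w, h⟩ := h
      exact ⟨Sub.cone hN I H hu h hk,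
        (Sub.top hN R I J hu h hk).elim f fun g j _ => (g j).1⟩
    · exact ⟨(Sub.low hN I ⟨hu, h⟩ hk).1, f (Sub.low hN I ⟨hu, h⟩ hk).2⟩
  · have f : (A u + b u * k).im ≤ 1 - th N → ss N ^ 2 ≤ ‖A u + b u * k - PP N (t.Idx w)‖ :=
      fun h => by
        have h1 := Complex.abs_im_le_norm (A u + b u * k - PP N (t.Idx w))
        have h2 := neg_abs_le (A u + b u * k - PP N (t.Idx w)).im
        rw [Complex.sub_im, PP_im] at h1 h2
        linarith
    by_cases h : ∃ z w, Hi t u z w
    · obtain ⟨z, w', h⟩ := h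
      refine (Sub.top hN R I J hu h hk).elim f fun g => ?_
      rcases (g (t.Idx w)).2 with g | ⟨g1, g2⟩
      · have h1 := Complex.abs_re_le_norm (A u + b u * k - PP N (t.Idx w))
        rw [Complex.sub_re, PP_re] at h1
        linarith
      · exact absurd (t.Idx_inj w' h.1.2.1 w hw g2 ▸ g1) hne
    · exact f (Sub.low hN I ⟨hu, h⟩ hk).2
  · obtain ⟨a1, a2⟩ := R.r1 hm
    have h1 := J.rise t.root t.root_mem u hu ((t.root_le u (Or.inl hu)).lt_of_ne hne.symm)
    have h2 := ((J.sect u hu).mul_KK hN hk).im0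
    have h3 := Sub.im_le (A u + b u * k)
    rw [a1, a2, sub_zero, Complex.norm_real, rho, Real.norm_of_nonneg (by linarith)] at h1
    rw [Complex.add_im] at h3
    linarith

end QT
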