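import Pool.Agent.Lib.MP_b50536_gt.QT.Tree
import Pool.Agent.Lib.MP_b50536_gt.QT.Avo
import Pool.Agent.Lib.MP_b50536_gt.QT.Net
import Pool.Agent.Lib.MP_b50536_gt.QT.Pri
import Pool.Agent.Lib.MP_b50536_gt.QT.Ord
import Pool.Agent.Lib.MP_b50536_gt.QT.La
import Pool.Agent.Lib.MP_b50536_gt.QT.Lc
import Pool.Agent.Lib.MP_b50536_gt.QT.Hull
import Pool.Agent.Lib.MP_b50536_gt.QT.Sep
import Pool.Agent.Lib.MP_b50536_gt.QT.Sub
import Pool.Agent.Lib.MP_b50536_gt.QT.Lle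
import Pool.Agent.Lib.MP_b50536_gt.QT.Glue
import Pool.Agent.Lib.MP_b50536_gt.QT.Est
import Pool.Agent.Lib.MP_b50536_gt.QT.QS
import Pool.Agent.Lib.MP_b50536_gt.QT.Len
import Pool.Agent.Lib.MP_b50536_gt.QT.QC

/-! Assembly. -/

namespace QT
open Set Metric Filter Topology
open scoped NNReal

theorem lay {N : ℕ} (hN : 1 ≤ N) (M : ℕ) {ι : Type*} [PartialOrder ι] (t : LT ι N M) :
    ∃ (A b : ι → ℂ) (Len : ι → ℝ), LO t (ss N ^ (M + 1)) A b Len := by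
  obtain ⟨A, b, R⟩ := rd hN t
  have I := la hN R
  have J := lc hN R I
  have H := hull hN R I J
  obtain ⟨s1, s2, s3⟩ := lsub hN R I J H
  obtain ⟨p1, Len, l0, l1, l2⟩ := llen hN R I J
  have hs := ss_pos hN
  have hs1 : ss N ≤ 1 := (ss_le hN).trans (by norm_num)
  have hM : 0 < M := lt_of_le_of_lt (Nat.zero_le _) (t.dep_lt _ t.root_mem)
  have h2 : ss N ^ (M + 1) ≤ ss N ^ 2 := pow_le_pow_of_le_one hs.le hs1 (by omega)
  exact ⟨A, b, Len, s1, R.link, p1, R.r1, fun w hw => R.bT _ w (ln_prev t hw).1 (ln_prev t hw).2,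
    fun u hu => (pow_le_pow_of_le_one hs.le hs1 (by have := t.dep_lt u hu; omega)).trans (J.lo u hu),
    J.hi, J.ratio, lsep hN R I J H, fun w hw u hu h z hz => h2.trans (s2 w hw u hu h z hz),
    fun hm u hu h z hz => h2.trans (s3 hm u hu h z hz), l0, l1, l2⟩

theorem main (T : Type*) [MetricSpace T] [CompactSpace T] (hU : UniqueArcs T)
    (hD : Doubling T) (hK : BddTurning T) :
    ∃ F : T → ℂ, IsQS F ∧ QuasiConvex (range F) := by
  rcases isEmpty_or_nonempty T with hT | hT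
  · refine ⟨fun _ => 0, ⟨IsEmbedding.of_subsingleton _, Homeomorph.refl _, fun _ _ x => isEmptyElim x⟩,
      0, ?_⟩
    rintro _ ⟨x, -⟩
    exact isEmptyElim x
  obtain ⟨i1, i2, D, K, h⟩ := tree T hU hD hK
  obtain ⟨g, hg, hg1, hav⟩ := avo h
  obtain ⟨N, hN, hn⟩ := net h hg hg1
  have hL : (0 : ℝ) < 4 * ((LL N : ℝ) + 3) := by positivity
  have hL1 : (2 : ℝ) ≤ 4 * ((LL N : ℝ) + 3) := by
    have : (0 : ℝ) ≤ LL N := Nat.cast_nonneg _
    linarith
  set d := g / (4 * ((LL N : ℝ) + 3)) with hdd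
  have hd : 0 < d := div_pos hg hL
  have he : 4 * ((LL N : ℝ) + 3) * d = g := by rw [hdd]; field_simp
  have hdg : d ≤ g := by nlinarith
  have hd1 : d < 1 := by nlinarith
  obtain ⟨D0, hD0, M, ⟨S⟩⟩ := hn d hd hd1 (hav d hd hdg)
  obtain ⟨idx, i1', i2', i3', i4'⟩ := pri S h.chain
  have ht := ord h S hd hD0 he.le i1' i2' i3' i4'
  have hc : 0 < ss N ^ (M + 1) := by
    have : (0 : ℝ) < N := by exact_mod_cast hN
    unfold ss th; positivity
  obtain ⟨a, b, Len, G, hA⟩ := glue S hc idx ht (fun t => lay hN M t)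
  obtain ⟨F, hF, hs, c', C, hc', hE⟩ := est h S hN hd hd1 hD0 hc G hA
  have hq : IsQS F := qs (σ := fun n x => ‖BB S.p b n (S.p n x)‖) h.pos h.lo h.hi hg hd hd1 hD0 hc hc'
    (fun x => by simp [BB]) hs (fun x y hxy => by
      obtain ⟨n, -, h1⟩ := hE x y hxy
      exact ⟨n, h1⟩)
  obtain ⟨l1, l2⟩ := lb S h.chain hN G hA hF
  exact ⟨F, hq, qc h S hc hc' hA hq.1.continuous hE l1 l2⟩

end QT
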