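import Mathlib

/-! Planar quasisymmetric embedding of quasiconformal trees: definitions and block statements. -/

namespace QT
open Set Metric Filter Topology
open scoped NNReal

/-- `A` is an arc from `x` to `y` (the point `{x}` when `x = y`). -/
def IsArc {T : Type*} [TopologicalSpace T] (x y : T) (A : Set T) : Prop :=
  (x = y ∧ A = {x}) ∨ ∃ γ : Path x y, Function.Injective γ ∧ range γ = A

/-- Any two points are joined by a unique arc. -/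
def UniqueArcs (T : Type*) [TopologicalSpace T] : Prop := ∀ x y : T, ∃! A : Set T, IsArc x y A

/-- Every ball is covered by at most `N` balls of half the radius. -/
def Doubling (T : Type*) [MetricSpace T] : Prop :=
  ∃ N : ℕ, ∀ (x : T) (r : ℝ), 0 < r →
    ∃ S : Finset T, S.card ≤ N ∧ ball x r ⊆ ⋃ c ∈ S, ball c (r / 2)

/-- Bounded turning. -/
def BddTurning (T : Type*) [MetricSpace T] : Prop :=
  ∃ K : ℝ, 1 ≤ K ∧ ∀ (x y : T) (A : Set T), IsArc x y A → diam A ≤ K * dist x y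

/-- Quasisymmetric embedding into the plane. -/
def IsQS {T : Type*} [MetricSpace T] (F : T → ℂ) : Prop :=
  IsEmbedding F ∧ ∃ η : ℝ≥0 ≃ₜ ℝ≥0, ∀ t : ℝ≥0, 0 < t → ∀ x y z : T,
    dist x y ≤ t * dist x z → dist (F x) (F y) ≤ η t * dist (F x) (F z)

/-- Any two points of `S` are joined inside `S` by a curve of length at most `C` times
their distance. -/
def QuasiConvex (S : Set ℂ) : Prop :=
  ∃ C : ℝ, ∀ a ∈ S, ∀ b ∈ S, ∃ γ : Path a b,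
    range γ ⊆ S ∧ eVariationOn γ univ ≤ ENNReal.ofReal (C * dist a b)

/-! ### Rooted tree data -/

/-- Order form of a rooted quasiconformal tree (`⊥` the root, `D x y` the diameter of the arc). -/
structure TA (T : Type*) [MetricSpace T] [SemilatticeInf T] [OrderBot T]
    (D : T → T → ℝ) (K : ℝ) : Prop where
  pos : 0 < K
  chain : ∀ a b c : T, a ≤ c → b ≤ c → a ≤ b ∨ b ≤ a
  symm : ∀ x y, D x y = D y x
  tri : ∀ x y z, D x z ≤ D x y + D y z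
  lo : ∀ x y, dist x y ≤ D x y
  hi : ∀ x y, D x y ≤ K * dist x y
  mono : ∀ x y a b, x ⊓ y ≤ a → (a ≤ x ∨ a ≤ y) → x ⊓ y ≤ b → (b ≤ x ∨ b ≤ y) → D a b ≤ D x y
  path : ∀ a b : T, a ≤ b → ∃ γ : Path a b, Monotone γ
  ivt : ∀ (a b : T) (t : ℝ), a ≤ b → 0 ≤ t → t ≤ D a b → ∃ z, a ≤ z ∧ z ≤ b ∧ D a z = t
  closed : ∀ a b : T, IsClosed (Icc a b)
  cover : ∀ l : ℝ, ∃ N : ℕ, ∀ (z : T) (ρ : ℝ), 0 < ρ →
    ∃ S : Finset T, S.card ≤ N ∧ ∀ y, D z y ≤ l * ρ → ∃ s ∈ S, D y s < ρ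

open Classical in
/-- Nested vertex sets; `p n x` the last point of `V n ∪ {⊥}` below `x`, `pv n w` the last one
strictly below `w`. -/
structure VS (T : Type*) [SemilatticeInf T] [OrderBot T] (D : T → T → ℝ) (g d D0 : ℝ)
    (N M : ℕ) where
  V : ℕ → Finset T
  p : ℕ → T → T
  pv : ℕ → T → T
  v0 : V 0 = ∅
  mono : ∀ n, V n ⊆ V (n + 1)
  nb : ∀ n, ⊥ ∉ V n
  p_mem : ∀ n x, p n x = ⊥ ∨ p n x ∈ V n
  p_le : ∀ n x, p n x ≤ x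
  p_max : ∀ n x, ∀ u ∈ V n, u ≤ x → u ≤ p n x
  pv_mem : ∀ n w, pv n w = ⊥ ∨ pv n w ∈ V n
  pv_lt : ∀ n w, w ≠ ⊥ → pv n w < w
  pv_max : ∀ n w, ∀ u ∈ V n, u < w → u ≤ pv n w
  sep : ∀ n, ∀ u ∈ V n, ∀ u' ∈ V n, u ≠ u' → g * (D0 * d ^ n) ≤ D u u'
  sepr : ∀ n, ∀ u ∈ V n, g * (D0 * d ^ n) ≤ D ⊥ u
  size : ∀ n x, D (p n x) x ≤ 4 * (D0 * d ^ n)
  sizev : ∀ n w, w ≠ ⊥ → D (pv n w) w ≤ 4 * (D0 * d ^ n)
  avoid : ∀ n, ∀ u ∈ V n, ∀ w ∈ V n, ∀ w' ∈ V n, ¬ w ≤ w' → ¬ w' ≤ w →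
    g * (D0 * d ^ n) ≤ D u (w ⊓ w')
  ports : ∀ n v, ((V n).filter (fun w => pv n w = v)).card ≤ N
  kids : ∀ n v, ((V (n + 1)).filter (fun u => p n u = v)).card < M

/-! ### The kite -/

noncomputable def th (N : ℕ) : ℝ := 1 / (200 * N)
noncomputable def et (N : ℕ) : ℝ := 50 * th N ^ 2
noncomputable def rho (N : ℕ) : ℝ := 2 * th N
noncomputable def ss (N : ℕ) : ℝ := th N ^ 2 / 2
def LL (N : ℕ) : ℕ := 100 * N + 2
noncomputable def PP (N j : ℕ) : ℂ := ⟨j * et N, 1⟩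
def KK (N : ℕ) : Set ℂ :=
  {z | |z.re| ≤ th N * z.im ∧ ∀ j < N, z.im - 1 ≤ |z.re - j * et N| / 4}
def Sect (b : ℂ) : Prop := |b.im| ≤ b.re / 5

/-- The combinatorial input of the layout: children `C` of a tile, its out-ports `O`. -/
structure LT (ι : Type*) [PartialOrder ι] (N M : ℕ) where
  C : Set ι
  O : Set ι
  root : ι
  md : Prop
  prev : ι → ι
  dep : ι → ℕ
  idx : ι → ℕ
  Idx : ι → ℕ
  chain : ∀ a b c : ι, a ≤ c → b ≤ c → a ≤ b ∨ b ≤ a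
  root_mem : root ∈ C
  root_le : ∀ u ∈ C ∪ O, root ≤ u
  disj : ∀ w ∈ O, w ∉ C
  prev_mem : ∀ u ∈ C ∪ O, u ≠ root → prev u ∈ C
  prev_lt : ∀ u ∈ C ∪ O, u ≠ root → prev u < u
  prev_max : ∀ u ∈ C ∪ O, u ≠ root → ∀ y ∈ C, y < u → y ≤ prev u
  omax : ∀ w ∈ O, ∀ y ∈ C ∪ O, w ≤ y → y = w
  dep_root : dep root = 0
  dep_succ : ∀ u ∈ C ∪ O, u ≠ root → dep u = dep (prev u) + 1
  dep_lt : ∀ u ∈ C, dep u < M
  idx_lt : ∀ u ∈ C ∪ O, u ≠ root → idx u < N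
  Idx_lt : ∀ w ∈ O, Idx w < N
  idx_inj : ∀ u ∈ C ∪ O, ∀ u' ∈ C ∪ O, u ≠ root → u' ≠ root → prev u = prev u' →
    idx u = idx u' → u = u'
  Idx_inj : ∀ w ∈ O, ∀ w' ∈ O, Idx w = Idx w' → w = w'
  compat : ∀ w ∈ O, ∀ w' ∈ O, ∀ u ∈ C ∪ O, ∀ u' ∈ C ∪ O, u ≠ root → u' ≠ root → u ≤ w →
    u' ≤ w' → prev u = prev u' → idx u < idx u' → Idx w < Idx w'
  main : ∀ w ∈ O, ∀ u ∈ C ∪ O, u ≠ root → u ≤ w →
    (∀ w' ∈ O, prev u < w' → Idx w ≤ Idx w') → idx u = 0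
  long0 : ∀ w ∈ O, LL N + 2 ≤ dep w
  long1 : ∀ w ∈ O, ∀ w' ∈ O, w ≠ w' → ∀ u ∈ C, u < w → u < w' → dep u + LL N < dep w
  long2 : md → ∀ w ∈ O, ∀ w' ∈ O, ∀ u ∈ C, dep u ≤ 2 → u < w → u < w'

open Classical in
/-- The output of the layout: child `u` is drawn as `A u + b u • KK`. -/
structure LO {ι : Type*} [PartialOrder ι] {N M : ℕ} (t : LT ι N M) (c : ℝ) (A b : ι → ℂ)
    (Len : ι → ℝ) : Prop where
  sub : ∀ u ∈ t.C, ∀ z ∈ KK N, A u + b u * z ∈ KK N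
  link : ∀ u ∈ t.C, u ≠ t.root → A u = A (t.prev u) + b (t.prev u) * PP N (t.idx u)
  port : ∀ w ∈ t.O, A (t.prev w) + b (t.prev w) * PP N (t.idx w) = PP N (t.Idx w)
  apex : t.md → A t.root = 0 ∧ b t.root = (rho N : ℂ)
  tip : ∀ w ∈ t.O, b (t.prev w) = (rho N : ℂ)
  lo : ∀ u ∈ t.C, c ≤ ‖b u‖
  hi : ∀ u ∈ t.C, ‖b u‖ ≤ 1 / 2
  sect : ∀ u ∈ t.C, u ≠ t.root → Sect (b u / b (t.prev u))
  sep : ∀ u ∈ t.C, ∀ u' ∈ t.C, u ≠ u' → ¬ (u' ≠ t.root ∧ t.prev u' = u) →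
    ¬ (u ≠ t.root ∧ t.prev u = u') →
    ∀ z ∈ KK N, ∀ z' ∈ KK N, c ≤ ‖A u + b u * z - (A u' + b u' * z')‖
  farO : ∀ w ∈ t.O, ∀ u ∈ t.C, u ≠ t.prev w → ∀ z ∈ KK N, c ≤ ‖A u + b u * z - PP N (t.Idx w)‖
  far0 : t.md → ∀ u ∈ t.C, u ≠ t.root → ∀ z ∈ KK N, c ≤ ‖A u + b u * z‖
  len0 : Len t.root = 0
  lenS : ∀ u ∈ t.C ∪ t.O, u ≠ t.root → Len u = Len (t.prev u) +
    ‖b (t.prev u)‖ * (if t.idx u = 0 ∧ (t.md ∨ t.prev u ≠ t.root) then 1 else 4)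
  lenO : ∀ w ∈ t.O, Len w ≤ if t.Idx w = 0 ∧ t.md then 1 else 4

section glob
variable {T : Type*} [SemilatticeInf T] [OrderBot T] {D : T → T → ℝ} {g d D0 : ℝ} {N M : ℕ}

/-- Tiles with in-ports `u`, `u'` are adjacent at level `n`. -/
def Adj (S : VS T D g d D0 N M) (n : ℕ) (u u' : T) : Prop :=
  (u' ∈ S.V n ∧ S.pv n u' = u) ∨ (u ∈ S.V n ∧ S.pv n u = u')

open Classical in
/-- Weight of the pass from `pv n w` to `w`. -/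
noncomputable def wt (S : VS T D g d D0 N M) (idx : ℕ → T → ℕ) (n : ℕ) (w : T) : ℝ :=
  if idx n w = 0 ∧ S.pv n w ≠ ⊥ then 1 else 4

/-- The layouts of all tiles: `a n u + b n u • KK` is the place of the level `n+1` tile `u`
inside the kite of its parent `p n u`. -/
structure GLay (S : VS T D g d D0 N M) (c : ℝ) (idx : ℕ → T → ℕ) (a b : ℕ → T → ℂ)
    (Len : ℕ → T → T → ℝ) : Prop where
  idx_lt : ∀ n, ∀ w ∈ S.V n, idx n w < N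
  sub : ∀ n u, (u = ⊥ ∨ u ∈ S.V (n + 1)) → ∀ z ∈ KK N, a n u + b n u * z ∈ KK N
  new : ∀ n, ∀ u ∈ S.V (n + 1), u ∉ S.V n →
    S.p n (S.pv (n + 1) u) = S.p n u ∧
    a n u = a n (S.pv (n + 1) u) + b n (S.pv (n + 1) u) * PP N (idx (n + 1) u) ∧
    Sect (b n u / b n (S.pv (n + 1) u))
  old : ∀ n, ∀ w ∈ S.V n, S.p n w = w ∧ S.p n (S.pv (n + 1) w) = S.pv n w ∧
    a n w = 0 ∧ b n w = (rho N : ℂ) ∧ b n (S.pv (n + 1) w) = (rho N : ℂ) ∧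
    a n (S.pv (n + 1) w) + (rho N : ℂ) * PP N (idx (n + 1) w) = PP N (idx n w)
  lo : ∀ n u, (u = ⊥ ∨ u ∈ S.V (n + 1)) → c ≤ ‖b n u‖
  hi : ∀ n u, (u = ⊥ ∨ u ∈ S.V (n + 1)) → ‖b n u‖ ≤ 1 / 2
  sep : ∀ n u u', (u = ⊥ ∨ u ∈ S.V (n + 1)) → (u' = ⊥ ∨ u' ∈ S.V (n + 1)) →
    S.p n u = S.p n u' → u ≠ u' → ¬ Adj S (n + 1) u u' →
    ∀ z ∈ KK N, ∀ z' ∈ KK N, c ≤ ‖a n u + b n u * z - (a n u' + b n u' * z')‖
  farO : ∀ n, ∀ w ∈ S.V n, ∀ u, (u = ⊥ ∨ u ∈ S.V (n + 1)) → S.p n u = S.pv n w →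
    u ≠ S.pv (n + 1) w → ∀ z ∈ KK N, c ≤ ‖a n u + b n u * z - PP N (idx n w)‖
  far0 : ∀ n, ∀ w ∈ S.V n, ∀ u ∈ S.V (n + 1), S.p n u = w → u ≠ w →
    ∀ z ∈ KK N, c ≤ ‖a n u + b n u * z‖
  len0 : ∀ n v, (v = ⊥ ∨ v ∈ S.V n) → Len n v v = 0
  lenS : ∀ n, ∀ u ∈ S.V (n + 1), Len n (S.p n (S.pv (n + 1) u)) u =
    Len n (S.p n (S.pv (n + 1) u)) (S.pv (n + 1) u) +
      ‖b n (S.pv (n + 1) u)‖ * wt S idx (n + 1) u
  lenO : ∀ n, ∀ w ∈ S.V n, Len n (S.pv n w) w ≤ wt S idx n w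
  lenC : ∀ n u, (u = ⊥ ∨ u ∈ S.V (n + 1)) → Len n (S.p n u) u ≤ 2 * M

/-- Scale factor of the level `n` tile with in-port `u`. -/
noncomputable def BB (p : ℕ → T → T) (b : ℕ → T → ℂ) : ℕ → T → ℂ
  | 0, _ => 1
  | n + 1, u => BB p b n (p n u) * b n u

/-- Position of the apex of the level `n` tile with in-port `u`. -/
noncomputable def AA (p : ℕ → T → T) (a b : ℕ → T → ℂ) : ℕ → T → ℂ
  | 0, _ => 0
  | n + 1, u => AA p a b n (p n u) + BB p b n (p n u) * a n u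

/-- Adjacent tiles touch at the port, with controlled ratio. -/
def AdjInv (S : VS T D g d D0 N M) (c : ℝ) (idx : ℕ → T → ℕ) (a b : ℕ → T → ℂ) : Prop :=
  ∀ n, ∀ w ∈ S.V n,
    AA S.p a b n w = AA S.p a b n (S.pv n w) + BB S.p b n (S.pv n w) * PP N (idx n w) ∧
    Sect (BB S.p b n w / BB S.p b n (S.pv n w)) ∧
    c * ‖BB S.p b n (S.pv n w)‖ ≤ ‖BB S.p b n w‖ ∧ c * ‖BB S.p b n w‖ ≤ ‖BB S.p b n (S.pv n w)‖

/-- The variation of `F` along the arc from `x` to `y` (`x ≤ y`) is at most `l`. -/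
def LB (F : T → ℂ) (x y : T) (l : ℝ) : Prop :=
  ∀ (k : ℕ) (z : ℕ → T), Monotone z → (∀ i, x ≤ z i ∧ z i ≤ y) →
    ∑ i ∈ Finset.range k, dist (F (z (i + 1))) (F (z i)) ≤ l

/-- The two-sided estimate. -/
def Est (S : VS T D g d D0 N M) (b : ℕ → T → ℂ) (F : T → ℂ) (c C : ℝ) : Prop :=
  ∀ x y : T, x ≠ y → ∃ n : ℕ, (S.p n x = S.p n y ∨ Adj S n (S.p n x) (S.p n y)) ∧
    g * (D0 * d ^ (n + 1)) ≤ D x y ∧ D x y ≤ 12 * (D0 * d ^ n) ∧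
    c * ‖BB S.p b n (S.p n x)‖ ≤ ‖F x - F y‖ ∧ ‖F x - F y‖ ≤ C * ‖BB S.p b n (S.p n x)‖

/-- `t` is the tree of children and out-ports of the tile `(n, v)`. -/
def IsTile (S : VS T D g d D0 N M) (idx : ℕ → T → ℕ) (n : ℕ) (v : T) (t : LT T N M) : Prop :=
  t.C = {u | (u = ⊥ ∨ u ∈ S.V (n + 1)) ∧ S.p n u = v} ∧
  t.O = {w | w ∈ S.V n ∧ S.pv n w = v} ∧ t.root = v ∧ (t.md ↔ v ≠ ⊥) ∧
  t.prev = S.pv (n + 1) ∧ t.idx = idx (n + 1) ∧ t.Idx = idx n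
end glob

/-! ### The explicit layout -/

noncomputable def hO (N : ℕ) : ℝ := 1 / 2 + 2 * th N
noncomputable def hQ (N : ℕ) : ℝ := 1 / 2 + 4 * th N
noncomputable def lam (N : ℕ) : ℝ := th N - 12 * th N ^ 2
noncomputable def QQ (N j : ℕ) : ℂ := ⟨j * et N, hQ N⟩

/-- `u` is one of the last `LL N` children below the port `w`. -/
def Ln {ι : Type*} [PartialOrder ι] {N M : ℕ} (t : LT ι N M) (u w : ι) : Prop :=
  u ∈ t.C ∧ w ∈ t.O ∧ u < w ∧ t.dep w ≤ t.dep u + LL N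

/-- `u` is the trunk. -/
def Tk {ι : Type*} [PartialOrder ι] {N M : ℕ} (t : LT ι N M) (u : ι) : Prop :=
  t.md ∧ u ∈ t.C ∧ t.dep u = 1 ∧ ∃ w ∈ t.O, u < w

/-- `u` is drawn `ss N` times smaller than its predecessor. -/
def Tiny {ι : Type*} [PartialOrder ι] {N M : ℕ} (t : LT ι N M) (u : ι) : Prop :=
  u ∈ t.C ∧ u ≠ t.root ∧ (¬ ∃ w, Ln t u w) ∧ ¬ Tk t u

/-- The recursive rules of the layout. -/
structure RD {ι : Type*} [PartialOrder ι] {N M : ℕ} (t : LT ι N M) (A b : ι → ℂ) : Prop where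
  r1 : t.md → A t.root = 0 ∧ b t.root = (rho N : ℂ)
  r2 : ¬ t.md → A t.root = ⟨0, hO N⟩ ∧ b t.root = (ss N : ℂ)
  link : ∀ u ∈ t.C, u ≠ t.root → A u = A (t.prev u) + b (t.prev u) * PP N (t.idx u)
  bN : ∀ u w, Ln t u w → t.dep w = t.dep u + LL N →
    b u = (QQ N (t.Idx w) - A u) / Complex.I
  bT : ∀ u w, Ln t u w → t.dep w = t.dep u + 1 → b u = (rho N : ℂ)
  bL : ∀ u w, Ln t u w → t.dep u + 1 < t.dep w → t.dep w < t.dep u + LL N → b u = (lam N : ℂ)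
  bK : ∀ u, Tk t u → b u = (1 / 2 : ℂ)
  bS : ∀ u, Tiny t u → b u = (ss N : ℂ) * b (t.prev u)

end QT
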