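import Pool.Agent.Lib.MP_b50536_gt.QT.Bas

/-! The rooted order of a space with unique arcs. -/

namespace QT
open Set Metric Filter Topology
open scoped NNReal

namespace Tree

variable {T : Type*} [MetricSpace T]

theorem arc_of {f : ℝ → T} (hf : Continuous f) {s t : ℝ} (hi : InjOn f (uIcc s t)) :
    IsArc (f s) (f t) (f '' uIcc s t) := by
  by_cases h : s = t
  · subst h
    exact Or.inl ⟨rfl, by simp⟩
  have hm : ∀ τ : unitInterval, AffineMap.lineMap s t (τ : ℝ) ∈ uIcc s t := fun τ => by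
    rw [← segment_eq_uIcc, segment_eq_image_lineMap]
    exact ⟨τ, τ.2, rfl⟩
  refine Or.inr ⟨⟨⟨fun τ => f (AffineMap.lineMap s t (τ : ℝ)), by fun_prop⟩, by simp, by simp⟩,
    fun τ τ' e => Subtype.ext (AffineMap.lineMap_injective ℝ h (hi (hm τ) (hm τ') e)), ?_⟩
  ext z
  constructor
  · rintro ⟨τ, rfl⟩
    exact ⟨_, hm τ, rfl⟩
  · rintro ⟨u, hu, rfl⟩
    rw [← segment_eq_uIcc, segment_eq_image_lineMap] at hu
    obtain ⟨τ, h1, rfl⟩ := hu
    exact ⟨⟨τ, h1⟩, rfl⟩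

variable (hU : UniqueArcs T)

/-- The arc from `x` to `y`. -/
noncomputable def seg (x y : T) : Set T := (hU x y).choose

theorem seg_arc (x y : T) : IsArc x y (seg hU x y) := (hU x y).choose_spec.1

theorem seg_eq {f : ℝ → T} (hf : Continuous f) {s t : ℝ} (hi : InjOn f (uIcc s t)) :
    seg hU (f s) (f t) = f '' uIcc s t :=
  ((hU _ _).choose_spec.2 _ (arc_of hf hi)).symm

theorem par (x y : T) : ∃ (f : ℝ → T) (c : ℝ), 0 ≤ c ∧ Continuous f ∧ f 0 = x ∧ f c = y ∧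
    InjOn f (Icc 0 c) ∧ seg hU x y = f '' Icc 0 c ∧
    ∀ s ∈ Icc 0 c, ∀ t ∈ Icc 0 c, seg hU (f s) (f t) = f '' uIcc s t := by
  obtain ⟨f, c, h0, hf, rfl, rfl, hi⟩ : ∃ (f : ℝ → T) (c : ℝ), 0 ≤ c ∧ Continuous f ∧ f 0 = x ∧
      f c = y ∧ InjOn f (Icc 0 c) := by
    rcases seg_arc hU x y with ⟨rfl, -⟩ | ⟨γ, hγ, -⟩
    · exact ⟨fun _ => x, 0, le_rfl, continuous_const, rfl, rfl, by simp⟩
    · refine ⟨γ.extend, 1, zero_le_one, γ.continuous_extend, by simp, by simp, fun s hs t ht e => ?_⟩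
      rw [γ.extend_apply hs, γ.extend_apply ht] at e
      exact congrArg Subtype.val (hγ e)
  have key : ∀ s ∈ Icc 0 c, ∀ t ∈ Icc 0 c, seg hU (f s) (f t) = f '' uIcc s t :=
    fun s hs t ht => seg_eq hU hf (hi.mono (uIcc_subset_Icc hs ht))
  refine ⟨f, c, h0, hf, rfl, rfl, hi, ?_, key⟩
  rw [key 0 ⟨le_rfl, h0⟩ c ⟨h0, le_rfl⟩, uIcc_of_le h0]

theorem left (x y : T) : x ∈ seg hU x y := by
  obtain ⟨f, c, h0, -, rfl, rfl, -, e, -⟩ := par hU x y
  exact e ▸ ⟨0, ⟨le_rfl, h0⟩, rfl⟩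

theorem symm (x y : T) : seg hU x y = seg hU y x := by
  obtain ⟨f, c, h0, -, rfl, rfl, -, -, k⟩ := par hU x y
  rw [k 0 ⟨le_rfl, h0⟩ c ⟨h0, le_rfl⟩, k c ⟨h0, le_rfl⟩ 0 ⟨le_rfl, h0⟩, uIcc_comm]

theorem right (x y : T) : y ∈ seg hU x y := symm hU y x ▸ left hU y x

theorem closed (x y : T) : IsClosed (seg hU x y) := by
  obtain ⟨f, c, -, hf, -, -, -, e, -⟩ := par hU x y
  exact e ▸ (isCompact_Icc.image hf).isClosed

variable {hU}

theorem sub {x y a b : T} (ha : a ∈ seg hU x y) (hb : b ∈ seg hU x y) :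
    seg hU a b ⊆ seg hU x y := by
  obtain ⟨f, c, -, -, -, -, -, e, k⟩ := par hU x y
  rw [e] at ha hb ⊢
  obtain ⟨s, hs, rfl⟩ := ha
  obtain ⟨t, ht, rfl⟩ := hb
  exact k s hs t ht ▸ image_mono (uIcc_subset_Icc hs ht)

theorem total {x y a b : T} (ha : a ∈ seg hU x y) (hb : b ∈ seg hU x y) :
    a ∈ seg hU x b ∨ b ∈ seg hU x a := by
  obtain ⟨f, c, h0, -, rfl, -, -, e, k⟩ := par hU x y
  rw [e] at ha hb
  obtain ⟨s, hs, rfl⟩ := ha
  obtain ⟨t, ht, rfl⟩ := hb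
  rw [k 0 ⟨le_rfl, h0⟩ s hs, k 0 ⟨le_rfl, h0⟩ t ht, uIcc_of_le hs.1, uIcc_of_le ht.1]
  exact (le_total s t).imp (fun h => ⟨s, ⟨hs.1, h⟩, rfl⟩) fun h => ⟨t, ⟨ht.1, h⟩, rfl⟩

theorem split {x y z a : T} (hz : z ∈ seg hU x y) :
    (a ∈ seg hU x y → a ∈ seg hU x z ∨ a ∈ seg hU z y) ∧
      (a ∈ seg hU x z → a ∈ seg hU z y → a = z) := by
  obtain ⟨f, c, h0, -, rfl, rfl, hi, e, k⟩ := par hU x y
  rw [e] at hz ⊢
  obtain ⟨s, hs, rfl⟩ := hz
  rw [k 0 ⟨le_rfl, h0⟩ s hs, k s hs c ⟨h0, le_rfl⟩, uIcc_of_le hs.1, uIcc_of_le hs.2]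
  constructor
  · rintro ⟨t, ht, rfl⟩
    exact (le_total t s).imp (fun h => ⟨t, ⟨ht.1, h⟩, rfl⟩) fun h => ⟨t, ⟨h, ht.2⟩, rfl⟩
  · rintro ⟨t, ht, rfl⟩ ⟨u, hu, e'⟩
    have := hi ⟨hs.1.trans hu.1, hu.2⟩ ⟨ht.1, ht.2.trans hs.2⟩ e'
    rw [le_antisymm ht.2 (this ▸ hu.1)]

theorem join {x y z : T} (h : ∀ a ∈ seg hU z x, a ∈ seg hU z y → a = z) :
    seg hU x y = seg hU z x ∪ seg hU z y := by
  obtain ⟨f, c, c0, hf, rfl, rfl, fi, fe, -⟩ := par hU z x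
  obtain ⟨g, d, d0, hg, e, rfl, gi, ge, -⟩ := par hU (f 0) y
  rw [fe, ge] at h ⊢
  have hc : Continuous fun t : ℝ => if t ≤ 0 then f (-t) else g t :=
    Continuous.if_le (by fun_prop) hg continuous_id continuous_const fun t ht => by
      rw [ht, neg_zero, e]
  have h1 : ∀ t : ℝ, 0 ≤ t → (if t ≤ 0 then f (-t) else g t) = g t := fun t ht => by
    split_ifs with h'
    · rw [le_antisymm h' ht, neg_zero, e]
    · rfl
  have mix : ∀ s ∈ Icc (-c) d, ∀ t ∈ Icc (-c) d, s ≤ 0 → ¬ t ≤ 0 → f (-s) ≠ g t :=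
    fun s hs t ht h1 h2 e' => by
      have t0 : 0 ≤ t := (not_le.1 h2).le
      have := h (g t) ⟨-s, ⟨by linarith, by linarith [hs.1]⟩, e'⟩ ⟨t, ⟨t0, ht.2⟩, rfl⟩
      exact h2 (gi ⟨t0, ht.2⟩ ⟨le_rfl, d0⟩ (this.trans e.symm)).le
  have cd : -c ≤ d := by linarith
  have hi : InjOn (fun t : ℝ => if t ≤ 0 then f (-t) else g t) (uIcc (-c) d) := by
    rw [uIcc_of_le cd]
    intro s hs t ht e'
    dsimp only at e'
    split_ifs at e' with a b b
    · exact neg_injective (fi ⟨by linarith, by linarith [hs.1]⟩ ⟨by linarith, by linarith [ht.1]⟩ e')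
    · exact absurd e' (mix s hs t ht a b)
    · exact absurd e'.symm (mix t ht s hs b a)
    · exact gi ⟨(not_le.1 a).le, hs.2⟩ ⟨(not_le.1 b).le, ht.2⟩ e'
  have k := seg_eq hU hc hi
  rw [h1 d d0, if_pos (by linarith), neg_neg, uIcc_of_le cd] at k
  rw [k]
  ext a
  constructor
  · rintro ⟨t, ht, rfl⟩
    dsimp only
    split_ifs with b
    · exact Or.inl ⟨-t, ⟨by linarith, by linarith [ht.1]⟩, rfl⟩
    · exact Or.inr ⟨t, ⟨(not_le.1 b).le, ht.2⟩, rfl⟩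
  · rintro (⟨t, ht, rfl⟩ | ⟨t, ht, rfl⟩)
    · refine ⟨-t, ⟨by linarith [ht.2], by linarith [ht.1]⟩, ?_⟩
      dsimp only
      rw [if_pos (by linarith [ht.1]), neg_neg]
    · exact ⟨t, ⟨by linarith [ht.1], ht.2⟩, h1 t ht.1⟩

variable (hU)

theorem med (r x y : T) : ∃ m, m ∈ seg hU r x ∧ m ∈ seg hU r y ∧
    (∀ a ∈ seg hU r x, a ∈ seg hU r y → a ∈ seg hU r m) ∧
    seg hU x y = seg hU m x ∪ seg hU m y := by
  obtain ⟨f, c, c0, hf, rfl, rfl, fi, fe, k⟩ := par hU r x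
  have hA : IsCompact (Icc 0 c ∩ f ⁻¹' seg hU (f 0) y) :=
    isCompact_Icc.inter_right ((closed hU _ _).preimage hf)
  obtain ⟨t, ⟨ht, hy⟩, hm⟩ := hA.exists_isGreatest ⟨0, ⟨le_rfl, c0⟩, left hU _ _⟩
  refine ⟨f t, fe ▸ ⟨t, ht, rfl⟩, hy, ?_, join ?_⟩
  · rw [fe, k 0 ⟨le_rfl, c0⟩ t ht, uIcc_of_le ht.1]
    rintro _ ⟨s, hs, rfl⟩ h
    exact ⟨s, ⟨hs.1, hm ⟨hs, h⟩⟩, rfl⟩
  · rw [k t ht c ⟨c0, le_rfl⟩, uIcc_of_le ht.2]
    rintro _ ⟨s, hs, rfl⟩ h
    rw [le_antisymm (hm ⟨⟨ht.1.trans hs.1, hs.2⟩, sub hy (right hU _ _) h⟩) hs.1]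

/-- The order seen from the root `r`. -/
@[reducible] noncomputable def lat (r : T) : SemilatticeInf T where
  le x y := x ∈ seg hU r y
  le_refl := right hU r
  le_trans _ _ c h1 h2 := sub (left hU r c) h2 h1
  le_antisymm a b h1 h2 := ((split h1).2 h2 (right hU a b)).symm
  inf x y := (med hU r x y).choose
  inf_le_left x y := (med hU r x y).choose_spec.1
  inf_le_right x y := (med hU r x y).choose_spec.2.1
  le_inf a x y h1 h2 := (med hU r x y).choose_spec.2.2.1 a h1 h2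

variable {hU}

theorem icc {r a b z : T} (h : a ∈ seg hU r b) :
    z ∈ seg hU a b ↔ a ∈ seg hU r z ∧ z ∈ seg hU r b := by
  constructor
  · intro hz
    have h1 := sub h (right hU r b) hz
    refine ⟨(total h h1).elim id fun h2 => ?_, h1⟩
    rw [(split h).2 h2 hz]
    exact right hU r a
  · rintro ⟨h1, h2⟩
    refine ((split h).1 h2).elim (fun h3 => ?_) id
    rw [(split h1).2 h3 (right hU a z)]
    exact left hU a b

theorem cov (hD : Doubling T) : ∃ N : ℕ, ∀ (k : ℕ) (x : T) (r : ℝ), 0 < r →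
    ∃ S : Finset T, S.card ≤ N ^ k ∧ ∀ y, dist y x < r → ∃ s ∈ S, dist y s < r / 2 ^ k := by
  classical
  obtain ⟨N, hN⟩ := hD
  refine ⟨N, fun k x r hr => ?_⟩
  induction k with
  | zero => exact ⟨{x}, by simp, fun y hy => ⟨x, by simp, by simpa using hy⟩⟩
  | succ k ih =>
    obtain ⟨S, h1, h2⟩ := ih
    choose U u1 u2 using fun s => hN s (r / 2 ^ k) (by positivity)
    refine ⟨S.biUnion U, (Finset.card_biUnion_le_card_mul S U N fun s _ => u1 s).trans ?_,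
      fun y hy => ?_⟩
    · rw [pow_succ]
      exact Nat.mul_le_mul_right N h1
    · obtain ⟨s, hs, h3⟩ := h2 y hy
      obtain ⟨c, hc, h4⟩ := mem_iUnion₂.1 (u2 s h3)
      exact ⟨c, Finset.mem_biUnion.2 ⟨s, hs, hc⟩, by rwa [pow_succ, ← div_div]⟩

end Tree

open _root_.QT.Tree in
theorem tree (T : Type*) [MetricSpace T] [CompactSpace T] [Nonempty T] (hU : UniqueArcs T)
    (hD : Doubling T) (hK : BddTurning T) :
    ∃ (_ : SemilatticeInf T) (_ : OrderBot T) (D : T → T → ℝ) (K : ℝ), TA T D K := by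
  obtain ⟨K, K1, hK⟩ := hK
  obtain ⟨r⟩ := ‹Nonempty T›
  letI := lat hU r
  have le : ∀ {x y : T}, x ≤ y ↔ x ∈ seg hU r y := Iff.rfl
  letI : OrderBot T := { bot := r, bot_le := fun x => left hU r x }
  have bd : ∀ A : Set T, Bornology.IsBounded A := fun _ => isBounded_of_compactSpace
  have K0 : 0 < K := by linarith
  have hi : ∀ x y, diam (seg hU x y) ≤ K * dist x y := fun x y => hK x y _ (seg_arc hU x y)
  have lo : ∀ x y, dist x y ≤ diam (seg hU x y) := fun x y =>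
    dist_le_diam_of_mem (bd _) (left hU x y) (right hU x y)
  have tri : ∀ x y z, diam (seg hU x z) ≤ diam (seg hU x y) + diam (seg hU y z) := fun x y z => by
    obtain ⟨m, h1, h2, -, e⟩ := med hU y x z
    refine (diam_mono ?_ (bd _)).trans (diam_union' ⟨y, right hU x y, left hU y z⟩)
    rw [e, QT.Tree.symm hU x y]
    exact union_subset_union (sub h1 (right hU _ _)) (sub h2 (right hU _ _))
  refine ⟨_, inferInstance, fun x y => diam (seg hU x y), K, K0, fun a b c => total,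
    fun x y => congrArg diam (QT.Tree.symm hU x y), tri, lo, hi, ?_, ?_, ?_, ?_, ?_⟩
  · intro x y a b h1 h2 h3 h4
    have k : ∀ z, x ⊓ y ≤ z → (z ≤ x ∨ z ≤ y) → z ∈ seg hU x y := fun z h h' => by
      rw [(med hU r x y).choose_spec.2.2.2]
      exact h'.imp (fun e => (icc (le.1 inf_le_left)).2 ⟨h, e⟩)
        fun e => (icc (le.1 inf_le_right)).2 ⟨h, e⟩
    exact diam_mono (sub (k a h1 h2) (k b h3 h4)) (bd _)
  · intro a b h
    obtain ⟨f, c, c0, hf, rfl, rfl, -, fe, k⟩ := par hU a b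
    refine ⟨⟨⟨fun τ => f (c * τ), by fun_prop⟩, by simp, by simp⟩, fun s t hst => ?_⟩
    have m : ∀ s : unitInterval, c * s ∈ Icc 0 c := fun s =>
      ⟨mul_nonneg c0 s.2.1, mul_le_of_le_one_right c0 s.2.2⟩
    have h1 : f 0 ≤ f (c * t) := ((icc h).1 (fe ▸ ⟨_, m t, rfl⟩)).1
    refine ((icc h1).1 ?_).2
    rw [k 0 ⟨le_rfl, c0⟩ _ (m t), uIcc_of_le (m t).1]
    exact ⟨_, ⟨(m s).1, mul_le_mul_of_nonneg_left hst c0⟩, rfl⟩
  · intro a b t h t0 t1
    have hc : Continuous fun z => diam (seg hU a z) :=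
      (LipschitzWith.of_le_add_mul' K fun z w => (tri a w z).trans
        (add_le_add le_rfl ((hi w z).trans_eq (by rw [dist_comm])))).continuous
    have h0 : diam (seg hU a a) ≤ t := (hi a a).trans (by simpa using t0)
    obtain ⟨f, c, c0, hf, rfl, rfl, -, fe, -⟩ := par hU a b
    obtain ⟨s, hs, e⟩ := intermediate_value_Icc c0 (hc.comp hf).continuousOn ⟨h0, t1⟩
    have := (icc h).1 (fe ▸ ⟨s, hs, rfl⟩ : f s ∈ _)
    exact ⟨f s, this.1, this.2, e⟩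
  · intro a b
    by_cases h : a ≤ b
    · have : Icc a b = seg hU a b := by
        ext z
        exact (icc h).symm
      exact this ▸ closed hU a b
    · rw [Icc_eq_empty h]
      exact isClosed_empty
  · intro l
    obtain ⟨N, hN⟩ := cov hD
    obtain ⟨k, hk⟩ := pow_unbounded_of_one_lt ((|l| + 1) * K) (one_lt_two (α := ℝ))
    refine ⟨N ^ k, fun z ρ hρ => ?_⟩
    obtain ⟨S, h1, h2⟩ := hN k z ((|l| + 1) * ρ) (by positivity)
    refine ⟨S, h1, fun y hy => ?_⟩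
    have h3 := lo z y
    obtain ⟨s, hs, h4⟩ := h2 y (by rw [dist_comm]; nlinarith [le_abs_self l])
    refine ⟨s, hs, (hi y s).trans_lt ?_⟩
    rw [lt_div_iff₀ (by positivity)] at h4
    have h5 : 0 < |l| + 1 := by positivity
    refine lt_of_mul_lt_mul_left ?_ h5.le
    nlinarith [dist_nonneg (x := y) (y := s)]

end QT
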